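import Pool.Agent.Y546.WQ.Stm2

/-!
# Project RT: Terjanian's theorem over totally real fields of odd narrow class number, statements

`K` is a totally real number field in which `p` is inert, `M` the field of `p`-th roots of unity
over `K`.
-/

set_option autoImplicit false

namespace Pool.Agent.Y546.WQ

open NumberField IsDedekindDomain Polynomial

/-- the facts about the field of `p`-th roots of unity over `K` which are used -/
structure CycK (p : ℕ) (K M : Type) [Field K] [NumberField K] [Field M] [NumberField M]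
    [Algebra K M] where
  z : M
  prim : IsPrimitiveRoot z p
  σ : (ZMod p)ˣ →* (M ≃ₐ[K] M)
  σ_z : ∀ t, σ t z = z ^ (t : ZMod p).val
  gen : ∀ x : M, ∃ f : Polynomial K, x = aeval z f
  fix : ∀ x : M, (∀ t, σ t x = x) → ∃ a : K, algebraMap K M a = x
  P0 : HeightOneSpectrum (𝓞 M)
  mem : ((p : ℕ) : 𝓞 M) ∈ P0.asIdeal
  uniq : ∀ P : HeightOneSpectrum (𝓞 M), ((p : ℕ) : 𝓞 M) ∈ P.asIdeal → P = P0
  val_z : P0.valuation M (1 - z) = WithZero.exp (-1 : ℤ)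
  res : ∀ x : 𝓞 M, ∃ y : 𝓞 K, x - algebraMap (𝓞 K) (𝓞 M) y ∈ P0.asIdeal
  dnp : ∀ v : HeightOneSpectrum (𝓞 K), ((p : ℕ) : 𝓞 K) ∈ v.asIdeal → ∀ a : K,
    P0.valuation M (algebraMap K M a) = v.valuation K a ^ (p - 1)
  dnq : ∀ v : HeightOneSpectrum (𝓞 K), ((p : ℕ) : 𝓞 K) ∉ v.asIdeal →
    ∃ P : HeightOneSpectrum (𝓞 M), ((p : ℕ) : 𝓞 M) ∉ P.asIdeal ∧
      ∀ a : K, P.valuation M (algebraMap K M a) = v.valuation K a

/-- all conjugates are real -/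
def Real' (K : Type) [Field K] [NumberField K] : Prop := ∀ (φ : K →+* ℂ) (a : K), ∃ r : ℝ, φ a = r

/-- totally positive elements with even valuations are squares (the narrow class number is odd) -/
def Nar (K : Type) [Field K] [NumberField K] : Prop :=
  ∀ a : K, a ≠ 0 → (∀ φ : K →+* ℂ, 0 < (φ a).re) →
    (∀ v : HeightOneSpectrum (𝓞 K), ∃ m : ℤ, v.valuation K a = WithZero.exp (2 * m)) →
    ∃ b : K, a = b ^ 2

/-- KA: the field of `p`-th roots of unity over `K` -/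
def S_KA : Prop := ∀ (p : ℕ) [Fact p.Prime], p ≠ 2 → ∀ (K : Type) [Field K] [NumberField K],
  (Ideal.span {((p : ℕ) : 𝓞 K)}).IsPrime →
  ∃ (M : Type) (_ : Field M) (_ : NumberField M) (_ : Algebra K M) (z : M)
    (σ : (ZMod p)ˣ →* (M ≃ₐ[K] M)), IsPrimitiveRoot z p ∧
    (∀ t, σ t z = z ^ (t : ZMod p).val) ∧ (∀ x : M, ∃ f : Polynomial K, x = aeval z f) ∧
    (∀ x : M, (∀ t, σ t x = x) → ∃ a : K, algebraMap K M a = x) ∧ Module.finrank K M = p - 1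

/-- KB: `p` is totally ramified -/
def S_KB : Prop := ∀ (p : ℕ) [Fact p.Prime], p ≠ 2 → ∀ (K M : Type) [Field K] [NumberField K]
  [Field M] [NumberField M] [Algebra K M] (z : M), IsPrimitiveRoot z p →
  Module.finrank K M = p - 1 → (Ideal.span {((p : ℕ) : 𝓞 K)}).IsPrime →
  ∃ P0 : HeightOneSpectrum (𝓞 M), ((p : ℕ) : 𝓞 M) ∈ P0.asIdeal ∧
    (∀ P : HeightOneSpectrum (𝓞 M), ((p : ℕ) : 𝓞 M) ∈ P.asIdeal → P = P0) ∧
    P0.valuation M (1 - z) = WithZero.exp (-1 : ℤ) ∧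
    (∀ x : 𝓞 M, ∃ y : 𝓞 K, x - algebraMap (𝓞 K) (𝓞 M) y ∈ P0.asIdeal) ∧
    ∀ v : HeightOneSpectrum (𝓞 K), ((p : ℕ) : 𝓞 K) ∈ v.asIdeal → ∀ a : K,
      P0.valuation M (algebraMap K M a) = v.valuation K a ^ (p - 1)

/-- KC: the other primes are unramified -/
def S_KC : Prop := ∀ (p : ℕ) [Fact p.Prime], ∀ (K M : Type) [Field K] [NumberField K]
  [Field M] [NumberField M] [Algebra K M] (z : M), IsPrimitiveRoot z p →
  (∀ x : M, ∃ f : Polynomial K, x = aeval z f) →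
  ∀ v : HeightOneSpectrum (𝓞 K), ((p : ℕ) : 𝓞 K) ∉ v.asIdeal →
    ∃ P : HeightOneSpectrum (𝓞 M), ((p : ℕ) : 𝓞 M) ∉ P.asIdeal ∧
      ∀ a : K, P.valuation M (algebraMap K M a) = v.valuation K a

/-- KRAM: the action on the powers of the prime above `p` -/
def S_KRAM : Prop := ∀ (p : ℕ) [Fact p.Prime], p ≠ 2 → ∀ (K M : Type) [Field K] [NumberField K]
  [Field M] [NumberField M] [Algebra K M] (c : CycK p K M),
  ∀ (r : M) (t : (ZMod p)ˣ) (ε k : ℤ), r ≠ 0 → (ε = 1 ∨ ε = -1) → c.σ t r = ε * r →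
    c.P0.valuation M r = WithZero.exp k → ((t ^ k : (ZMod p)ˣ) : ZMod p) = ε

/-- KTOW: norms of ideal squares to the real subfield of degree `2 ^ (s - 1)` are squares -/
def S_KTOW : Prop := ∀ (p : ℕ) [Fact p.Prime], p ≠ 2 → ∀ (s q : ℕ), Odd q → p - 1 = 2 ^ s * q →
  ∀ (K M : Type) [Field K] [NumberField K] [Field M] [NumberField M] [Algebra K M]
  (c : CycK p K M), Real' K → Nar K → ∀ α : M, α ≠ 0 →
  (∀ P : HeightOneSpectrum (𝓞 M), ∃ m : ℤ, P.valuation M α = WithZero.exp (2 * m)) →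
  c.P0.valuation M α = 1 →
  ∃ β : M, ∏ t ∈ Finset.univ.filter (fun t : (ZMod p)ˣ => t ^ (2 * q) = 1), c.σ t α = β ^ 2

/-- KFIN: the contradiction at a prime above two with odd ramification index -/
def S_KFIN : Prop := ∀ (p : ℕ) [Fact p.Prime], p ≠ 2 → ∀ (s q : ℕ), Odd q → p - 1 = 2 ^ s * q →
  ∀ (K M : Type) [Field K] [NumberField K] [Field M] [NumberField M] [Algebra K M]
  (c : CycK p K M) (v : HeightOneSpectrum (𝓞 K)) (e : ℕ), Odd e → (2 : 𝓞 K) ∈ v.asIdeal ^ e →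
  (2 : 𝓞 K) ∉ v.asIdeal ^ (e + 1) → ∀ y z : 𝓞 K, y ∉ v.asIdeal →
  z ^ 2 - y ^ 2 ∈ v.asIdeal ^ (2 * e) → ∀ β : M,
  ∏ t ∈ Finset.univ.filter (fun t : (ZMod p)ˣ => t ^ (2 * q) = 1),
    c.σ t (algebraMap K M (z : K) ^ 2 - c.z * algebraMap K M (y : K) ^ 2) = β ^ 2 → False

/-- KTWO: the two-adic congruence -/
def S_KTWO : Prop := ∀ (R : Type) [CommRing R] [IsDedekindDomain R] (P : Ideal R), P.IsPrime →
  P ≠ ⊥ → Nat.card (R ⧸ P) = 2 → ∀ p : ℕ, Odd p → ∀ x y z : R, x ∈ P → y ∉ P →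
  x ^ (2 * p) + y ^ (2 * p) = z ^ (2 * p) → z ^ 2 - y ^ 2 ∈ P ^ (2 * p)

/-- KNQ: real quadratic fields of prime discriminant -/
def S_KNQ : Prop := ∀ (q : ℕ), q.Prime → q % 4 = 1 → ∀ (K : Type) [Field K] [NumberField K],
  Module.finrank ℚ K = 2 → (∃ r : K, r ^ 2 = (q : K)) → Nar K

end Pool.Agent.Y546.WQ
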