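import Pool.Agent.Y546.WQ.Stm

/-!
# Project WQ: the local criterion from the Stickelberger relation
-/

set_option autoImplicit false

namespace Pool.Agent.Y546.WQ

open NumberField IsDedekindDomain

theorem val_one {C : Type} [Field C] [NumberField C] (P : HeightOneSpectrum (𝓞 C)) (r : 𝓞 C)
    (h : r ∉ P.asIdeal) : P.valuation C (r : C) = 1 := by
  rcases (P.valuation_le_one (K := C) r).lt_or_eq with h1 | h1
  · exact absurd ((P.valuation_lt_one_iff_mem (K := C) r).1 h1) h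
  · exact h1

theorem one_notMem {R : Type*} [CommRing R] (P : Ideal R) (hP : P.IsPrime) :
    (1 : R) ∉ P := fun h => hP.ne_top ((Ideal.eq_top_iff_one _).2 h)

/-- an integer prime to `q ∈ P` is not in `P` -/
theorem int_notMem {R : Type*} [CommRing R] (P : Ideal R) (hP : P.IsPrime) (q : ℕ)
    (hq : q.Prime) (h : ((q : ℕ) : R) ∈ P) (n : ℤ) (hn : ¬ (q : ℤ) ∣ n) :
    (n : R) ∉ P := by
  intro h1
  have hc : IsCoprime (q : ℤ) n := (Nat.prime_iff_prime_int.1 hq).coprime_iff_not_dvd.2 hn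
  obtain ⟨u, v, huv⟩ := hc
  apply one_notMem P hP
  have h2 : (1 : R) = (u : R) * (q : R) + (v : R) * (n : R) := by
    have := congrArg (fun w : ℤ => (w : R)) huv
    push_cast at this
    exact this.symm
  rw [h2]
  exact P.add_mem (P.mul_mem_left _ h) (P.mul_mem_left _ h1)

theorem charP_quot {R : Type*} [CommRing R] (P : Ideal R) (hP : P.IsPrime) (q : ℕ)
    (hq : q.Prime) (h : ((q : ℕ) : R) ∈ P) : CharP (R ⧸ P) q := by
  haveI := hP
  haveI : Nontrivial (R ⧸ P) := Ideal.Quotient.nontrivial_iff.2 hP.ne_top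
  refine (CharP.charP_iff_prime_eq_zero hq).2 ?_
  rw [← map_natCast (Ideal.Quotient.mk P)]
  exact Ideal.Quotient.eq_zero_iff_mem.2 h

section

variable {p : ℕ} [Fact p.Prime] {C : Type} [Field C] [NumberField C]

theorem exists_zint (c : Cyc p C) : ∃ w : 𝓞 C, (w : C) = c.z ∧ IsPrimitiveRoot w p := by
  have hpp : p.Prime := Fact.out
  have hzint : IsIntegral ℤ c.z := by
    have h1 : c.z ^ p = 1 := c.prim.pow_eq_one
    exact ⟨Polynomial.X ^ p - 1, Polynomial.monic_X_pow_sub_C 1 hpp.ne_zero, by simp [h1]⟩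
  refine ⟨⟨c.z, hzint⟩, rfl, ?_⟩
  apply IsPrimitiveRoot.of_map_of_injective (f := algebraMap (𝓞 C) C) _
    RingOfIntegers.coe_injective
  exact c.prim

theorem one_sub_mem {R : Type*} [CommRing R] (w : R) (hw : w ^ p = 1) (P : Ideal R)
    (hP : P.IsPrime) (h : ((p : ℕ) : R) ∈ P) : 1 - w ∈ P := by
  have hpp : p.Prime := Fact.out
  haveI := hP
  haveI := charP_quot P hP p hpp h
  rw [← Ideal.Quotient.eq_zero_iff_mem, map_sub, map_one]
  have h1 : (1 - Ideal.Quotient.mk P w) ^ p = 0 := by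
    rw [sub_pow_char, one_pow, ← map_pow, hw, map_one, sub_self]
  exact (pow_eq_zero_iff hpp.ne_zero).1 h1

theorem p_mem_of_one_sub_mem (w : 𝓞 C) (hw : IsPrimitiveRoot w p) (P : Ideal (𝓞 C))
    (h : 1 - w ∈ P) : ((p : ℕ) : 𝓞 C) ∈ P := by
  have hpp : p.Prime := Fact.out
  have h1 : ∑ i ∈ Finset.range p, w ^ i = 0 := hw.geom_sum_eq_zero hpp.one_lt
  have h2 : Ideal.Quotient.mk P w = 1 := by
    have := Ideal.Quotient.eq_zero_iff_mem.2 h
    rw [map_sub, map_one, sub_eq_zero] at this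
    exact this.symm
  rw [← Ideal.Quotient.eq_zero_iff_mem, map_natCast]
  have h3 := congrArg (Ideal.Quotient.mk P) h1
  rw [map_sum, map_zero] at h3
  simpa [h2] using h3

theorem wie0 (hU : S_UNIT) (hL : S_LAM) (hT : S_TWO) (hH : S_HAR) (h5 : 5 ≤ p)
    (hW : ¬ p ^ 2 ∣ 2 ^ (p - 1) - 1) (c : Cyc p C) (a b e n : ℤ) (hn : Odd n)
    (hpn : ¬ (p : ℤ) ∣ n) (hpu : ¬ (p : ℤ) ∣ a + b + e) (k : ℕ)
    (hk : (Even a ∧ Even b ∧ Odd e ∧ k = 4) ∨ (Even a ∧ Odd b ∧ Even e ∧ k = 2) ∨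
      (Even a ∧ Odd b ∧ Odd e ∧ k = 3) ∨ (Odd a ∧ Odd b ∧ Odd e ∧ k = 2))
    (h0 : (a : C) + b * c.z + e * c.z ^ 2 ≠ 0)
    (hv : ∀ P : HeightOneSpectrum (𝓞 C), ∃ m : ℤ,
      P.valuation C ((a : C) + b * c.z + e * c.z ^ 2) =
        P.valuation C ((n : ℤ) : C) * WithZero.exp ((p : ℤ) * m)) :
    (k : ZMod p) * (a + b + e : ℤ) = 2 * (b + 2 * e : ℤ) := by
  have hpp : p.Prime := Fact.out
  have hp2 : p ≠ 2 := by omega
  have hn0 : (n : C) ≠ 0 := by
    intro h1
    have : n = 0 := by exact_mod_cast h1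
    exact hpn (this ▸ dvd_zero _)
  obtain ⟨w, hwz, hw⟩ := exists_zint c
  have hΛ : (((a : 𝓞 C) + b * w + e * w ^ 2 : 𝓞 C) : C) = (a : C) + b * c.z + e * c.z ^ 2 := by
    have hwz' : algebraMap (𝓞 C) C w = c.z := hwz
    simp only [map_add, map_mul, map_pow, map_intCast, hwz']
  obtain ⟨g, hg, i, hi⟩ := hU p hp2 C c (((a : C) + b * c.z + e * c.z ^ 2) / n)
    (div_ne_zero h0 hn0) (by
      intro P
      obtain ⟨m, hm⟩ := hv P
      refine ⟨m, ?_⟩
      rw [map_div₀, hm, mul_comm, mul_div_assoc, div_self, mul_one]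
      exact (Valuation.ne_zero_iff _).2 hn0) (by
      intro P hP
      rw [map_div₀, ← hΛ]
      have h1 : P.valuation C (((n : ℤ) : C)) = 1 := by
        have := val_one P ((n : ℤ) : 𝓞 C) (int_notMem P.asIdeal P.isPrime p hpp hP n hpn)
        simpa using this
      have h2 : P.valuation C (((a : 𝓞 C) + b * w + e * w ^ 2 : 𝓞 C) : C) = 1 := by
        apply val_one
        intro h3
        apply int_notMem P.asIdeal P.isPrime p hpp hP (a + b + e) hpu
        have h4 : (((a + b + e : ℤ)) : 𝓞 C) = ((a : 𝓞 C) + b * w + e * w ^ 2) +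
            (b + e * (1 + w)) * (1 - w) := by
          push_cast
          ring
        rw [h4]
        exact P.asIdeal.add_mem h3
          (P.asIdeal.mul_mem_left _ (one_sub_mem w hw.pow_eq_one P.asIdeal P.isPrime hP))
      rw [h1, h2, div_one])
  have e1 := hL p hp2 C c a b e n hpn hpu g hg i hi
  have e2 := hT p h5 C c a b e n hn k hk g hg i hi
  have e3 : 2 * (i : ZMod p) = k * hs p := e2.resolve_right hW
  have hs0 : hs p ≠ 0 := fun h => hW (hH p hp2 h)
  apply mul_right_cancel₀ hs0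
  calc (k : ZMod p) * (a + b + e : ℤ) * hs p = (k * hs p) * (a + b + e : ℤ) := by ring
    _ = 2 * ((i : ZMod p) * (a + b + e : ℤ)) := by rw [← e3]; ring
    _ = 2 * (b + 2 * e : ℤ) * hs p := by rw [e1]; ring

/-- the odd part of an integer -/
theorem exists_odd_part (u : ℤ) (hu : u ≠ 0) : ∃ (r : ℕ) (n : ℤ), Odd n ∧ u = 2 ^ r * n := by
  obtain ⟨r, m, hm, h⟩ := Nat.exists_eq_two_pow_mul_odd (n := u.natAbs) (by omega)
  have hm' : Odd (m : ℤ) := by exact_mod_cast hm
  rcases Int.natAbs_eq u with h1 | h1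
  · refine ⟨r, m, hm', ?_⟩
    rw [h1, h]
    push_cast
    rfl
  · refine ⟨r, -m, hm'.neg, ?_⟩
    rw [h1, h]
    push_cast
    ring

theorem wie (hU : S_UNIT) (hL : S_LAM) (hT : S_TWO) (hH : S_HAR) (h5 : 5 ≤ p)
    (hW : ¬ p ^ 2 ∣ 2 ^ (p - 1) - 1) (c : Cyc p C) (a b e : ℤ)
    (hpu : ¬ (p : ℤ) ∣ a + b + e) (k : ℕ)
    (hk : (Even a ∧ Even b ∧ Odd e ∧ k = 4) ∨ (Even a ∧ Odd b ∧ Even e ∧ k = 2) ∨
      (Even a ∧ Odd b ∧ Odd e ∧ k = 3) ∨ (Odd a ∧ Odd b ∧ Odd e ∧ k = 2))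
    (h0 : (a : C) + b * c.z + e * c.z ^ 2 ≠ 0)
    (hv : ∀ P : HeightOneSpectrum (𝓞 C), ∃ m : ℤ,
      P.valuation C ((a : C) + b * c.z + e * c.z ^ 2) =
        P.valuation C ((a + b + e : ℤ) : C) * WithZero.exp ((p : ℤ) * m)) :
    (k : ZMod p) * (a + b + e : ℤ) = 2 * (b + 2 * e : ℤ) := by
  have hpp : p.Prime := Fact.out
  have hp2 : p ≠ 2 := by omega
  by_cases hodd : Odd (a + b + e)
  · exact wie0 hU hL hT hH h5 hW c a b e (a + b + e) hodd hpu hpu k hk h0 hv
  · -- then we are in the third case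
    have hc : Even a ∧ Odd b ∧ Odd e ∧ k = 3 := by
      rcases hk with h | h | h | h
      · exact absurd ((h.1.add h.2.1).add_odd h.2.2.1) hodd
      · exact absurd ((h.1.add_odd h.2.1).add_even h.2.2.1) hodd
      · exact h
      · exact absurd ((h.1.add_odd h.2.1).add_odd h.2.2.1) hodd
    have hu0 : a + b + e ≠ 0 := fun h => hpu (h ▸ dvd_zero _)
    obtain ⟨r, n, hn, hrn⟩ := exists_odd_part (a + b + e) hu0
    have hpn : ¬ (p : ℤ) ∣ n := fun h => hpu (hrn ▸ dvd_mul_of_dvd_right h _)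
    obtain ⟨w, hwz, hw⟩ := exists_zint c
    have hΛ : (((a : 𝓞 C) + b * w + e * w ^ 2 : 𝓞 C) : C) = (a : C) + b * c.z + e * c.z ^ 2 := by
      have hwz' : algebraMap (𝓞 C) C w = c.z := hwz
      simp only [map_add, map_mul, map_pow, map_intCast, hwz']
    refine wie0 hU hL hT hH h5 hW c a b e n hn hpn hpu k hk h0 ?_
    intro P
    by_cases h2 : ((2 : ℕ) : 𝓞 C) ∈ P.asIdeal
    · refine ⟨0, ?_⟩
      have h2' : (2 : 𝓞 C) ∈ P.asIdeal := by exact_mod_cast h2
      have hn1 : P.valuation C ((n : ℤ) : C) = 1 := by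
        have := val_one P ((n : ℤ) : 𝓞 C) (int_notMem P.asIdeal P.isPrime 2 Nat.prime_two h2 n
          (by
            rw [Int.odd_iff] at hn
            intro h
            push_cast at h
            omega))
        simpa using this
      rw [hn1, mul_zero, WithZero.exp_zero, mul_one, ← hΛ]
      apply val_one
      intro h3
      -- modulo P the element is w (1 + w)
      obtain ⟨a', ha'⟩ := hc.1
      obtain ⟨b', hb'⟩ := hc.2.1
      obtain ⟨e', he'⟩ := hc.2.2.1
      have h4 : w * (1 - w) ∈ P.asIdeal := by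
        have h5 : w * (1 - w) = ((a : 𝓞 C) + b * w + e * w ^ 2) -
            (a' + b' * w + (e' + 1) * w ^ 2) * 2 := by
          rw [ha', hb', he']
          push_cast
          ring
        rw [h5]
        exact P.asIdeal.sub_mem h3 (P.asIdeal.mul_mem_left _ h2')
      rcases P.isPrime.mem_or_mem h4 with h6 | h6
      · apply one_notMem P.asIdeal P.isPrime
        rw [← hw.pow_eq_one]
        exact P.asIdeal.pow_mem_of_mem h6 p hpp.pos
      · have h7 := p_mem_of_one_sub_mem w hw P.asIdeal h6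
        have h8 := int_notMem P.asIdeal P.isPrime 2 Nat.prime_two h2 (p : ℤ) (by
          intro h
          have h9 : 2 ∣ p := by exact_mod_cast h
          exact hp2 ((Nat.prime_dvd_prime_iff_eq Nat.prime_two hpp).1 h9).symm)
        exact h8 (by exact_mod_cast h7)
    · obtain ⟨m, hm⟩ := hv P
      refine ⟨m, ?_⟩
      rw [hm, hrn]
      congr 1
      push_cast
      rw [map_mul, map_pow]
      have h3 : P.valuation C (2 : C) = 1 := by
        have h10 : (((2 : ℕ) : 𝓞 C) : C) = 2 := map_natCast (algebraMap (𝓞 C) C) 2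
        have := val_one P ((2 : ℕ) : 𝓞 C) h2
        rwa [h10] at this
      rw [h3, one_pow, one_mul]

end

end Pool.Agent.Y546.WQ
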