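import Pool.Agent.Y546.WQ.FldG

/-!
# Project WG: the norm polynomials are palindromic modulo `p`
-/

set_option autoImplicit false

namespace Pool.Agent.Y546.WQ

open NumberField IsDedekindDomain Polynomial

/-- a prime ideal above a prime number -/
theorem exists_above {K : Type} [Field K] [NumberField K] (q : ℕ) (hq : q.Prime) :
    ∃ M : Ideal (𝓞 K), M.IsPrime ∧ ((q : ℕ) : 𝓞 K) ∈ M := by
  have h1 : (Ideal.span {(q : ℤ)}).IsMaximal :=
    PrincipalIdealRing.isMaximal_of_irreducible (Nat.prime_iff_prime_int.1 hq).irreducible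
  obtain ⟨M, hM, hMl⟩ := Ideal.exists_maximal_ideal_liesOver_of_isIntegral (S := 𝓞 K)
    (Ideal.span {(q : ℤ)})
  refine ⟨M, hM.isPrime, ?_⟩
  have h2 : (q : ℤ) ∈ M.under ℤ := by
    rw [← hMl.over]
    exact Ideal.mem_span_singleton_self _
  rw [Ideal.under_def, Ideal.mem_comap] at h2
  simpa using h2

/-- a solution in the first case -/
structure Sol (p : ℕ) (K : Type) [Field K] [NumberField K] (X Y Z : 𝓞 K) : Prop where
  X0 : X ≠ 0
  Y0 : Y ≠ 0
  Z0 : Z ≠ 0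
  eq : X ^ p + Y ^ p + Z ^ p = 0
  cp : ∀ P : Ideal (𝓞 K), P.IsPrime → ((p : ℕ) : 𝓞 K) ∈ P → X ∉ P ∧ Y ∉ P ∧ Z ∉ P

theorem Sol.rot {p : ℕ} {K : Type} [Field K] [NumberField K] {X Y Z : 𝓞 K}
    (h : Sol p K X Y Z) : Sol p K Y Z X where
  X0 := h.Y0
  Y0 := h.Z0
  Z0 := h.X0
  eq := by rw [← h.eq]; ring
  cp := fun P hP hp => ⟨(h.cp P hP hp).2.1, (h.cp P hP hp).2.2, (h.cp P hP hp).1⟩

section

variable {p : ℕ} [Fact p.Prime] {E : Type} [Field E] [NumberField E]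
  {K N : Type} [Field K] [NumberField K] [Field N] [NumberField N]

/-- the Stickelberger relation for a value of an integer polynomial -/
theorem relG (hU : S_UNIT) (hp2 : p ≠ 2) (c : Cyc p E) (f : Polynomial ℤ) (n : ℤ)
    (hpn : ¬ (p : ℤ) ∣ n) (hp1 : ¬ (p : ℤ) ∣ f.eval 1) (h0 : aeval c.z f ≠ 0)
    (hv : ∀ P : HeightOneSpectrum (𝓞 E), ∃ m : ℤ, P.valuation E (aeval c.z f) =
      P.valuation E ((n : ℤ) : E) * WithZero.exp ((p : ℤ) * m)) :
    ∃ g : E, g ≠ 0 ∧ ∃ i : ℕ, th c (aeval c.z f / (n : E)) = c.z ^ i * g ^ p := by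
  have hpp : p.Prime := Fact.out
  have hn0 : (n : E) ≠ 0 := by
    intro h1
    have : n = 0 := by exact_mod_cast h1
    exact hpn (this ▸ dvd_zero _)
  obtain ⟨w, hwz, hw⟩ := exists_zint c
  have hΛ : algebraMap (𝓞 E) E (aeval w f) = aeval c.z f := by
    have hwz' : algebraMap (𝓞 E) E w = c.z := hwz
    rw [← hwz']
    exact (aeval_algebraMap_apply E w f).symm
  refine hU p hp2 E c (aeval c.z f / n) (div_ne_zero h0 hn0) ?_ ?_
  · intro P
    obtain ⟨m, hm⟩ := hv P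
    refine ⟨m, ?_⟩
    rw [map_div₀, hm, mul_comm, mul_div_assoc, div_self, mul_one]
    exact (Valuation.ne_zero_iff _).2 hn0
  · intro P hP
    rw [map_div₀, ← hΛ]
    have h1 : P.valuation E (((n : ℤ) : E)) = 1 := by
      have := val_one P ((n : ℤ) : 𝓞 E) (int_notMem P.asIdeal P.isPrime p hpp hP n hpn)
      simpa using this
    have h2 : P.valuation E (algebraMap (𝓞 E) E (aeval w f)) = 1 := by
      apply val_one
      intro h3
      apply int_notMem P.asIdeal P.isPrime p hpp hP (f.eval 1) hp1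
      have h4 : w - 1 ∣ aeval w f - ((f.eval 1 : ℤ) : 𝓞 E) := by
        have h5 := sub_dvd_eval_sub w 1 (f.map (algebraMap ℤ (𝓞 E)))
        rw [eval_map_algebraMap, eval_map_algebraMap] at h5
        have h6 : aeval (1 : 𝓞 E) f = ((f.eval 1 : ℤ) : 𝓞 E) := by
          have e2 := aeval_algebraMap_apply (𝓞 E) (1 : ℤ) f
          rw [map_one] at e2
          rw [e2]
          rfl
        rwa [h6] at h5
      obtain ⟨d, hd⟩ := h4
      have h7 : ((f.eval 1 : ℤ) : 𝓞 E) = aeval w f + d * (1 - w) := by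
        linear_combination -hd
      rw [h7]
      exact P.asIdeal.add_mem h3
        (P.asIdeal.mul_mem_left _ (one_sub_mem w hw.pow_eq_one P.asIdeal P.isPrime hP))
    rw [h1, h2, div_one]

/-- the norm of `X + Y` is prime to `p` -/
theorem Sol.sum_notMem {X Y Z : 𝓞 K} (hs : Sol p K X Y Z) (hpp : p.Prime) :
    ∀ P : Ideal (𝓞 K), P.IsPrime → ((p : ℕ) : 𝓞 K) ∈ P → X + Y ∉ P := by
  intro P hP hpP hXY
  have h1 := lin_p hpp P hP hpP hs.eq
  exact (hs.cp P hP hpP).2.2 ((Ideal.add_mem_iff_right P hXY).1 h1)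

/-- basic facts on the norm polynomial modulo `p` -/
theorem base (hN : S_NORM) (hcard : Nat.card (K →+* N) = Module.finrank ℚ K)
    {X Y Z : 𝓞 K} (hs : Sol p K X Y Z) (f : Polynomial ℤ)
    (hdeg : f.natDegree ≤ Module.finrank ℚ K) (hc0 : f.coeff 0 = Algebra.norm ℤ X)
    (hcm : f.coeff (Module.finrank ℚ K) = Algebra.norm ℤ Y)
    (hev : ∀ t : ℤ, f.eval t = Algebra.norm ℤ (X + (t : 𝓞 K) * Y)) :
    (f.map (Int.castRingHom (ZMod p))).natDegree ≤ Module.finrank ℚ K ∧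
    (f.map (Int.castRingHom (ZMod p))).coeff 0 ≠ 0 ∧
    (f.map (Int.castRingHom (ZMod p))).coeff (Module.finrank ℚ K) ≠ 0 ∧
    (f.map (Int.castRingHom (ZMod p))).eval 1 ≠ 0 ∧ ¬ (p : ℤ) ∣ f.eval 1 := by
  have hpp : p.Prime := Fact.out
  have h1 : ¬ (p : ℤ) ∣ f.eval 1 := by
    have h2 := hev 1
    rw [Int.cast_one, one_mul] at h2
    rw [h2]
    exact norm_coprime hcard hN p hpp _ (hs.sum_notMem hpp)
  have hz : ∀ k : ℤ, ¬ (p : ℤ) ∣ k → (Int.castRingHom (ZMod p)) k ≠ 0 := by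
    intro k hk h0
    exact hk ((ZMod.intCast_zmod_eq_zero_iff_dvd k p).1 h0)
  refine ⟨natDegree_map_le.trans hdeg, ?_, ?_, ?_, h1⟩
  · rw [coeff_map, hc0]
    exact hz _ (norm_coprime hcard hN p hpp _ fun P hP hpP => (hs.cp P hP hpP).1)
  · rw [coeff_map, hcm]
    exact hz _ (norm_coprime hcard hN p hpp _ fun P hP hpP => (hs.cp P hP hpP).2.1)
  · have e : (f.map (Int.castRingHom (ZMod p))).eval 1 = (Int.castRingHom (ZMod p)) (f.eval 1) := by
      rw [eval_map, ← map_one (Int.castRingHom (ZMod p)), eval₂_hom]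
    rw [e]
    exact hz _ h1

/-- all norm polynomials are palindromic modulo `p` -/
theorem palB (hU : S_UNIT) (hI : S_IDE) (hL : S_LAMG) (hB : S_POLB) (hN : S_NORM) (c : Cyc p E)
    (i : E →+* N) (hD : Dn p E N i) (hcard : Nat.card (K →+* N) = Module.finrank ℚ K)
    (hm : 2 * Module.finrank ℚ K + 3 ≤ p)
    (hS : ∀ j, Odd j → 3 ≤ j → j ≤ 2 * Module.finrank ℚ K + 1 → hsj p j ≠ 0)
    {X Y Z : 𝓞 K} (hs : Sol p K X Y Z) (f : Polynomial ℤ)
    (hdeg : f.natDegree ≤ Module.finrank ℚ K) (hc0 : f.coeff 0 = Algebra.norm ℤ X)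
    (hcm : f.coeff (Module.finrank ℚ K) = Algebra.norm ℤ Y)
    (hev : ∀ t : ℤ, f.eval t = Algebra.norm ℤ (X + (t : 𝓞 K) * Y))
    (hf : f.map (Int.castRingHom (𝓞 N)) = nrmP K N X Y) :
    (f.map (Int.castRingHom (ZMod p))).reflect (Module.finrank ℚ K) =
      f.map (Int.castRingHom (ZMod p)) := by
  have hp2 : p ≠ 2 := by
    intro h
    have := Module.finrank_pos (R := ℚ) (M := K)
    omega
  obtain ⟨b1, b2, b3, b4, b5⟩ := base hN hcard hs f hdeg hc0 hcm hev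
  obtain ⟨h1, h2, h3⟩ := fldG hI hp2 c i hD X Y Z hs.X0 hs.Y0 hs.Z0 hs.eq
    (fun P hP hpP => (hs.cp P hP hpP).2.2) f hf
  obtain ⟨g, hg, k, hk⟩ := relG hU hp2 c f (f.eval 1) b5 b5 h1 h3
  obtain ⟨r, hr, hdv⟩ := hL p hp2 E c f (f.eval 1) b5 b5 g hg k hk
  exact hB p _ k _ r hm b1 b2 b3 b4 hr hdv hS

/-- with the exponent known from a prime above two -/
theorem palA (hU : S_UNIT) (hI : S_IDE) (hL : S_LAMG) (hT : S_TWOG) (hH : S_HAR) (hA : S_POLA)
    (hN : S_NORM) (hL2 : S_LOC2) (hC : S_COP) (c : Cyc p E)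
    (i : E →+* N) (hD : Dn p E N i) (hcard : Nat.card (K →+* N) = Module.finrank ℚ K)
    (hm : 2 * Module.finrank ℚ K + 3 ≤ p) (hW : ¬ p ^ 2 ∣ 2 ^ (p - 1) - 1)
    (hS : ∀ j, Odd j → 3 ≤ j → j < 2 * Module.finrank ℚ K → hsj p j ≠ 0)
    (hK2 : ∀ P : Ideal (𝓞 K), P.IsPrime → (2 : 𝓞 K) ∈ P → Nat.card (𝓞 K ⧸ P) = 2)
    (Q : Ideal (𝓞 N)) (hQ : Q.IsPrime) (hQ2 : (2 : 𝓞 N) ∈ Q)
    {X Y Z : 𝓞 K} (hs : Sol p K X Y Z)
    (hP2 : ∀ P : Ideal (𝓞 K), P.IsPrime → (2 : 𝓞 K) ∈ P →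
      X + Y + Z ∈ P ∧ ¬ (X ∈ P ∧ Y ∈ P ∧ Z ∈ P)) :
    Nat.card {τ : K →+* N // RingOfIntegers.mapRingHom τ X ∈ Q} =
      Nat.card {τ : K →+* N // RingOfIntegers.mapRingHom τ Y ∈ Q} ∧
    Nat.card {τ : K →+* N // RingOfIntegers.mapRingHom τ X ∈ Q} +
      Nat.card {τ : K →+* N // RingOfIntegers.mapRingHom τ Y ∈ Q} +
      Nat.card {τ : K →+* N // RingOfIntegers.mapRingHom τ Z ∈ Q} = Module.finrank ℚ K := by
  have hpp : p.Prime := Fact.out
  have hp2 : p ≠ 2 := by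
    intro h
    have := Module.finrank_pos (R := ℚ) (M := K)
    omega
  obtain ⟨f, hdeg, hc0, hcm, hev, hf⟩ := hN K X Y
  have hf := hf N hcard
  obtain ⟨b1, b2, b3, b4, b5⟩ := base hN hcard hs f hdeg hc0 hcm hev
  obtain ⟨h1, h2, h3⟩ := fldG hI hp2 c i hD X Y Z hs.X0 hs.Y0 hs.Z0 hs.eq
    (fun P hP hpP => (hs.cp P hP hpP).2.2) f hf
  obtain ⟨q1, q2⟩ := hL2 K N hcard hK2 Q hQ hQ2 X Y Z hP2 _ _ _ rfl rfl rfl
  have q3 := q2 f hdeg hf
  have q4 := hC p hp2 E c K N i hcard hK2 X Y Z hP2 f hf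
  set a := Nat.card {τ : K →+* N // RingOfIntegers.mapRingHom τ X ∈ Q}
  set b := Nat.card {τ : K →+* N // RingOfIntegers.mapRingHom τ Y ∈ Q}
  set d := Nat.card {τ : K →+* N // RingOfIntegers.mapRingHom τ Z ∈ Q}
  obtain ⟨s, n, hn, hsn⟩ := exists_odd_part (f.eval 1) h2
  have hpn : ¬ (p : ℤ) ∣ n := fun h => b5 (hsn ▸ dvd_mul_of_dvd_right h _)
  obtain ⟨w, hwz, hw⟩ := exists_zint c
  have hΛ : algebraMap (𝓞 E) E (aeval w f) = aeval c.z f := by
    have hwz' : algebraMap (𝓞 E) E w = c.z := hwz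
    rw [← hwz']
    exact (aeval_algebraMap_apply E w f).symm
  obtain ⟨g, hg, k, hk⟩ := relG hU hp2 c f n hpn b5 h1 (by
    intro P
    by_cases h2P : ((2 : ℕ) : 𝓞 E) ∈ P.asIdeal
    · refine ⟨0, ?_⟩
      have h2' : (2 : 𝓞 E) ∈ P.asIdeal := by exact_mod_cast h2P
      have hn1 : P.valuation E ((n : ℤ) : E) = 1 := by
        have := val_one P ((n : ℤ) : 𝓞 E) (int_notMem P.asIdeal P.isPrime 2 Nat.prime_two h2P n
          (by
            rw [Int.odd_iff] at hn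
            intro h
            push_cast at h
            omega))
        simpa using this
      rw [hn1, mul_zero, WithZero.exp_zero, mul_one, ← hΛ]
      exact val_one P _ (q4 P.asIdeal P.isPrime h2' _ hΛ)
    · obtain ⟨m, hm⟩ := h3 P
      refine ⟨m, ?_⟩
      rw [hm, hsn]
      congr 1
      push_cast
      rw [map_mul, map_pow]
      have h3 : P.valuation E (2 : E) = 1 := by
        have h10 : (((2 : ℕ) : 𝓞 E) : E) = 2 := map_natCast (algebraMap (𝓞 E) E) 2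
        have := val_one P ((2 : ℕ) : 𝓞 E) h2P
        rwa [h10] at this
      rw [h3, one_pow, one_mul])
  obtain ⟨r, hr, hdv⟩ := hL p hp2 E c f n hpn b5 g hg k hk
  have q5 := (hT p hp2 E c f n hn (Module.finrank ℚ K) a b hdeg q3
    (fun P hP h2P w hw => q4 P hP h2P w hw) g hg k hk).resolve_right hW
  have hab : b ≤ Module.finrank ℚ K + a := by omega
  obtain ⟨q6, -⟩ := hA p (Module.finrank ℚ K) (Module.finrank ℚ K + a - b) k _ r hm (by omega)
    b1 b2 b3 b4 hr hdv (by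
      rw [q5, Nat.cast_sub hab]
      push_cast
      ring) (by
      intro j hj hjm
      by_cases h3j : 3 ≤ j
      · exact hS j hj h3j hjm
      · have hj1 : j = 1 := by
          rcases hj with ⟨u, rfl⟩
          omega
        subst hj1
        intro h0
        apply hW
        apply hH p hp2
        unfold hsj at h0
        unfold Pool.Agent.Y546.WQ.hs
        simpa only [pow_one] using h0)
  refine ⟨by omega, q1⟩

end

end Pool.Agent.Y546.WQ
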