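import Pool.Agent.Y546.WQ.Scl
import Pool.Agent.Y546.WQ.Wie

/-!
# Project WQ: preparation of a solution
-/

set_option autoImplicit false

namespace Pool.Agent.Y546.WQ

open NumberField IsDedekindDomain

/-- scaling a solution in the first case -/
theorem prep {K : Type} [Field K] [NumberField K] {p : ℕ} (hp : p.Prime) {x y z : K}
    (hx : x ≠ 0) (hy : y ≠ 0) (hz : z ≠ 0) (h : x ^ p + y ^ p + z ^ p = 0)
    (hv : ∀ v : HeightOneSpectrum (𝓞 K), ((p : ℕ) : 𝓞 K) ∈ v.asIdeal →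
      v.valuation K x = v.valuation K y ∧ v.valuation K y = v.valuation K z) :
    ∃ X Y Z : 𝓞 K, X ≠ 0 ∧ Y ≠ 0 ∧ Z ≠ 0 ∧ X ^ p + Y ^ p + Z ^ p = 0 ∧
      (∀ P : Ideal (𝓞 K), P.IsPrime → ((p : ℕ) : 𝓞 K) ∈ P → X ∉ P ∧ Y ∉ P ∧ Z ∉ P) ∧
      (∀ P : Ideal (𝓞 K), P.IsPrime → (2 : 𝓞 K) ∈ P → ¬ (X ∈ P ∧ Y ∈ P ∧ Z ∈ P)) := by
  have hp0 : p ≠ 0 := hp.ne_zero
  obtain ⟨T, hT⟩ := finite_primes (K := K) (2 * p) (by positivity)
  obtain ⟨a, X, Y, Z, hXa, hYa, hZa, hn⟩ := scaleT (y := y) (z := z) hx T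
  have hne : ∀ (P : Ideal (𝓞 K)), P.IsPrime → ((2 * p : ℕ) : 𝓞 K) ∈ P →
      ∃ h0 : P ≠ ⊥, ∀ hP : P.IsPrime, (⟨P, hP, h0⟩ : HeightOneSpectrum (𝓞 K)) ∈ T := by
    intro P hP hm
    have h0 : P ≠ ⊥ := by
      rintro rfl
      rw [Ideal.mem_bot] at hm
      have : (2 * p : ℕ) = 0 := by exact_mod_cast hm
      omega
    exact ⟨h0, fun hP' => hT _ hm⟩
  -- there is a prime above p
  obtain ⟨M, hM, hMp⟩ : ∃ M : Ideal (𝓞 K), M.IsPrime ∧ ((p : ℕ) : 𝓞 K) ∈ M := by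
    have h1 : (Ideal.span {(p : ℤ)}).IsMaximal :=
      PrincipalIdealRing.isMaximal_of_irreducible (Nat.prime_iff_prime_int.1 hp).irreducible
    obtain ⟨M, hM, hMl⟩ := Ideal.exists_maximal_ideal_liesOver_of_isIntegral (S := 𝓞 K)
      (Ideal.span {(p : ℤ)})
    refine ⟨M, hM.isPrime, ?_⟩
    have h2 : (p : ℤ) ∈ M.under ℤ := by
      rw [← hMl.over]
      exact Ideal.mem_span_singleton_self _
    rw [Ideal.under_def, Ideal.mem_comap] at h2
    simpa using h2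
  have hmem2p : ∀ P : Ideal (𝓞 K), ((p : ℕ) : 𝓞 K) ∈ P → ((2 * p : ℕ) : 𝓞 K) ∈ P := by
    intro P hP
    rw [Nat.cast_mul]
    exact P.mul_mem_left _ hP
  have ha : a ≠ 0 := by
    rintro rfl
    rw [zero_mul] at hXa hYa hZa
    have h1 : X = 0 := RingOfIntegers.coe_injective (by rw [map_zero]; exact hXa)
    have h2 : Y = 0 := RingOfIntegers.coe_injective (by rw [map_zero]; exact hYa)
    have h3 : Z = 0 := RingOfIntegers.coe_injective (by rw [map_zero]; exact hZa)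
    obtain ⟨h0, h4⟩ := hne M hM (hmem2p M hMp)
    apply hn _ (h4 hM)
    rw [h1, h2, h3]
    exact ⟨zero_mem _, zero_mem _, zero_mem _⟩
  have hX0 : X ≠ 0 := by
    rintro rfl
    rw [map_zero] at hXa
    exact mul_ne_zero ha hx hXa.symm
  have hY0 : Y ≠ 0 := by
    rintro rfl
    rw [map_zero] at hYa
    exact mul_ne_zero ha hy hYa.symm
  have hZ0 : Z ≠ 0 := by
    rintro rfl
    rw [map_zero] at hZa
    exact mul_ne_zero ha hz hZa.symm
  have hXYZ : X ^ p + Y ^ p + Z ^ p = 0 := by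
    apply RingOfIntegers.coe_injective
    rw [map_zero, map_add, map_add, map_pow, map_pow, map_pow]
    have e : a ^ p * (x ^ p + y ^ p + z ^ p) = 0 := by rw [h, mul_zero]
    rw [hXa, hYa, hZa, mul_pow, mul_pow, mul_pow]
    linear_combination e
  refine ⟨X, Y, Z, hX0, hY0, hZ0, hXYZ, ?_, ?_⟩
  · intro P hP hpP
    obtain ⟨h0, h4⟩ := hne P hP (hmem2p P hpP)
    have h5 := hn _ (h4 hP)
    obtain ⟨h1, h2⟩ := hv ⟨P, hP, h0⟩ hpP
    have e : ∀ (w : K) (W : 𝓞 K), algebraMap (𝓞 K) K W = a * w →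
        (W ∈ P ↔ (⟨P, hP, h0⟩ : HeightOneSpectrum (𝓞 K)).valuation K a *
          (⟨P, hP, h0⟩ : HeightOneSpectrum (𝓞 K)).valuation K w < 1) := by
      intro w W hW
      rw [← map_mul, ← hW]
      exact ((⟨P, hP, h0⟩ : HeightOneSpectrum (𝓞 K)).valuation_lt_one_iff_mem (K := K) W).symm
    have e1 : X ∈ P ↔ Y ∈ P := by rw [e x X hXa, e y Y hYa, h1]
    have e2 : Y ∈ P ↔ Z ∈ P := by rw [e y Y hYa, e z Z hZa, h2]
    change ¬ (X ∈ P ∧ Y ∈ P ∧ Z ∈ P) at h5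
    tauto
  · intro P hP h2P
    have h3 : ((2 * p : ℕ) : 𝓞 K) ∈ P := by
      rw [Nat.cast_mul]
      apply P.mul_mem_right
      exact_mod_cast h2P
    obtain ⟨h0, h4⟩ := hne P hP h3
    exact hn _ (h4 hP)

/-- the linear relation modulo a prime above `p` -/
theorem lin_p {R : Type*} [CommRing R] {p : ℕ} (hp : p.Prime) (P : Ideal R) (hP : P.IsPrime)
    (hpP : ((p : ℕ) : R) ∈ P) {x y z : R} (h : x ^ p + y ^ p + z ^ p = 0) : x + y + z ∈ P := by
  have : Fact p.Prime := ⟨hp⟩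
  have := charP_quot P hP p hp hpP
  have h1 : (Ideal.Quotient.mk P (x + y + z)) ^ p = 0 := by
    rw [map_add, map_add, add_pow_char, add_pow_char, ← map_pow, ← map_pow, ← map_pow, ← map_add,
      ← map_add, h, map_zero]
  exact Ideal.Quotient.eq_zero_iff_mem.1 ((pow_eq_zero_iff hp.ne_zero).1 h1)

/-- the linear relation modulo a prime above two of degree at most two -/
theorem lin_2 {R : Type*} [CommRing R] {p : ℕ} (hp : p.Prime) (h5 : 5 ≤ p) (P : Ideal R)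
    (hP : P.IsPrime) (h2P : (2 : R) ∈ P) (h4 : ∀ w : R, w ^ 4 - w ∈ P)
    {x y z : R} (h : x ^ p + y ^ p + z ^ p = 0) : x + y + z ∈ P := by
  have hf : Fact (Nat.Prime 2) := ⟨Nat.prime_two⟩
  have := charP_quot P hP 2 Nat.prime_two (by exact_mod_cast h2P)
  have key : ∀ (w : R) (k : ℕ), (Ideal.Quotient.mk P w) ^ (3 * k + 1) = Ideal.Quotient.mk P w := by
    intro w k
    have e : (Ideal.Quotient.mk P w) ^ 4 = Ideal.Quotient.mk P w := by
      rw [← map_pow]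
      exact Ideal.Quotient.eq.2 (h4 w)
    induction k with
    | zero => simp
    | succ k ih =>
      rw [show 3 * (k + 1) + 1 = (3 * k + 1) + 3 by ring, pow_add, ih]
      calc (Ideal.Quotient.mk P w) * (Ideal.Quotient.mk P w) ^ 3 = (Ideal.Quotient.mk P w) ^ 4 := by
            ring
        _ = _ := e
  have h' : (Ideal.Quotient.mk P x) ^ p + (Ideal.Quotient.mk P y) ^ p +
      (Ideal.Quotient.mk P z) ^ p = 0 := by
    rw [← map_pow, ← map_pow, ← map_pow, ← map_add, ← map_add, h, map_zero]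
  have h3 : p % 3 = 1 ∨ p % 3 = 2 := by
    have : ¬ 3 ∣ p := by
      intro hd
      have := (Nat.prime_dvd_prime_iff_eq Nat.prime_three hp).1 hd
      omega
    omega
  rw [← Ideal.Quotient.eq_zero_iff_mem]
  rcases h3 with h3 | h3
  · obtain ⟨k, hk⟩ : ∃ k, p = 3 * k + 1 := ⟨p / 3, by omega⟩
    rw [hk, key, key, key] at h'
    rw [map_add, map_add, h']
  · obtain ⟨k, hk⟩ : ∃ k, p = 3 * k + 1 + 1 := ⟨p / 3, by omega⟩
    have h6 : (Ideal.Quotient.mk P (x + y + z)) ^ 2 = 0 := by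
      rw [map_add, map_add, add_pow_char, add_pow_char]
      rw [hk, pow_succ, pow_succ (Ideal.Quotient.mk P y), pow_succ (Ideal.Quotient.mk P z), key,
        key, key] at h'
      rw [pow_two, pow_two, pow_two]
      exact h'
    exact (pow_eq_zero_iff two_ne_zero).1 h6

end Pool.Agent.Y546.WQ
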