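import Pool.Agent.Y546.WQ.Stm2
import Pool.Agent.Y546.WQ.Prep

/-!
# Project WG: the norm of `x + z y` in the cyclotomic field, arbitrary degree
-/

set_option autoImplicit false

namespace Pool.Agent.Y546.WQ

open NumberField IsDedekindDomain Polynomial

/-- the property of the field `N` given by S_DOWNG -/
def Dn (p : ℕ) (E N : Type) [Field E] [NumberField E] [Field N] [NumberField N]
    (i : E →+* N) : Prop :=
  ∀ u v : E, u ≠ 0 → v ≠ 0 → ∀ (U V : 𝓞 N), (U : N) = i u → (V : N) = i v →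
    ∀ A B : Ideal (𝓞 N), A ≠ ⊥ → B ≠ ⊥ → Ideal.span {U} * B ^ p = Ideal.span {V} * A ^ p →
    ∀ P : HeightOneSpectrum (𝓞 E), ∃ m : ℤ,
      P.valuation E u = P.valuation E v * WithZero.exp ((p : ℤ) * m)

theorem eval_nrmP {K N : Type} [Field K] [NumberField K] [Field N] [NumberField N]
    (x y : 𝓞 K) (t : 𝓞 N) : (nrmP K N x y).eval t =
      ∏ τ : K →+* N, (RingOfIntegers.mapRingHom τ x + t * RingOfIntegers.mapRingHom τ y) := by
  unfold nrmP
  rw [eval_prod]
  refine Finset.prod_congr rfl fun τ _ => ?_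
  rw [eval_add, eval_mul, eval_C, eval_C, eval_X]

theorem eval_f {K N : Type} [Field K] [NumberField K] [Field N] [NumberField N]
    {x y : 𝓞 K} {f : Polynomial ℤ} (hf : f.map (Int.castRingHom (𝓞 N)) = nrmP K N x y)
    (t : 𝓞 N) : aeval t f =
      ∏ τ : K →+* N, (RingOfIntegers.mapRingHom τ x + t * RingOfIntegers.mapRingHom τ y) := by
  rw [← eval_nrmP, ← hf, eval_map, aeval_def]
  congr 1

theorem mapRingHom_inj {K N : Type} [Field K] [NumberField K] [Field N] [NumberField N]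
    (τ : K →+* N) : Function.Injective (RingOfIntegers.mapRingHom τ) := by
  intro x y hxy
  apply RingOfIntegers.coe_injective
  apply τ.injective
  have := congrArg (fun w : 𝓞 N => (w : N)) hxy
  simpa [RingOfIntegers.mapRingHom_apply] using this

section

variable {p : ℕ} [Fact p.Prime] {E : Type} [Field E] [NumberField E]
  {K N : Type} [Field K] [NumberField K] [Field N] [NumberField N]

theorem fldG (hI : S_IDE) (hp2 : p ≠ 2) (c : Cyc p E) (i : E →+* N)
    (hD : Dn p E N i) (X Y Z : 𝓞 K) (hX : X ≠ 0) (hY : Y ≠ 0) (hZ : Z ≠ 0)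
    (h : X ^ p + Y ^ p + Z ^ p = 0)
    (hcase : ∀ P : Ideal (𝓞 K), P.IsPrime → ((p : ℕ) : 𝓞 K) ∈ P → Z ∉ P)
    (f : Polynomial ℤ) (hf : f.map (Int.castRingHom (𝓞 N)) = nrmP K N X Y) :
    aeval c.z f ≠ 0 ∧ f.eval 1 ≠ 0 ∧
    ∀ P : HeightOneSpectrum (𝓞 E), ∃ m : ℤ, P.valuation E (aeval c.z f) =
      P.valuation E ((f.eval 1 : ℤ) : E) * WithZero.exp ((p : ℤ) * m) := by
  classical
  have hpp : p.Prime := Fact.out
  have hodd : Odd p := hpp.odd_of_ne_two hp2
  -- the root of unity in the integers of N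
  have hzint : IsIntegral ℤ (i c.z) := by
    have h1 : (i c.z) ^ p = 1 := by rw [← map_pow, c.prim.pow_eq_one, map_one]
    exact ⟨Polynomial.X ^ p - 1, Polynomial.monic_X_pow_sub_C 1 hpp.ne_zero, by simp [h1]⟩
  obtain ⟨zN, hzN⟩ : ∃ w : 𝓞 N, (w : N) = i c.z := ⟨⟨i c.z, hzint⟩, rfl⟩
  have hzprim : IsPrimitiveRoot zN p := by
    apply IsPrimitiveRoot.of_map_of_injective (f := algebraMap (𝓞 N) N) _
      RingOfIntegers.coe_injective
    have h1 : algebraMap (𝓞 N) N zN = i c.z := hzN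
    rw [h1]
    exact c.prim.map_of_injective i.injective
  have key : ∀ τ : K →+* N,
      (RingOfIntegers.mapRingHom τ X + RingOfIntegers.mapRingHom τ Y ≠ 0 ∧
        RingOfIntegers.mapRingHom τ X + zN * RingOfIntegers.mapRingHom τ Y ≠ 0) ∧
      ∃ I J : Ideal (𝓞 N), I ≠ ⊥ ∧ J ≠ ⊥ ∧
        Ideal.span {RingOfIntegers.mapRingHom τ X + zN * RingOfIntegers.mapRingHom τ Y} * J ^ p =
          Ideal.span {RingOfIntegers.mapRingHom τ X + RingOfIntegers.mapRingHom τ Y} * I ^ p := by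
    intro τ
    have finj := mapRingHom_inj τ
    generalize RingOfIntegers.mapRingHom τ = φ at finj
    have habd : φ X ^ p + φ Y ^ p + φ Z ^ p = 0 := by
      rw [← map_pow, ← map_pow, ← map_pow, ← map_add, ← map_add, h, map_zero]
    obtain ⟨I, J, hI0, hJ0, hIJ⟩ := hI p hp2 (𝓞 N) zN hzprim (φ X) (φ Y) (φ Z)
      (fun h0 => hX (finj (by rw [h0, map_zero]))) (fun h0 => hY (finj (by rw [h0, map_zero])))
      (fun h0 => hZ (finj (by rw [h0, map_zero]))) habd
      (fun P hP hpP hDP => hcase (P.comap φ) (hP.comap φ)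
        (by rw [Ideal.mem_comap, map_natCast]; exact hpP) (by rw [Ideal.mem_comap]; exact hDP))
    have h1 : φ X + φ Y ≠ 0 := by
      intro h0
      have h2 : φ X = -φ Y := eq_neg_of_add_eq_zero_left h0
      have h3 : φ Z ^ p = 0 := by
        rw [h2, hodd.neg_pow, neg_add_cancel, zero_add] at habd
        exact habd
      have h5 := (pow_eq_zero_iff hpp.ne_zero).1 h3
      exact hZ (finj (by rw [h5, map_zero]))
    refine ⟨⟨h1, ?_⟩, I, J, hI0, hJ0, hIJ⟩
    intro h0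
    rw [h0, Ideal.span_singleton_eq_bot.2 rfl, Ideal.bot_mul] at hIJ
    have h2 := hIJ.symm
    rw [Ideal.mul_eq_bot, Ideal.span_singleton_eq_bot] at h2
    rcases h2 with h2 | h2
    · exact h1 h2
    · exact hI0 ((pow_eq_zero_iff hpp.ne_zero).1 h2)
  choose h1 I J hI0 hJ0 hIJ using key
  have eU : ((∏ τ : K →+* N, (RingOfIntegers.mapRingHom τ X +
      zN * RingOfIntegers.mapRingHom τ Y) : 𝓞 N) : N) = i (aeval c.z f) := by
    rw [← eval_f hf zN]
    have e1 : algebraMap (𝓞 N) N (aeval zN f) = aeval (algebraMap (𝓞 N) N zN) f :=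
      (aeval_algebraMap_apply N zN f).symm
    have e2 : algebraMap (𝓞 N) N zN = i c.z := hzN
    rw [e2] at e1
    refine e1.trans ?_
    rw [aeval_def, aeval_def, hom_eval₂]
    congr 1
    exact RingHom.ext_int _ _
  have eV : ((∏ τ : K →+* N, (RingOfIntegers.mapRingHom τ X +
      RingOfIntegers.mapRingHom τ Y) : 𝓞 N) : N) = i ((f.eval 1 : ℤ) : E) := by
    have e0 : (∏ τ : K →+* N, (RingOfIntegers.mapRingHom τ X + RingOfIntegers.mapRingHom τ Y)) =
        ((f.eval 1 : ℤ) : 𝓞 N) := by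
      have e1 := eval_f hf (1 : 𝓞 N)
      simp only [one_mul] at e1
      rw [← e1]
      have e2 := aeval_algebraMap_apply (𝓞 N) (1 : ℤ) f
      rw [map_one] at e2
      rw [e2]
      rfl
    rw [e0, map_intCast]
    exact map_intCast (algebraMap (𝓞 N) N) _
  have hU0 : (∏ τ : K →+* N, (RingOfIntegers.mapRingHom τ X +
      zN * RingOfIntegers.mapRingHom τ Y)) ≠ 0 := Finset.prod_ne_zero_iff.2 fun τ _ => (h1 τ).2
  have hV0 : (∏ τ : K →+* N, (RingOfIntegers.mapRingHom τ X +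
      RingOfIntegers.mapRingHom τ Y)) ≠ 0 := Finset.prod_ne_zero_iff.2 fun τ _ => (h1 τ).1
  have hu0 : aeval c.z f ≠ 0 := by
    intro h0
    rw [h0, map_zero] at eU
    exact hU0 (RingOfIntegers.coe_injective (by rw [map_zero]; exact eU))
  have hv0 : ((f.eval 1 : ℤ) : E) ≠ 0 := by
    intro h0
    rw [h0, map_zero] at eV
    exact hV0 (RingOfIntegers.coe_injective (by rw [map_zero]; exact eV))
  refine ⟨hu0, fun h0 => hv0 (by rw [h0, Int.cast_zero]), ?_⟩
  apply hD _ _ hu0 hv0 _ _ eU eV (∏ τ : K →+* N, I τ) (∏ τ : K →+* N, J τ)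
  · rw [← Ideal.zero_eq_bot]
    exact Finset.prod_ne_zero_iff.2 fun τ _ => hI0 τ
  · rw [← Ideal.zero_eq_bot]
    exact Finset.prod_ne_zero_iff.2 fun τ _ => hJ0 τ
  · rw [← Ideal.prod_span_singleton, ← Ideal.prod_span_singleton, ← Finset.prod_pow,
      ← Finset.prod_pow, ← Finset.prod_mul_distrib, ← Finset.prod_mul_distrib]
    exact Finset.prod_congr rfl fun τ _ => hIJ τ

/-- a norm is prime to `p` if the element is -/
theorem norm_coprime (hcard : Nat.card (K →+* N) = Module.finrank ℚ K) (hN : S_NORM) (q : ℕ)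
    (hq : q.Prime) (w : 𝓞 K)
    (hw : ∀ P : Ideal (𝓞 K), P.IsPrime → ((q : ℕ) : 𝓞 K) ∈ P → w ∉ P) :
    ¬ (q : ℤ) ∣ Algebra.norm ℤ w := by
  obtain ⟨f, -, h0, -, -, hf⟩ := hN K w 0
  have hf := hf N hcard
  obtain ⟨Q, hQ, hQq⟩ : ∃ M : Ideal (𝓞 N), M.IsPrime ∧ ((q : ℕ) : 𝓞 N) ∈ M := by
    have h1 : (Ideal.span {(q : ℤ)}).IsMaximal :=
      PrincipalIdealRing.isMaximal_of_irreducible (Nat.prime_iff_prime_int.1 hq).irreducible
    obtain ⟨M, hM, hMl⟩ := Ideal.exists_maximal_ideal_liesOver_of_isIntegral (S := 𝓞 N)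
      (Ideal.span {(q : ℤ)})
    refine ⟨M, hM.isPrime, ?_⟩
    have h2 : (q : ℤ) ∈ M.under ℤ := by
      rw [← hMl.over]
      exact Ideal.mem_span_singleton_self _
    rw [Ideal.under_def, Ideal.mem_comap] at h2
    simpa using h2
  rintro ⟨d, hd⟩
  have e1 := eval_f hf (0 : 𝓞 N)
  simp only [zero_mul, add_zero] at e1
  have e2 : aeval (0 : 𝓞 N) f = ((f.coeff 0 : ℤ) : 𝓞 N) := by
    rw [aeval_def, eval₂_at_zero]
    rfl
  rw [e2, h0, hd] at e1
  have e3 : (∏ τ : K →+* N, RingOfIntegers.mapRingHom τ w) ∈ Q := by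
    rw [← e1, Int.cast_mul, Int.cast_natCast]
    exact Q.mul_mem_right _ hQq
  obtain ⟨τ, -, hτ⟩ := hQ.prod_mem_iff.1 e3
  exact hw (Q.comap (RingOfIntegers.mapRingHom τ)) (hQ.comap _)
    (by rw [Ideal.mem_comap, map_natCast]; exact hQq) (by rw [Ideal.mem_comap]; exact hτ)

end

end Pool.Agent.Y546.WQ
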