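import Mathlib

/-!
# Project WQ: the Wieferich criterion over quadratic fields, statements

`p` is an odd prime, `C` the `p`-th cyclotomic field.
-/

set_option autoImplicit false

namespace Pool.Agent.Y546.WQ

open NumberField IsDedekindDomain

/-- the facts about the `p`-th cyclotomic field that are used -/
structure Cyc (p : ℕ) (C : Type) [Field C] [NumberField C] where
  z : C
  prim : IsPrimitiveRoot z p
  σ : (ZMod p)ˣ →* (C ≃ₐ[ℚ] C)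
  σ_z : ∀ t, σ t z = z ^ (t : ZMod p).val
  all : ∀ τ : C ≃ₐ[ℚ] C, ∃ t, σ t = τ
  gen : ∀ x : C, IsIntegral ℤ x → ∃ f : Polynomial ℤ, x = Polynomial.aeval z f
  tors : ∀ u : C, IsOfFinOrder u → ∃ i : ℕ, u = z ^ i ∨ u = -z ^ i
  rank : Module.finrank ℚ C = p - 1
  unram : ∀ (P : HeightOneSpectrum (𝓞 C)) (q : ℕ), q.Prime → q ≠ p →
    ((q : ℕ) : 𝓞 C) ∈ P.asIdeal → ((q : ℕ) : 𝓞 C) ∉ P.asIdeal ^ 2
  lam : ∀ m : ℤ, (∃ y : C, IsIntegral ℤ y ∧ (m : C) = (1 - z) * y) → (p : ℤ) ∣ m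

/-- the units of `ZMod p` represented by numbers between `p / 2` and `p` -/
def half (p : ℕ) [Fact p.Prime] : Finset (ZMod p)ˣ :=
  Finset.univ.filter fun t => p < 2 * (t : ZMod p).val

section

variable {p : ℕ} [Fact p.Prime] {C : Type} [Field C] [NumberField C]

/-- the ring isomorphism of the integers induced by `σ t` -/
noncomputable def rs (c : Cyc p C) (t : (ZMod p)ˣ) : 𝓞 C ≃+* 𝓞 C :=
  RingOfIntegers.mapRingEquiv (c.σ t).toRingEquiv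

/-- the preimage of a prime ideal under `σ t` -/
noncomputable def act (c : Cyc p C) (t : (ZMod p)ˣ) (P : HeightOneSpectrum (𝓞 C)) :
    HeightOneSpectrum (𝓞 C) where
  asIdeal := P.asIdeal.comap (rs c t : 𝓞 C →+* 𝓞 C)
  isPrime := P.isPrime.comap _
  ne_bot := by
    intro h
    apply P.ne_bot
    rw [eq_bot_iff]
    intro x hx
    have h1 : (rs c t).symm x ∈ P.asIdeal.comap (rs c t : 𝓞 C →+* 𝓞 C) := by
      rw [Ideal.mem_comap]
      simpa using hx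
    rw [h, Ideal.mem_bot] at h1
    rw [Ideal.mem_bot]
    simpa using congrArg (rs c t) h1

/-- the Stickelberger power: the product of `σ (t⁻¹) x` over `p / 2 < t < p` -/
noncomputable def th (c : Cyc p C) (x : C) : C := ∏ t ∈ half p, c.σ t⁻¹ x

/-- the sum of the inverses of the numbers between `p / 2` and `p` modulo `p` -/
noncomputable def hs (p : ℕ) [Fact p.Prime] : ZMod p := ∑ t ∈ half p, ((t⁻¹ : (ZMod p)ˣ) : ZMod p)

end

/-- CYC: the cyclotomic field -/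
def S_CYC : Prop := ∀ (p : ℕ) [Fact p.Prime], p ≠ 2 → ∃ (C : Type) (_ : Field C) (_ : NumberField C),
  Nonempty (Cyc p C)

/-- JN: the norm of the Jacobi sums of a character of order `p` of a finite field of
characteristic `q`, in an algebraic closure of the `q`-adic numbers -/
def S_JN : Prop := ∀ (q : ℕ) [Fact q.Prime] (E : Type) [Field E] [Fintype E] [DecidableEq E]
  [CharP E q] (p F : ℕ), p.Prime → p ≠ 2 → Fintype.card E = q ^ F → p ∣ Fintype.card E - 1 →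
  0 < F → ∃ T : MulChar E (PadicAlgCl q), orderOf T = p ∧ ∀ b : ℕ, 0 < b → b < p →
    ‖jacobiSum (T ^ b) (T ^ b)‖ = ‖((q : ℕ) : PadicAlgCl q)‖ ^
      ((Finset.range F).filter fun s => p < 2 * ((b * q ^ s) % p)).card

/-- BR: a `q`-adic embedding defines a prime ideal, and its norm is the valuation -/
def S_BR : Prop := ∀ (p : ℕ) [Fact p.Prime] (C : Type) [Field C] [NumberField C] (c : Cyc p C)
  (q : ℕ) [Fact q.Prime], q ≠ p → ∀ τ : C →+* PadicAlgCl q, ∃ P : HeightOneSpectrum (𝓞 C),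
    ((q : ℕ) : 𝓞 C) ∈ P.asIdeal ∧ (∀ x : 𝓞 C, x ∈ P.asIdeal ↔ ‖τ x‖ < 1) ∧
    ∀ (x : C) (k : ℤ), P.valuation C x = WithZero.exp (-k) →
      ‖τ x‖ = ‖((q : ℕ) : PadicAlgCl q)‖ ^ k

/-- STAB: decomposition groups and residue degrees -/
def S_STAB : Prop := ∀ (p : ℕ) [Fact p.Prime] (C : Type) [Field C] [NumberField C] (c : Cyc p C)
  (P : HeightOneSpectrum (𝓞 C)) (q : ℕ), q.Prime → ((q : ℕ) : 𝓞 C) ∈ P.asIdeal →
  ∀ g : (ZMod p)ˣ, (g : ZMod p) = q →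
    (∀ t : (ZMod p)ˣ, act c t P = P ↔ t ∈ Subgroup.zpowers g) ∧
    Nat.card (𝓞 C ⧸ P.asIdeal) = q ^ orderOf g ∧
    ∀ P' : HeightOneSpectrum (𝓞 C), ((q : ℕ) : 𝓞 C) ∈ P'.asIdeal → ∃ t : (ZMod p)ˣ, act c t P = P'

open Classical in
/-- JAC: Stickelberger's theorem for the Jacobi sums `J(χ, χ)` -/
def S_JAC : Prop := ∀ (p : ℕ) [Fact p.Prime], p ≠ 2 → ∀ (C : Type) [Field C] [NumberField C]
  (c : Cyc p C) (Q : HeightOneSpectrum (𝓞 C)), ((p : ℕ) : 𝓞 C) ∉ Q.asIdeal →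
  ∃ J : C, J ≠ 0 ∧ (∃ r : ℝ, 0 < r ∧ ∀ φ : C →+* ℂ, ‖φ J‖ ^ 2 = r) ∧
    ∀ P : HeightOneSpectrum (𝓞 C), P.valuation C J =
      WithZero.exp (-(((half p).filter fun t => act c t⁻¹ P = Q).card : ℤ))

/-- UNIT: the Stickelberger relation -/
def S_UNIT : Prop := ∀ (p : ℕ) [Fact p.Prime], p ≠ 2 → ∀ (C : Type) [Field C] [NumberField C]
  (c : Cyc p C) (x : C), x ≠ 0 →
  (∀ P : HeightOneSpectrum (𝓞 C), ∃ m : ℤ, P.valuation C x = WithZero.exp ((p : ℤ) * m)) →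
  (∀ P : HeightOneSpectrum (𝓞 C), ((p : ℕ) : 𝓞 C) ∈ P.asIdeal → P.valuation C x = 1) →
  ∃ g : C, g ≠ 0 ∧ ∃ i : ℕ, th c x = c.z ^ i * g ^ p

/-- LAM: the relation modulo the square of `1 - z` -/
def S_LAM : Prop := ∀ (p : ℕ) [Fact p.Prime], p ≠ 2 → ∀ (C : Type) [Field C] [NumberField C]
  (c : Cyc p C) (a b e n : ℤ), ¬ (p : ℤ) ∣ n → ¬ (p : ℤ) ∣ a + b + e → ∀ g : C, g ≠ 0 → ∀ i : ℕ,
  th c (((a : C) + b * c.z + e * c.z ^ 2) / n) = c.z ^ i * g ^ p →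
  (i : ZMod p) * (a + b + e : ℤ) = (b + 2 * e : ℤ) * hs p

/-- TWO: the relation modulo a prime above two -/
def S_TWO : Prop := ∀ (p : ℕ) [Fact p.Prime], 5 ≤ p → ∀ (C : Type) [Field C] [NumberField C]
  (c : Cyc p C) (a b e n : ℤ), Odd n → ∀ k : ℕ,
  ((Even a ∧ Even b ∧ Odd e ∧ k = 4) ∨ (Even a ∧ Odd b ∧ Even e ∧ k = 2) ∨
    (Even a ∧ Odd b ∧ Odd e ∧ k = 3) ∨ (Odd a ∧ Odd b ∧ Odd e ∧ k = 2)) →
  ∀ g : C, g ≠ 0 → ∀ i : ℕ,
  th c (((a : C) + b * c.z + e * c.z ^ 2) / n) = c.z ^ i * g ^ p →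
  2 * (i : ZMod p) = k * hs p ∨ p ^ 2 ∣ 2 ^ (p - 1) - 1

/-- HAR: the harmonic sum and the Fermat quotient of two -/
def S_HAR : Prop := ∀ (p : ℕ) [Fact p.Prime], p ≠ 2 → hs p = 0 → p ^ 2 ∣ 2 ^ (p - 1) - 1

/-- IDE: factors of a sum of two `p`-th powers in a Dedekind domain with a `p`-th root of unity -/
def S_IDE : Prop := ∀ (p : ℕ) [Fact p.Prime], p ≠ 2 → ∀ (R : Type) [CommRing R] [IsDedekindDomain R]
  (z : R), IsPrimitiveRoot z p → ∀ X Y Z : R, X ≠ 0 → Y ≠ 0 → Z ≠ 0 → X ^ p + Y ^ p + Z ^ p = 0 →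
  (∀ P : Ideal R, P.IsPrime → ((p : ℕ) : R) ∈ P → Z ∉ P) →
  ∃ A B : Ideal R, A ≠ ⊥ ∧ B ≠ ⊥ ∧ Ideal.span {X + z * Y} * B ^ p = Ideal.span {X + Y} * A ^ p

/-- DOWN: from the compositum of a quadratic field and the cyclotomic field to the latter -/
def S_DOWN : Prop := ∀ (p : ℕ) [Fact p.Prime], 3 ≤ p → ∀ (C : Type) [Field C] [NumberField C]
  (c : Cyc p C) (K : Type) [Field K] [NumberField K], Module.finrank ℚ K = 2 →
  ∃ (L : Type) (_ : Field L) (_ : NumberField L) (i : C →+* L) (_ : K →+* L),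
    ∀ u v : C, u ≠ 0 → v ≠ 0 → ∀ (U V : 𝓞 L), (U : L) = i u → (V : L) = i v →
    ∀ A B : Ideal (𝓞 L), A ≠ ⊥ → B ≠ ⊥ → Ideal.span {U} * B ^ p = Ideal.span {V} * A ^ p →
    ∀ P : HeightOneSpectrum (𝓞 C), ∃ m : ℤ,
      P.valuation C u = P.valuation C v * WithZero.exp ((p : ℤ) * m)

end Pool.Agent.Y546.WQ
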