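import Pool.Agent.Y546.WQ.Stm2

/-!
# Project WH: all Jacobi sums `J(χ, χ^a)`, Bernoulli numbers, Eichler's argument: statements

`p` is an odd prime, `E` the `p`-th cyclotomic field, `1 ≤ a ≤ p - 2`.
-/

set_option autoImplicit false

namespace Pool.Agent.Y546.WQ

open NumberField IsDedekindDomain Polynomial

/-- the units `t` of `ZMod p` for which the representatives of `t` and `a t` between `0` and `p`
have a sum larger than `p` (so `hf p 1 = half p`) -/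
def hf (p : ℕ) [Fact p.Prime] (a : ℕ) : Finset (ZMod p)ˣ :=
  Finset.univ.filter fun t => p < (t : ZMod p).val + ((a : ZMod p) * (t : ZMod p)).val

/-- the Stickelberger power belonging to `a` -/
noncomputable def tha {p : ℕ} [Fact p.Prime] {E : Type} [Field E] [NumberField E]
    (c : Cyc p E) (a : ℕ) (x : E) : E := ∏ t ∈ hf p a, c.σ t⁻¹ x

/-- the sum of the `j`-th powers of the inverses of the elements of `hf p a` -/
noncomputable def hsa (p : ℕ) [Fact p.Prime] (a j : ℕ) : ZMod p :=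
  ∑ t ∈ hf p a, ((t⁻¹ : (ZMod p)ˣ) : ZMod p) ^ j

/-- the product of `f (T ^ s)` over the inverses `s` of the elements of `hf p a` -/
noncomputable def thPa (p : ℕ) [Fact p.Prime] (a : ℕ) (f : Polynomial (ZMod p)) :
    Polynomial (ZMod p) :=
  ∏ t ∈ hf p a, f.comp (X ^ ((t⁻¹ : (ZMod p)ˣ) : ZMod p).val)

/-- JNA: the norm of the Jacobi sums `J(χ, χ^a)` in an algebraic closure of the `q`-adic numbers -/
def S_JNA : Prop := ∀ (q : ℕ) [Fact q.Prime] (D : Type) [Field D] [Fintype D] [DecidableEq D]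
  [CharP D q] (p F : ℕ), p.Prime → p ≠ 2 → Fintype.card D = q ^ F → p ∣ Fintype.card D - 1 →
  0 < F → ∃ T : MulChar D (PadicAlgCl q), orderOf T = p ∧ ∀ a b : ℕ, 0 < a → a + 2 ≤ p →
    0 < b → b < p → ‖jacobiSum (T ^ b) (T ^ (a * b))‖ = ‖((q : ℕ) : PadicAlgCl q)‖ ^
      ((Finset.range F).filter fun s => p < (b * q ^ s) % p + (a * b * q ^ s) % p).card

open Classical in
/-- JACA: Stickelberger's theorem for the Jacobi sums `J(χ, χ^a)` -/
def S_JACA : Prop := ∀ (p : ℕ) [Fact p.Prime], p ≠ 2 → ∀ a : ℕ, 0 < a → a + 2 ≤ p →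
  ∀ (E : Type) [Field E] [NumberField E]
  (c : Cyc p E) (Q : HeightOneSpectrum (𝓞 E)), ((p : ℕ) : 𝓞 E) ∉ Q.asIdeal →
  ∃ J : E, J ≠ 0 ∧ (∃ r : ℝ, 0 < r ∧ ∀ φ : E →+* ℂ, ‖φ J‖ ^ 2 = r) ∧
    ∀ P : HeightOneSpectrum (𝓞 E), P.valuation E J =
      WithZero.exp (-(((hf p a).filter fun t => act c t⁻¹ P = Q).card : ℤ))

/-- UNITA: the Stickelberger relation belonging to `a` -/
def S_UNITA : Prop := ∀ (p : ℕ) [Fact p.Prime], p ≠ 2 → ∀ a : ℕ, 0 < a → a + 2 ≤ p →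
  ∀ (E : Type) [Field E] [NumberField E] (c : Cyc p E) (x : E), x ≠ 0 →
  (∀ P : HeightOneSpectrum (𝓞 E), ∃ m : ℤ, P.valuation E x = WithZero.exp ((p : ℤ) * m)) →
  (∀ P : HeightOneSpectrum (𝓞 E), ((p : ℕ) : 𝓞 E) ∈ P.asIdeal → P.valuation E x = 1) →
  ∃ g : E, g ≠ 0 ∧ ∃ i : ℕ, tha c a x = c.z ^ i * g ^ p

/-- LAMA: the relation modulo `p` for the value of a polynomial -/
def S_LAMA : Prop := ∀ (p : ℕ) [Fact p.Prime], p ≠ 2 → ∀ a : ℕ, 0 < a → a + 2 ≤ p →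
  ∀ (E : Type) [Field E] [NumberField E]
  (c : Cyc p E) (f : Polynomial ℤ) (n : ℤ), ¬ (p : ℤ) ∣ n → ¬ (p : ℤ) ∣ f.eval 1 →
  ∀ g : E, g ≠ 0 → ∀ i : ℕ, tha c a (aeval c.z f / (n : E)) = c.z ^ i * g ^ p →
  ∃ r : ZMod p, r ≠ 0 ∧
    (X - 1) ^ (p - 1) ∣ thPa p a (f.map (Int.castRingHom (ZMod p))) - Polynomial.C r * X ^ i

/-- COREA: the leading term of `T ^ m f - T ^ s f*` at `T = 1` -/
def S_COREA : Prop := ∀ (p : ℕ) [Fact p.Prime], p ≠ 2 → ∀ a : ℕ, 0 < a → a + 2 ≤ p →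
  ∀ (m s i l : ℕ) (f W : Polynomial (ZMod p)) (r : ZMod p), f.natDegree ≤ m → f.eval 1 ≠ 0 →
  r ≠ 0 → (X - 1) ^ (p - 1) ∣ thPa p a f - Polynomial.C r * X ^ i →
  X ^ m * f - X ^ s * f.reflect m = (X - 1) ^ l * W → W.eval 1 ≠ 0 → 2 ≤ l → l + 2 ≤ p →
  Odd l ∧ hsa p a l = 0

/-- the relations satisfied by a norm polynomial -/
def Rel (p : ℕ) [Fact p.Prime] (f : Polynomial (ZMod p)) : Prop :=
  ∀ a : ℕ, 0 < a → a + 2 ≤ p → ∃ (i : ℕ) (r : ZMod p), r ≠ 0 ∧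
    (X - 1) ^ (p - 1) ∣ thPa p a f - Polynomial.C r * X ^ i

/-- `j` is regular for `p` (equivalent to: `p` does not divide the numerator of the Bernoulli
number with index `p - j`) -/
def Reg (p : ℕ) [Fact p.Prime] (j : ℕ) : Prop :=
  ∃ a : ℕ, 0 < a ∧ a + 2 ≤ p ∧ hsa p a j ≠ 0

/-- POLBA: `f` is palindromic if the first `m` indices are regular -/
def S_POLBA : Prop := ∀ (p : ℕ) [Fact p.Prime] (m : ℕ) (f : Polynomial (ZMod p)),
  2 * m + 3 ≤ p → f.natDegree ≤ m → f.coeff 0 ≠ 0 → f.coeff m ≠ 0 →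
  f.eval 1 ≠ 0 → Rel p f → (∀ j, Odd j → 3 ≤ j → j ≤ 2 * m + 1 → Reg p j) → f.reflect m = f

/-- `T d/dT` -/
noncomputable def DD {p : ℕ} (f : Polynomial (ZMod p)) : Polynomial (ZMod p) := X * derivative f

/-- numerator of the odd part of the logarithmic derivative -/
noncomputable def Wf {p : ℕ} (m : ℕ) (f : Polynomial (ZMod p)) : Polynomial (ZMod p) :=
  f.reflect m * DD f - f * DD (f.reflect m)

/-- denominator of the odd part of the logarithmic derivative -/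
noncomputable def Vf {p : ℕ} (m : ℕ) (f : Polynomial (ZMod p)) : Polynomial (ZMod p) :=
  f * f.reflect m

/-- the combination of the values of `W / V` at `T, T ^ 2, ..., T ^ n`, cleared of denominators -/
noncomputable def Lin {p : ℕ} (n : ℕ) (W V : Polynomial (ZMod p)) (b : ℕ → ZMod p) (d : ZMod p) :
    Polynomial (ZMod p) :=
  (∑ i ∈ Finset.Icc 1 n, Polynomial.C (b i) * W.comp (X ^ i) *
    ∏ k ∈ (Finset.Icc 1 n).erase i, V.comp (X ^ k)) -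
    Polynomial.C d * ∏ k ∈ Finset.Icc 1 n, V.comp (X ^ k)

/-- POLE1: a linear relation from few irregular indices -/
def S_POLE1 : Prop := ∀ (p : ℕ) [Fact p.Prime] (m : ℕ) (f : Polynomial (ZMod p)) (J : Finset ℕ),
  5 ≤ p → f.natDegree ≤ m → f.eval 1 ≠ 0 → Rel p f →
  (∀ j, Odd j → 3 ≤ j → j + 2 ≤ p → j ∉ J → Reg p j) → J.card + 1 < p →
  ∃ (b : ℕ → ZMod p) (d : ZMod p), (∃ i, 1 ≤ i ∧ i ≤ J.card + 1 ∧ b i ≠ 0) ∧
    (X - 1) ^ (p - 2) ∣ Lin (J.card + 1) (Wf m f) (Vf m f) b d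

/-- POLE2: such a relation cannot be an identity unless `W = 0` -/
def S_POLE2 : Prop := ∀ (p : ℕ) [Fact p.Prime] (n : ℕ) (W V : Polynomial (ZMod p))
  (b : ℕ → ZMod p) (d : ZMod p), n < p → W.natDegree ≤ V.natDegree → V.coeff 0 ≠ 0 →
  W.coeff 0 = 0 → (∃ i, 1 ≤ i ∧ i ≤ n ∧ b i ≠ 0) → Lin n W V b d = 0 → W = 0

/-- POLE: `f` is palindromic if there are few irregular indices -/
def S_POLE : Prop := ∀ (p : ℕ) [Fact p.Prime] (m : ℕ) (f : Polynomial (ZMod p)) (J : Finset ℕ),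
  0 < m → f.natDegree ≤ m → f.coeff 0 ≠ 0 → f.coeff m ≠ 0 → f.eval 1 ≠ 0 → Rel p f →
  (∀ j, Odd j → 3 ≤ j → j + 2 ≤ p → j ∉ J → Reg p j) →
  m * ((J.card + 1) * (J.card + 2)) + 3 ≤ p → f.reflect m = f

/-- BER: irregular indices and Bernoulli numbers -/
def S_BER : Prop := ∀ (p : ℕ) [Fact p.Prime] (k : ℕ), Even k → 2 ≤ k → k + 3 ≤ p →
  ¬ Reg p (p - k) → (p : ℤ) ∣ (_root_.bernoulli k).num

/-- SYM: the exponent of the relation for a palindromic polynomial -/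
def S_SYM : Prop := ∀ (p : ℕ) [Fact p.Prime] (m i : ℕ) (f : Polynomial (ZMod p)) (r : ZMod p),
  p ≠ 2 → f.natDegree ≤ m → f.reflect m = f → r ≠ 0 →
  (X - 1) ^ (p - 1) ∣ thP p f - Polynomial.C r * X ^ i → 2 * (i : ZMod p) = m * hs p

end Pool.Agent.Y546.WQ
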