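import Pool.Agent.Y546.WQ.Stm

/-!
# Project WG: the first case of Fermat's Last Theorem over number fields of arbitrary degree,
statements

`p` is an odd prime, `E` the `p`-th cyclotomic field, `K` a number field of degree `m`.
-/

set_option autoImplicit false

namespace Pool.Agent.Y546.WQ

open NumberField IsDedekindDomain Polynomial

/-- the sum of the `j`-th powers of the inverses of the numbers between `p / 2` and `p` -/
noncomputable def hsj (p : ℕ) [Fact p.Prime] (j : ℕ) : ZMod p :=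
  ∑ t ∈ half p, ((t⁻¹ : (ZMod p)ˣ) : ZMod p) ^ j

/-- the product of `f (T ^ s)` over the inverses `s` of the numbers between `p / 2` and `p` -/
noncomputable def thP (p : ℕ) [Fact p.Prime] (f : Polynomial (ZMod p)) : Polynomial (ZMod p) :=
  ∏ t ∈ half p, f.comp (X ^ ((t⁻¹ : (ZMod p)ˣ) : ZMod p).val)

/-- the norm polynomial `N (x + T y)` in a field containing all conjugates -/
noncomputable def nrmP (K N : Type) [Field K] [NumberField K] [Field N] [NumberField N]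
    (x y : 𝓞 K) : Polynomial (𝓞 N) :=
  ∏ τ : K →+* N, (Polynomial.C (RingOfIntegers.mapRingHom τ x) +
    X * Polynomial.C (RingOfIntegers.mapRingHom τ y))

/-- LAMG: the Stickelberger relation modulo `p` for the value of a polynomial -/
def S_LAMG : Prop := ∀ (p : ℕ) [Fact p.Prime], p ≠ 2 → ∀ (E : Type) [Field E] [NumberField E]
  (c : Cyc p E) (f : Polynomial ℤ) (n : ℤ), ¬ (p : ℤ) ∣ n → ¬ (p : ℤ) ∣ f.eval 1 →
  ∀ g : E, g ≠ 0 → ∀ i : ℕ, th c (aeval c.z f / (n : E)) = c.z ^ i * g ^ p →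
  ∃ r : ZMod p, r ≠ 0 ∧
    (X - 1) ^ (p - 1) ∣ thP p (f.map (Int.castRingHom (ZMod p))) - Polynomial.C r * X ^ i

/-- TWOG: the Stickelberger relation modulo a prime above two -/
def S_TWOG : Prop := ∀ (p : ℕ) [Fact p.Prime], p ≠ 2 → ∀ (E : Type) [Field E] [NumberField E]
  (c : Cyc p E) (f : Polynomial ℤ) (n : ℤ), Odd n → ∀ m a b : ℕ, f.natDegree ≤ m →
  X ^ b * f.map (Int.castRingHom (ZMod 2)) =
    X ^ a * (f.reflect m).map (Int.castRingHom (ZMod 2)) →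
  (∀ P : Ideal (𝓞 E), P.IsPrime → (2 : 𝓞 E) ∈ P → ∀ w : 𝓞 E, (w : E) = aeval c.z f → w ∉ P) →
  ∀ g : E, g ≠ 0 → ∀ i : ℕ, th c (aeval c.z f / (n : E)) = c.z ^ i * g ^ p →
  2 * (i : ZMod p) = ((m : ZMod p) + a - b) * hs p ∨ p ^ 2 ∣ 2 ^ (p - 1) - 1

/-- CORE: the leading term of `T ^ m f - T ^ s f*` at `T = 1` -/
def S_CORE : Prop := ∀ (p : ℕ) [Fact p.Prime], p ≠ 2 → ∀ (m s i l : ℕ)
  (f W : Polynomial (ZMod p)) (r : ZMod p), f.natDegree ≤ m → f.eval 1 ≠ 0 → r ≠ 0 →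
  (X - 1) ^ (p - 1) ∣ thP p f - Polynomial.C r * X ^ i →
  X ^ m * f - X ^ s * f.reflect m = (X - 1) ^ l * W → W.eval 1 ≠ 0 → 1 ≤ l → l + 2 ≤ p →
  (2 ≤ l ∨ 2 * (i : ZMod p) = s * hs p) → Odd l ∧ hsj p l = 0

/-- POLA: with the exponent known, `f` is palindromic -/
def S_POLA : Prop := ∀ (p : ℕ) [Fact p.Prime] (m k i : ℕ) (f : Polynomial (ZMod p)) (r : ZMod p),
  2 * m + 3 ≤ p → k ≤ 2 * m → f.natDegree ≤ m → f.coeff 0 ≠ 0 → f.coeff m ≠ 0 →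
  f.eval 1 ≠ 0 → r ≠ 0 → (X - 1) ^ (p - 1) ∣ thP p f - Polynomial.C r * X ^ i →
  2 * (i : ZMod p) = k * hs p → (∀ j, Odd j → j < 2 * m → hsj p j ≠ 0) →
  k = m ∧ f.reflect m = f

/-- POLB: with one more sum of powers, `f` is palindromic whatever the exponent is -/
def S_POLB : Prop := ∀ (p : ℕ) [Fact p.Prime] (m i : ℕ) (f : Polynomial (ZMod p)) (r : ZMod p),
  2 * m + 3 ≤ p → f.natDegree ≤ m → f.coeff 0 ≠ 0 → f.coeff m ≠ 0 →
  f.eval 1 ≠ 0 → r ≠ 0 → (X - 1) ^ (p - 1) ∣ thP p f - Polynomial.C r * X ^ i →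
  (∀ j, Odd j → 3 ≤ j → j ≤ 2 * m + 1 → hsj p j ≠ 0) → f.reflect m = f

/-- NORM: the norm polynomial `N (x + T y)` -/
def S_NORM : Prop := ∀ (K : Type) [Field K] [NumberField K] (x y : 𝓞 K), ∃ f : Polynomial ℤ,
  f.natDegree ≤ Module.finrank ℚ K ∧ f.coeff 0 = Algebra.norm ℤ x ∧
  f.coeff (Module.finrank ℚ K) = Algebra.norm ℤ y ∧
  (∀ t : ℤ, f.eval t = Algebra.norm ℤ (x + (t : 𝓞 K) * y)) ∧
  ∀ (N : Type) [Field N] [NumberField N], Nat.card (K →+* N) = Module.finrank ℚ K →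
    f.map (Int.castRingHom (𝓞 N)) = nrmP K N x y

/-- DOWNG: from a field containing the cyclotomic field and all conjugates of `K` to the former -/
def S_DOWNG : Prop := ∀ (p : ℕ) [Fact p.Prime] (E : Type) [Field E] [NumberField E]
  (_c : Cyc p E) (K : Type) [Field K] [NumberField K], Module.finrank ℚ K < p →
  ∃ (N : Type) (_ : Field N) (_ : NumberField N) (i : E →+* N),
    Nat.card (K →+* N) = Module.finrank ℚ K ∧
    ∀ u v : E, u ≠ 0 → v ≠ 0 → ∀ (U V : 𝓞 N), (U : N) = i u → (V : N) = i v →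
    ∀ A B : Ideal (𝓞 N), A ≠ ⊥ → B ≠ ⊥ → Ideal.span {U} * B ^ p = Ideal.span {V} * A ^ p →
    ∀ P : HeightOneSpectrum (𝓞 E), ∃ m : ℤ,
      P.valuation E u = P.valuation E v * WithZero.exp ((p : ℤ) * m)

/-- LOC2: the norm polynomial modulo two, if all primes above two have norm two -/
def S_LOC2 : Prop := ∀ (K N : Type) [Field K] [NumberField K] [Field N] [NumberField N],
  Nat.card (K →+* N) = Module.finrank ℚ K →
  (∀ P : Ideal (𝓞 K), P.IsPrime → (2 : 𝓞 K) ∈ P → Nat.card (𝓞 K ⧸ P) = 2) →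
  ∀ Q : Ideal (𝓞 N), Q.IsPrime → (2 : 𝓞 N) ∈ Q → ∀ x y z : 𝓞 K,
  (∀ P : Ideal (𝓞 K), P.IsPrime → (2 : 𝓞 K) ∈ P →
    x + y + z ∈ P ∧ ¬ (x ∈ P ∧ y ∈ P ∧ z ∈ P)) →
  ∀ a b d : ℕ, a = Nat.card {τ : K →+* N // RingOfIntegers.mapRingHom τ x ∈ Q} →
  b = Nat.card {τ : K →+* N // RingOfIntegers.mapRingHom τ y ∈ Q} →
  d = Nat.card {τ : K →+* N // RingOfIntegers.mapRingHom τ z ∈ Q} →
  a + b + d = Module.finrank ℚ K ∧
  ∀ f : Polynomial ℤ, f.natDegree ≤ Module.finrank ℚ K →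
    f.map (Int.castRingHom (𝓞 N)) = nrmP K N x y →
    X ^ b * f.map (Int.castRingHom (ZMod 2)) =
      X ^ a * (f.reflect (Module.finrank ℚ K)).map (Int.castRingHom (ZMod 2))

/-- COP: the norm of `x + z y` is prime to two -/
def S_COP : Prop := ∀ (p : ℕ) [Fact p.Prime], p ≠ 2 → ∀ (E : Type) [Field E] [NumberField E]
  (c : Cyc p E) (K N : Type) [Field K] [NumberField K] [Field N] [NumberField N]
  (_i : E →+* N), Nat.card (K →+* N) = Module.finrank ℚ K →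
  (∀ P : Ideal (𝓞 K), P.IsPrime → (2 : 𝓞 K) ∈ P → Nat.card (𝓞 K ⧸ P) = 2) →
  ∀ x y z : 𝓞 K, (∀ P : Ideal (𝓞 K), P.IsPrime → (2 : 𝓞 K) ∈ P →
    x + y + z ∈ P ∧ ¬ (x ∈ P ∧ y ∈ P ∧ z ∈ P)) →
  ∀ f : Polynomial ℤ, f.map (Int.castRingHom (𝓞 N)) = nrmP K N x y →
  ∀ P : Ideal (𝓞 E), P.IsPrime → (2 : 𝓞 E) ∈ P → ∀ w : 𝓞 E, (w : E) = aeval c.z f → w ∉ P

end Pool.Agent.Y546.WQ
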