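import Pool.Agent.Y546.WQ.PalK
import Pool.Agent.Y978.WQ.CYC
import Pool.Agent.Y258.WQ.DOWNG
import Pool.Agent.Y510.WQ.JNA
import Pool.Agent.Y941.WQ.BR
import Pool.Agent.Y688.WQ.STAB
import Pool.Agent.Y100.WQ.JACA
import Pool.Agent.Y220.WQ.UNITA
import Pool.Agent.Y261.WQ.IDE
import Pool.Agent.Y919.WQ.LAMA
import Pool.Agent.Y290.WQ.NORM
import Pool.Agent.Y275.WQ.COREA
import Pool.Agent.Y510.WQ.POLBA
import Pool.Agent.Y780.WQ.POLE1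
import Pool.Agent.Y286.WQ.POLE2
import Pool.Agent.Y590.WQ.POLE
import Pool.Agent.Y61.WQ.BER
import Pool.Agent.Y388.WQ.JN
import Pool.Agent.Y388.WQ.HAR
import Pool.Agent.Y125.WQ.JAC
import Pool.Agent.Y125.WQ.UNIT
import Pool.Agent.Y815.WQ.LAMG
import Pool.Agent.Y261.WQ.TWOG
import Pool.Agent.Y468.WQ.SYM
import Pool.Agent.Y809.WQ.LOC2
import Pool.Agent.Y67.WQ.COP

/-!
# Project WH: all parts together
-/

set_option autoImplicit false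

namespace Pool.Agent.Y546.WQ

open NumberField IsDedekindDomain Polynomial

theorem aUNITA : S_UNITA :=
  Y220.WQ.mainUNITA (Y100.WQ.mainJACA Y510.WQ.mainJNA Y941.WQ.main Y688.WQ.main)

theorem aUNIT : S_UNIT :=
  Y125.WQ.t_UNIT (Y125.WQ.t_JAC Y388.WQ.JN.main Y941.WQ.main Y688.WQ.main)

theorem mainAll {p : ℕ} (hp : p.Prime) {K : Type} [Field K] [NumberField K]
    (hreg : (2 * Module.finrank ℚ K + 3 ≤ p ∧ ∀ k ∈ irr p, k + 2 * Module.finrank ℚ K + 1 < p) ∨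
      Module.finrank ℚ K * (((irr p).card + 1) * ((irr p).card + 2)) + 3 ≤ p)
    (hK : (Odd (Module.finrank ℚ K) ∧ ¬ p ^ 2 ∣ 2 ^ (p - 1) - 1) ∨
      (¬ 3 ∣ Module.finrank ℚ K ∧ ¬ p ^ 2 ∣ 2 ^ (p - 1) - 1 ∧
        ∀ P : Ideal (𝓞 K), P.IsPrime → (2 : 𝓞 K) ∈ P → Nat.card (𝓞 K ⧸ P) = 2) ∨
      (¬ 3 ∣ Module.finrank ℚ K ∧
        (p % 3 = 1 → ∀ P P' : Ideal (𝓞 K), P.IsPrime → P'.IsPrime →
          ((p : ℕ) : 𝓞 K) ∈ P → ((p : ℕ) : 𝓞 K) ∈ P' → P = P') ∧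
        (p % 3 = 2 → ∀ P : Ideal (𝓞 K), P.IsPrime → ((p : ℕ) : 𝓞 K) ∈ P →
          Nat.card (𝓞 K ⧸ P) % 3 ≠ 1)))
    {x y z : K} (hx : x ≠ 0) (hy : y ≠ 0) (hz : z ≠ 0) (h : x ^ p + y ^ p + z ^ p = 0)
    (hv : ∀ v : HeightOneSpectrum (𝓞 K), ((p : ℕ) : 𝓞 K) ∈ v.asIdeal →
      v.valuation K x = v.valuation K y ∧ v.valuation K y = v.valuation K z) : False :=
  mainK Y978.WQ.main Y258.WQ.mainDOWNG aUNITA Y261.WQ.main Y919.WQ.mainLAMA Y290.WQ.mainNORM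
    (Y510.WQ.mainPOLBA Y275.WQ.mainCOREA) (Y590.WQ.mainPOLE Y780.WQ.mainPOLE1 Y286.WQ.mainPOLE2)
    Y61.WQ.mainBER aUNIT Y815.WQ.mainLAMG Y261.WQ.mainTWOG Y388.WQ.HAR.main Y468.WQ.mainSYM
    Y809.WQ.mainLOC2 Y67.WQ.mainCOP hp hreg hK hx hy hz h hv

end Pool.Agent.Y546.WQ
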