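import Pool.Agent.Y546.WQ.PolAA

/-!
# Project WG: all primes above two have norm two, second version
-/

set_option autoImplicit false

namespace Pool.Agent.Y546.WQ

open NumberField IsDedekindDomain Polynomial

section

variable {p : ℕ} [Fact p.Prime] {E : Type} [Field E] [NumberField E]
  {K N : Type} [Field K] [NumberField K] [Field N] [NumberField N]

/-- the numbers of conjugates of `X` and `Y` in a prime above two are equal: from regular indices -/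
theorem eq_countA (hU : S_UNIT) (hUA : S_UNITA) (hI : S_IDE) (hL : S_LAMG) (hLA : S_LAMA)
    (hT : S_TWOG) (hH : S_HAR) (hCo : S_CORE) (hCA : S_COREA)
    (hN : S_NORM) (hL2 : S_LOC2) (hC : S_COP) (c : Cyc p E)
    (i : E →+* N) (hD : Dn p E N i) (hcard : Nat.card (K →+* N) = Module.finrank ℚ K)
    (hm : 2 * Module.finrank ℚ K + 3 ≤ p) (hW : ¬ p ^ 2 ∣ 2 ^ (p - 1) - 1)
    (hreg : ∀ j, Odd j → 3 ≤ j → j < 2 * Module.finrank ℚ K → Reg p j)
    (hK2 : ∀ P : Ideal (𝓞 K), P.IsPrime → (2 : 𝓞 K) ∈ P → Nat.card (𝓞 K ⧸ P) = 2)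
    (Q : Ideal (𝓞 N)) (hQ : Q.IsPrime) (hQ2 : (2 : 𝓞 N) ∈ Q)
    {X Y Z : 𝓞 K} (hs : Sol p K X Y Z)
    (hP2 : ∀ P : Ideal (𝓞 K), P.IsPrime → (2 : 𝓞 K) ∈ P →
      X + Y + Z ∈ P ∧ ¬ (X ∈ P ∧ Y ∈ P ∧ Z ∈ P)) :
    Nat.card {τ : K →+* N // RingOfIntegers.mapRingHom τ X ∈ Q} =
      Nat.card {τ : K →+* N // RingOfIntegers.mapRingHom τ Y ∈ Q} := by
  have hpp : p.Prime := Fact.out
  have hp2 : p ≠ 2 := by
    have := Module.finrank_pos (R := ℚ) (M := K)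
    omega
  obtain ⟨f, hdeg, hc0, hcm, hev, hf'⟩ := hN K X Y
  have hf := hf' N hcard
  obtain ⟨b1, b2, b3, b4, b5⟩ := base hN hcard hs f hdeg hc0 hcm hev
  obtain ⟨h1, h2, h3⟩ := fldG hI hp2 c i hD X Y Z hs.X0 hs.Y0 hs.Z0 hs.eq
    (fun P hP hpP => (hs.cp P hP hpP).2.2) f hf
  obtain ⟨q1, q2⟩ := hL2 K N hcard hK2 Q hQ hQ2 X Y Z hP2 _ _ _ rfl rfl rfl
  have q3 := q2 f hdeg hf
  have q4 := hC p hp2 E c K N i hcard hK2 X Y Z hP2 f hf
  set a := Nat.card {τ : K →+* N // RingOfIntegers.mapRingHom τ X ∈ Q}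
  set b := Nat.card {τ : K →+* N // RingOfIntegers.mapRingHom τ Y ∈ Q}
  set d := Nat.card {τ : K →+* N // RingOfIntegers.mapRingHom τ Z ∈ Q}
  obtain ⟨s, n, hn, hsn⟩ := exists_odd_part (f.eval 1) h2
  have hpn : ¬ (p : ℤ) ∣ n := fun h => b5 (hsn ▸ dvd_mul_of_dvd_right h _)
  obtain ⟨w, hwz, hw⟩ := exists_zint c
  have hΛ : algebraMap (𝓞 E) E (aeval w f) = aeval c.z f := by
    have hwz' : algebraMap (𝓞 E) E w = c.z := hwz
    rw [← hwz']
    exact (aeval_algebraMap_apply E w f).symm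
  obtain ⟨g, hg, k, hk⟩ := relG hU hp2 c f n hpn b5 h1 (by
    intro P
    by_cases h2P : ((2 : ℕ) : 𝓞 E) ∈ P.asIdeal
    · refine ⟨0, ?_⟩
      have h2' : (2 : 𝓞 E) ∈ P.asIdeal := by exact_mod_cast h2P
      have hn1 : P.valuation E ((n : ℤ) : E) = 1 := by
        have := val_one P ((n : ℤ) : 𝓞 E) (int_notMem P.asIdeal P.isPrime 2 Nat.prime_two h2P n
          (by
            rw [Int.odd_iff] at hn
            intro h
            push_cast at h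
            omega))
        simpa using this
      rw [hn1, mul_zero, WithZero.exp_zero, mul_one, ← hΛ]
      exact val_one P _ (q4 P.asIdeal P.isPrime h2' _ hΛ)
    · obtain ⟨m, hm⟩ := h3 P
      refine ⟨m, ?_⟩
      rw [hm, hsn]
      congr 1
      push_cast
      rw [map_mul, map_pow]
      have h3 : P.valuation E (2 : E) = 1 := by
        have h10 : (((2 : ℕ) : 𝓞 E) : E) = 2 := map_natCast (algebraMap (𝓞 E) E) 2
        have := val_one P ((2 : ℕ) : 𝓞 E) h2P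
        rwa [h10] at this
      rw [h3, one_pow, one_mul])
  obtain ⟨r, hr, hdv⟩ := hL p hp2 E c f n hpn b5 g hg k hk
  have q5 := (hT p hp2 E c f n hn (Module.finrank ℚ K) a b hdeg q3
    (fun P hP h2P w hw => q4 P hP h2P w hw) g hg k hk).resolve_right hW
  have hs0 : Pool.Agent.Y546.WQ.hs p ≠ 0 := fun h => hW (hH p hp2 h)
  have hrel := rel_of_sol hUA hI hLA hN c i hD hcard hp2 hs f hdeg hc0 hcm hev hf
  have hab : b ≤ Module.finrank ℚ K + a := by omega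
  obtain ⟨q6, -⟩ := polAA hCo hCA p (Module.finrank ℚ K) (Module.finrank ℚ K + a - b) k _ r hm
    (by omega) b1 b2 b3 b4 hr hdv (by
      rw [q5, Nat.cast_sub hab]
      push_cast
      ring) hs0 hrel hreg
  omega

/-- all primes above two have norm two: the degree is divisible by three, and there are at least
two primes above two -/
theorem case_twoB (hY0 : S_SYM) (hU : S_UNIT) (hUA : S_UNITA) (hI : S_IDE) (hL : S_LAMG)
    (hLA : S_LAMA)
    (hT : S_TWOG) (hH : S_HAR) (hCo : S_CORE) (hCA : S_COREA)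
    (hN : S_NORM) (hL2 : S_LOC2) (hC : S_COP) (c : Cyc p E)
    (i : E →+* N) (hD : Dn p E N i) (hcard : Nat.card (K →+* N) = Module.finrank ℚ K)
    (hm : 2 * Module.finrank ℚ K + 3 ≤ p) (hW : ¬ p ^ 2 ∣ 2 ^ (p - 1) - 1)
    (hreg : (∀ j, Odd j → 3 ≤ j → j < 2 * Module.finrank ℚ K → Reg p j) ∨ PalK p K)
    (hK2 : ∀ P : Ideal (𝓞 K), P.IsPrime → (2 : 𝓞 K) ∈ P → Nat.card (𝓞 K ⧸ P) = 2)
    (hm3 : ¬ 3 ∣ Module.finrank ℚ K ∨ ∀ P P' : Ideal (𝓞 K), P.IsPrime → P'.IsPrime →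
      (2 : 𝓞 K) ∈ P → (2 : 𝓞 K) ∈ P' → P = P')
    {X Y Z : 𝓞 K} (hs : Sol p K X Y Z)
    (hP2 : ∀ P : Ideal (𝓞 K), P.IsPrime → (2 : 𝓞 K) ∈ P → ¬ (X ∈ P ∧ Y ∈ P ∧ Z ∈ P)) :
    False := by
  have hpp : p.Prime := Fact.out
  have hmpos := Module.finrank_pos (R := ℚ) (M := K)
  have h5 : 5 ≤ p := by omega
  have hp2 : p ≠ 2 := by omega
  obtain ⟨Q, hQ, hQ2⟩ := exists_above (K := N) 2 Nat.prime_two
  have hQ2' : (2 : 𝓞 N) ∈ Q := by exact_mod_cast hQ2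
  have hP3 : ∀ P : Ideal (𝓞 K), P.IsPrime → (2 : 𝓞 K) ∈ P →
      X + Y + Z ∈ P ∧ ¬ (X ∈ P ∧ Y ∈ P ∧ Z ∈ P) := by
    intro P hP h2P
    refine ⟨lin_2 hpp h5 P hP h2P ?_ hs.eq, hP2 P hP h2P⟩
    intro w
    have hc := hK2 P hP h2P
    have hfin : Finite (𝓞 K ⧸ P) := Nat.finite_of_card_ne_zero (by rw [hc]; norm_num)
    have hft : Fintype (𝓞 K ⧸ P) := Fintype.ofFinite _
    have hc' : Fintype.card (𝓞 K ⧸ P) = 2 := by rw [← Nat.card_eq_fintype_card, hc]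
    have hP0 : P ≠ ⊥ := by
      rintro rfl
      rw [Ideal.mem_bot] at h2P
      exact two_ne_zero h2P
    have hPm : P.IsMaximal := hP.isMaximal hP0
    let _ : Field (𝓞 K ⧸ P) := Ideal.Quotient.field P
    have h1 := FiniteField.pow_card (Ideal.Quotient.mk P w)
    rw [hc'] at h1
    rw [← Ideal.Quotient.eq_zero_iff_mem, map_sub, map_pow]
    have h2 : (Ideal.Quotient.mk P w) ^ 4 = Ideal.Quotient.mk P w := by
      calc (Ideal.Quotient.mk P w) ^ 4 = ((Ideal.Quotient.mk P w) ^ 2) ^ 2 := by ring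
        _ = _ := by rw [h1, h1]
    rw [h2, sub_self]
  have hrot : ∀ {X Y Z : 𝓞 K}, (∀ P : Ideal (𝓞 K), P.IsPrime → (2 : 𝓞 K) ∈ P →
      X + Y + Z ∈ P ∧ ¬ (X ∈ P ∧ Y ∈ P ∧ Z ∈ P)) → (∀ P : Ideal (𝓞 K), P.IsPrime →
      (2 : 𝓞 K) ∈ P → Y + Z + X ∈ P ∧ ¬ (Y ∈ P ∧ Z ∈ P ∧ X ∈ P)) := by
    intro X Y Z hXYZ P hP h2P
    obtain ⟨h1, h2⟩ := hXYZ P hP h2P
    refine ⟨?_, fun h => h2 ⟨h.2.2, h.1, h.2.1⟩⟩
    have : Y + Z + X = X + Y + Z := by ring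
    rw [this]
    exact h1
  have e1 : Nat.card {τ : K →+* N // RingOfIntegers.mapRingHom τ X ∈ Q} =
      Nat.card {τ : K →+* N // RingOfIntegers.mapRingHom τ Y ∈ Q} := by
    rcases hreg with hreg | hpal
    · exact eq_countA hU hUA hI hL hLA hT hH hCo hCA hN hL2 hC c i hD hcard hm hW hreg hK2 Q hQ
        hQ2' hs hP3
    · exact (eq_count hU hI hL hT hH hY0 hN hL2 hC c i hD hcard hpal hp2 (by omega) hW hK2 Q hQ
        hQ2' hs hP3).1
  have e3 : Nat.card {τ : K →+* N // RingOfIntegers.mapRingHom τ Y ∈ Q} =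
      Nat.card {τ : K →+* N // RingOfIntegers.mapRingHom τ Z ∈ Q} := by
    rcases hreg with hreg | hpal
    · exact eq_countA hU hUA hI hL hLA hT hH hCo hCA hN hL2 hC c i hD hcard hm hW hreg hK2 Q hQ
        hQ2' hs.rot (hrot hP3)
    · exact (eq_count hU hI hL hT hH hY0 hN hL2 hC c i hD hcard hpal hp2 (by omega) hW hK2 Q hQ
        hQ2' hs.rot (hrot hP3)).1
  have e2 := (hL2 K N hcard hK2 Q hQ hQ2' X Y Z hP3 _ _ _ rfl rfl rfl).1
  rcases hm3 with hm3 | huniq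
  · apply hm3
    refine ⟨Nat.card {τ : K →+* N // RingOfIntegers.mapRingHom τ X ∈ Q}, ?_⟩
    omega
  · -- all counts are positive
    have hpos : 0 < Nat.card {τ : K →+* N // RingOfIntegers.mapRingHom τ X ∈ Q} := by omega
    have hposY : 0 < Nat.card {τ : K →+* N // RingOfIntegers.mapRingHom τ Y ∈ Q} := by omega
    have hposZ : 0 < Nat.card {τ : K →+* N // RingOfIntegers.mapRingHom τ Z ∈ Q} := by omega
    obtain ⟨⟨τ1, h1⟩⟩ := (Nat.card_pos_iff.1 hpos).1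
    obtain ⟨⟨τ2, h2⟩⟩ := (Nat.card_pos_iff.1 hposY).1
    obtain ⟨⟨τ3, h3⟩⟩ := (Nat.card_pos_iff.1 hposZ).1
    have hP : ∀ τ : K →+* N, (Q.comap (RingOfIntegers.mapRingHom τ)).IsPrime :=
      fun τ => hQ.comap _
    have hPp : ∀ τ : K →+* N, (2 : 𝓞 K) ∈ Q.comap (RingOfIntegers.mapRingHom τ) := by
      intro τ
      rw [Ideal.mem_comap, map_ofNat]
      exact hQ2'
    have u2 := huniq _ _ (hP τ2) (hP τ1) (hPp τ2) (hPp τ1)
    have u3 := huniq _ _ (hP τ3) (hP τ1) (hPp τ3) (hPp τ1)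
    apply hP2 _ (hP τ1) (hPp τ1)
    refine ⟨h1, ?_, ?_⟩
    · rw [← u2]
      exact h2
    · rw [← u3]
      exact h3

end

end Pool.Agent.Y546.WQ
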