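import Pool.Agent.Y546.WQ.All
import Pool.Agent.Y546.WQ.Cas4
import Pool.Agent.Y655.WQ.CORE

/-!
# Project WG: all primes above two have norm two, assembly
-/

set_option autoImplicit false

namespace Pool.Agent.Y546.WQ

open NumberField IsDedekindDomain Polynomial

theorem mainTwo {p : ℕ} (hp : p.Prime) {K : Type} [Field K] [NumberField K]
    (hreg : (2 * Module.finrank ℚ K + 3 ≤ p ∧ ∀ k ∈ irr p, k + 2 * Module.finrank ℚ K < p) ∨
      Module.finrank ℚ K * (((irr p).card + 1) * ((irr p).card + 2)) + 3 ≤ p)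
    (hW : ¬ p ^ 2 ∣ 2 ^ (p - 1) - 1)
    (hK2 : ∀ P : Ideal (𝓞 K), P.IsPrime → (2 : 𝓞 K) ∈ P → Nat.card (𝓞 K ⧸ P) = 2)
    (hm3 : ¬ 3 ∣ Module.finrank ℚ K ∨ ∀ P P' : Ideal (𝓞 K), P.IsPrime → P'.IsPrime →
      (2 : 𝓞 K) ∈ P → (2 : 𝓞 K) ∈ P' → P = P')
    {x y z : K} (hx : x ≠ 0) (hy : y ≠ 0) (hz : z ≠ 0) (h : x ^ p + y ^ p + z ^ p = 0)
    (hv : ∀ v : HeightOneSpectrum (𝓞 K), ((p : ℕ) : 𝓞 K) ∈ v.asIdeal →
      v.valuation K x = v.valuation K y ∧ v.valuation K y = v.valuation K z) : False := by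
  have hfact : Fact p.Prime := ⟨hp⟩
  have hm := Module.finrank_pos (R := ℚ) (M := K)
  have h5 : 2 * Module.finrank ℚ K + 3 ≤ p := by
    rcases hreg with h | h
    · exact h.1
    · have e : 2 ≤ ((irr p).card + 1) * ((irr p).card + 2) := by nlinarith [(irr p).card.zero_le]
      have := Nat.mul_le_mul_left (Module.finrank ℚ K) e
      omega
  have hp2 : p ≠ 2 := by omega
  obtain ⟨E, _, _, ⟨c⟩⟩ := Y978.WQ.main p hp2
  obtain ⟨N, _, _, i, hcard, hD⟩ := Y258.WQ.mainDOWNG p E c K (by omega)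
  have hD' : Dn p E N i := hD
  obtain ⟨X, Y, Z, hX, hY0, hZ, hXYZ, hcp, h2⟩ := prep hp hx hy hz h hv
  have hs : Sol p K X Y Z := ⟨hX, hY0, hZ, hXYZ, hcp⟩
  refine case_twoB Y468.WQ.mainSYM aUNIT aUNITA Y261.WQ.main Y815.WQ.mainLAMG Y919.WQ.mainLAMA
    Y261.WQ.mainTWOG Y388.WQ.HAR.main Y655.WQ.mainCORE Y275.WQ.mainCOREA Y290.WQ.mainNORM
    Y809.WQ.mainLOC2 Y67.WQ.mainCOP c i hD' hcard h5 hW ?_ hK2 hm3 hs h2
  rcases hreg with h | h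
  · refine Or.inl fun j hj h3j hjm => ?_
    apply reg_of Y61.WQ.mainBER j hj h3j (by omega)
    intro hk
    have := h.2 _ hk
    omega
  · exact Or.inr (palK aUNITA Y261.WQ.main Y919.WQ.mainLAMA Y290.WQ.mainNORM
      (Y510.WQ.mainPOLBA Y275.WQ.mainCOREA)
      (Y590.WQ.mainPOLE Y780.WQ.mainPOLE1 Y286.WQ.mainPOLE2) Y61.WQ.mainBER c i hD' hcard
      (Or.inr h))

end Pool.Agent.Y546.WQ
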