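import Pool.Agent.Y546.WQ.Pal

/-!
# Project WG: contradictions from palindromic norm polynomials
-/

set_option autoImplicit false

namespace Pool.Agent.Y546.WQ

open NumberField IsDedekindDomain Polynomial

/-- all norm polynomials of solutions in the first case are palindromic modulo `p` -/
def PalK (p : ℕ) (K : Type) [Field K] [NumberField K] : Prop :=
  ∀ X Y Z : 𝓞 K, Sol p K X Y Z → ∀ f : Polynomial ℤ, f.natDegree ≤ Module.finrank ℚ K →
    f.coeff 0 = Algebra.norm ℤ X → f.coeff (Module.finrank ℚ K) = Algebra.norm ℤ Y →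
    (∀ t : ℤ, f.eval t = Algebra.norm ℤ (X + (t : 𝓞 K) * Y)) →
    (∀ (N : Type) [Field N] [NumberField N], Nat.card (K →+* N) = Module.finrank ℚ K →
      f.map (Int.castRingHom (𝓞 N)) = nrmP K N X Y) →
    (f.map (Int.castRingHom (ZMod p))).reflect (Module.finrank ℚ K) =
      f.map (Int.castRingHom (ZMod p))

section wieferich

variable {R : Type*} [CommRing R]

theorem pow_sub_pow_mem {p n : ℕ} (hpp : p.Prime) (P : Ideal R) (hp : ((p : ℕ) : R) ∈ P ^ n)
    (hn : n + 1 ≤ p) {a b : R} (hab : a - b ∈ P) : a ^ p - b ^ p ∈ P ^ (n + 1) := by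
  obtain ⟨r, hr⟩ := exists_add_pow_prime_eq hpp b (a - b)
  have e : a ^ p - b ^ p = (a - b) ^ p + (p * (a - b)) * (b * r) := by
    have e1 : b + (a - b) = a := by ring
    rw [e1] at hr
    linear_combination hr
  rw [e]
  refine (P ^ (n + 1)).add_mem ?_ ?_
  · exact Ideal.pow_le_pow_right hn (Ideal.pow_mem_pow hab p)
  · apply (P ^ (n + 1)).mul_mem_right
    rw [pow_succ]
    exact Ideal.mul_mem_mul hp hab

end wieferich

section

variable {p : ℕ} [Fact p.Prime] {K N : Type} [Field K] [NumberField K] [Field N] [NumberField N]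

/-- the ramification index -/
theorem exists_ram (P : Ideal (𝓞 K)) (hP : P.IsPrime) (hpP : ((p : ℕ) : 𝓞 K) ∈ P) :
    ∃ n : ℕ, n ≤ Module.finrank ℚ K ∧ ((p : ℕ) : 𝓞 K) ∈ P ^ n ∧
      ((p : ℕ) : 𝓞 K) ∉ P ^ (n + 1) := by
  classical
  have hpp : p.Prime := Fact.out
  have hbound : ∀ n : ℕ, ((p : ℕ) : 𝓞 K) ∈ P ^ n → n ≤ Module.finrank ℚ K := by
    intro n hn
    have h1 : Ideal.absNorm (P ^ n) ∣ Ideal.absNorm (Ideal.span {((p : ℕ) : 𝓞 K)}) :=
      Ideal.absNorm_dvd_absNorm_of_le ((Ideal.span_singleton_le_iff_mem _).2 hn)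
    rw [Ideal.absNorm_span_natCast, RingOfIntegers.rank, map_pow] at h1
    by_cases hn0 : n = 0
    · omega
    have h2 : Ideal.absNorm P ∣ p ^ Module.finrank ℚ K := (dvd_pow_self _ hn0).trans h1
    obtain ⟨f, -, hf⟩ := (Nat.dvd_prime_pow hpp).1 h2
    have hf0 : f ≠ 0 := by
      rintro rfl
      rw [pow_zero] at hf
      exact hP.ne_top (Ideal.absNorm_eq_one_iff.1 hf)
    rw [hf, ← pow_mul, Nat.pow_dvd_pow_iff_le_right hpp.one_lt] at h1
    calc n = 1 * n := (one_mul n).symm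
      _ ≤ f * n := Nat.mul_le_mul_right n (Nat.one_le_iff_ne_zero.2 hf0)
      _ ≤ _ := h1
  have hex : ∃ n : ℕ, ((p : ℕ) : 𝓞 K) ∉ P ^ n :=
    ⟨Module.finrank ℚ K + 1, fun h => by have := hbound _ h; omega⟩
  have h0 : Nat.find hex ≠ 0 := by
    intro h
    have h1 := Nat.find_spec hex
    rw [h, pow_zero, Ideal.one_eq_top] at h1
    exact h1 trivial
  obtain ⟨n, hn⟩ : ∃ n, Nat.find hex = n + 1 := Nat.exists_eq_succ_of_ne_zero h0
  have h2 : ((p : ℕ) : 𝓞 K) ∈ P ^ n := by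
    by_contra h
    have := Nat.find_min' hex h
    omega
  refine ⟨n, hbound n h2, h2, ?_⟩
  have h1 := Nat.find_spec hex
  rwa [hn] at h1

/-- a solution of the type `(1, 1, -2)` at a place above `p` -/
theorem wief (hmp : Module.finrank ℚ K < p) (hp2 : p ≠ 2) (hW : ¬ p ^ 2 ∣ 2 ^ (p - 1) - 1)
    (P : Ideal (𝓞 K)) (hP : P.IsPrime) (hpP : ((p : ℕ) : 𝓞 K) ∈ P)
    {X Y Z : 𝓞 K} (hs : Sol p K X Y Z) (hXY : X - Y ∈ P) :
    False := by
  have hpp : p.Prime := Fact.out
  have hodd : Odd p := hpp.odd_of_ne_two hp2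
  obtain ⟨n, hnm, hn1, hn2⟩ := exists_ram P hP hpP
  have h1 := lin_p hpp P hP hpP hs.eq
  have h2 : Z - (-2 * X) ∈ P := by
    have : Z - (-2 * X) = (X + Y + Z) + (X - Y) := by ring
    rw [this]
    exact P.add_mem h1 hXY
  have h3 := pow_sub_pow_mem hpp P hn1 (by omega) hXY
  have h4 := pow_sub_pow_mem hpp P hn1 (by omega) h2
  have h5 : X ^ p * (2 ^ p - 2) ∈ P ^ (n + 1) := by
    have e : X ^ p * (2 ^ p - 2) = (Z ^ p - (-2 * X) ^ p) - (X ^ p - Y ^ p) := by
      have e1 : (-2 * X) ^ p = -(2 ^ p * X ^ p) := by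
        rw [neg_mul, hodd.neg_pow, mul_pow]
      rw [e1]
      linear_combination -hs.eq
    rw [e]
    exact (P ^ (n + 1)).sub_mem h4 h3
  have h6 : (2 : 𝓞 K) ^ p - 2 ∈ P ^ (n + 1) := by
    rcases Ideal.IsPrime.mul_mem_pow P h5 with h | h
    · exact absurd (hP.mem_of_pow_mem p h) (hs.cp P hP hpP).1
    · exact h
  -- the Fermat quotient
  have h7 : p ∣ 2 ^ (p - 1) - 1 := by
    have h8 : ((2 ^ (p - 1) - 1 : ℕ) : ZMod p) = 0 := by
      rw [Nat.cast_sub Nat.one_le_two_pow]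
      push_cast
      rw [ZMod.pow_card_sub_one_eq_one, sub_self]
      have h : ((2 : ℕ) : ZMod p) ≠ 0 := by
        rw [Ne, ZMod.natCast_eq_zero_iff]
        intro hd
        exact hp2 ((Nat.prime_dvd_prime_iff_eq hpp Nat.prime_two).1 hd)
      exact_mod_cast h
    exact (ZMod.natCast_eq_zero_iff _ _).1 h8
  obtain ⟨v, hv⟩ := h7
  have h8 : ((2 * v : ℕ) : 𝓞 K) * (p : 𝓞 K) ∈ P ^ (n + 1) := by
    have e : ((2 * v : ℕ) : 𝓞 K) * (p : 𝓞 K) = 2 ^ p - 2 := by
      have e1 : 2 * v * p = 2 ^ p - 2 := by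
        have e2 : 2 ^ p = 2 * 2 ^ (p - 1) := by
          rw [← pow_succ']
          congr 1
          have := hpp.pos
          omega
        rw [e2, mul_assoc, mul_comm v p, ← hv, Nat.mul_sub]
      have e3 := congrArg (fun w : ℕ => (w : 𝓞 K)) e1
      have e4 : 2 ≤ 2 ^ p := by
        calc 2 = 2 ^ 1 := by norm_num
          _ ≤ 2 ^ p := Nat.pow_le_pow_right (by norm_num) hpp.one_lt.le
      simp only [Nat.cast_mul] at e3
      rw [Nat.cast_sub e4] at e3
      push_cast at e3 ⊢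
      exact e3
    rw [e]
    exact h6
  rcases Ideal.IsPrime.mul_mem_pow P h8 with h | h
  · have h9 := int_notMem P hP p hpp hpP (2 * v : ℕ) (by
      intro hd
      have hd' : p ∣ 2 * v := by exact_mod_cast hd
      rcases (Nat.Prime.dvd_mul hpp).1 hd' with h' | h'
      · exact hp2 ((Nat.prime_dvd_prime_iff_eq hpp Nat.prime_two).1 h')
      · apply hW
        rw [hv, pow_two]
        exact Nat.mul_dvd_mul_left p h')
    exact h9 (by exact_mod_cast h)
  · exact hn2 h

/-- odd degree -/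
theorem case_odd (hN : S_NORM) (hcard : Nat.card (K →+* N) = Module.finrank ℚ K)
    (hpal : PalK p K) (hmp : Module.finrank ℚ K < p) (hp2 : p ≠ 2)
    (hm : Odd (Module.finrank ℚ K))
    (hW : ¬ p ^ 2 ∣ 2 ^ (p - 1) - 1) {X Y Z : 𝓞 K}
    (hs : Sol p K X Y Z) : False := by
  have hpp : p.Prime := Fact.out
  obtain ⟨f, hdeg, hc0, hcm, hev, hf⟩ := hN K X Y
  have h1 := hpal X Y Z hs f hdeg hc0 hcm hev hf
  -- the value at minus one
  have h2 : (f.map (Int.castRingHom (ZMod p))).eval (-1) = 0 := by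
    let _ : Invertible (-1 : ZMod p) := ⟨-1, by ring, by ring⟩
    have h3 := eval₂_reflect_mul_pow (RingHom.id (ZMod p)) (-1) (Module.finrank ℚ K)
      (f.map (Int.castRingHom (ZMod p))) (natDegree_map_le.trans hdeg)
    have h4 : (⅟(-1) : ZMod p) = -1 := rfl
    rw [h4, h1, hm.neg_one_pow, eval₂_id] at h3
    have h5 : (2 : ZMod p) ≠ 0 := by
      have h : ((2 : ℕ) : ZMod p) ≠ 0 := by
        rw [Ne, ZMod.natCast_eq_zero_iff]
        intro hd
        exact hp2 ((Nat.prime_dvd_prime_iff_eq hpp Nat.prime_two).1 hd)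
      exact_mod_cast h
    have h6 : (2 : ZMod p) * (f.map (Int.castRingHom (ZMod p))).eval (-1) = 0 := by
      linear_combination -h3
    exact (mul_eq_zero.1 h6).resolve_left h5
  have h3 : (p : ℤ) ∣ Algebra.norm ℤ (X - Y) := by
    have e1 : (f.map (Int.castRingHom (ZMod p))).eval (-1) =
        (Int.castRingHom (ZMod p)) (f.eval (-1)) := by
      have : (-1 : ZMod p) = (Int.castRingHom (ZMod p)) (-1) := by simp
      rw [this, eval_map, eval₂_hom]
    rw [e1, hev] at h2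
    have e2 : X + ((-1 : ℤ) : 𝓞 K) * Y = X - Y := by
      push_cast
      ring
    rw [e2] at h2
    exact (ZMod.intCast_zmod_eq_zero_iff_dvd _ p).1 h2
  by_contra
  refine norm_coprime hcard hN p hpp (X - Y) (fun P hP hpP hXY => ?_) h3
  exact wief hmp hp2 hW P hP hpP hs hXY

/-- values of palindromic norm polynomials in a field of characteristic `p` -/
theorem pal_eval (hN : S_NORM) (hcard : Nat.card (K →+* N) = Module.finrank ℚ K)
    (hpal : PalK p K) {F : Type*} [Field F] [CharP F p] (ψ : 𝓞 N →+* F) {X Y Z : 𝓞 K}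
    (hs : Sol p K X Y Z) (t : F) (ht : t ≠ 0) :
    ∏ τ : K →+* N, (ψ (RingOfIntegers.mapRingHom τ X) + t * ψ (RingOfIntegers.mapRingHom τ Y)) =
      ∏ τ : K →+* N, (ψ (RingOfIntegers.mapRingHom τ Y) +
        t * ψ (RingOfIntegers.mapRingHom τ X)) := by
  classical
  obtain ⟨f, hdeg, hc0, hcm, hev, hf⟩ := hN K X Y
  have h1 := hpal X Y Z hs f hdeg hc0 hcm hev hf
  have hf := hf N hcard
  have key : ∀ s : F, eval₂ (ZMod.castHom (dvd_refl p) F) s (f.map (Int.castRingHom (ZMod p))) =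
      ∏ τ : K →+* N, (ψ (RingOfIntegers.mapRingHom τ X) +
        s * ψ (RingOfIntegers.mapRingHom τ Y)) := by
    intro s
    rw [eval₂_map]
    have e1 : (ZMod.castHom (dvd_refl p) F).comp (Int.castRingHom (ZMod p)) =
        ψ.comp (Int.castRingHom (𝓞 N)) := RingHom.ext_int _ _
    rw [e1, ← eval₂_map, hf]
    unfold nrmP
    rw [eval₂_finset_prod]
    refine Finset.prod_congr rfl fun τ _ => ?_
    rw [eval₂_add, eval₂_mul, eval₂_C, eval₂_C, eval₂_X]
  let _ : Invertible t := invertibleOfNonzero ht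
  have h3 := eval₂_reflect_mul_pow (ZMod.castHom (dvd_refl p) F) t (Module.finrank ℚ K)
      (f.map (Int.castRingHom (ZMod p))) (natDegree_map_le.trans hdeg)
  rw [h1, key, key, ← hcard, Nat.card_eq_fintype_card, ← Finset.card_univ, ← Finset.prod_const,
    ← Finset.prod_mul_distrib] at h3
  rw [← h3]
  refine Finset.prod_congr rfl fun τ _ => ?_
  have h4 : ⅟t * t = 1 := invOf_mul_self t
  linear_combination ψ ((RingOfIntegers.mapRingHom τ) Y) * h4

end

end Pool.Agent.Y546.WQ
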