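import Pool.Agent.Y546.WQ.Cas
import Pool.Agent.Y546.WQ.Stm3

/-!
# Project WG: cube roots of unity at `p`, and the prime two
-/

set_option autoImplicit false

namespace Pool.Agent.Y546.WQ

open NumberField IsDedekindDomain Polynomial

theorem three_card {k : Type*} [Field k] [Finite k] (u : k) (hu : u ^ 2 + u + 1 = 0)
    (h3 : (3 : k) ≠ 0) : Nat.card k % 3 = 1 := by
  have hfin : Fintype k := Fintype.ofFinite k
  have hu0 : u ≠ 0 := by
    rintro rfl
    simp at hu
  have hu1 : u ≠ 1 := by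
    rintro rfl
    apply h3
    linear_combination hu
  have hu3 : u ^ 3 = 1 := by linear_combination (u - 1) * hu
  have h1 : orderOf (Units.mk0 u hu0) = 3 := by
    apply orderOf_eq_prime
    · ext
      simpa using hu3
    · intro h
      apply hu1
      have := congrArg (fun w : kˣ => (w : k)) h
      simpa using this
  have h2 : 3 ∣ Nat.card kˣ := by
    rw [← h1]
    exact orderOf_dvd_natCard _
  rw [Nat.card_units] at h2
  have h4 : 0 < Nat.card k := Nat.card_pos
  omega

theorem exists_omega (F : Type*) [Field F] [IsAlgClosed F] : ∃ ω : F, ω ^ 2 + ω + 1 = 0 := by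
  have h : (X ^ 2 + X + 1 : Polynomial F).natDegree = 2 := by compute_degree!
  have hd : (X ^ 2 + X + 1 : Polynomial F).degree ≠ 0 := by
    intro h'
    have := natDegree_eq_zero_iff_degree_le_zero.2 h'.le
    omega
  obtain ⟨ω, hω⟩ := IsAlgClosed.exists_root _ hd
  exact ⟨ω, by simpa [IsRoot] using hω⟩

section

variable {p : ℕ} [Fact p.Prime] {K N : Type} [Field K] [NumberField K] [Field N] [NumberField N]

/-- degree prime to three: there are solutions of the type `(1, ω, ω ^ 2)` at `p` -/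
theorem case_cube (hN : S_NORM) (hcard : Nat.card (K →+* N) = Module.finrank ℚ K)
    (hpal : PalK p K) (h5 : 5 ≤ p) (hm : ¬ 3 ∣ Module.finrank ℚ K)
    (h31 : p % 3 = 1 → ∀ P P' : Ideal (𝓞 K), P.IsPrime → P'.IsPrime →
      ((p : ℕ) : 𝓞 K) ∈ P → ((p : ℕ) : 𝓞 K) ∈ P' → P = P')
    (h32 : p % 3 = 2 → ∀ P : Ideal (𝓞 K), P.IsPrime → ((p : ℕ) : 𝓞 K) ∈ P →
      Nat.card (𝓞 K ⧸ P) % 3 ≠ 1) {X Y Z : 𝓞 K} (hs : Sol p K X Y Z) : False := by
  classical
  have hpp : p.Prime := Fact.out
  have hp3 : p % 3 = 1 ∨ p % 3 = 2 := by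
    have : ¬ 3 ∣ p := by
      intro hd
      have := (Nat.prime_dvd_prime_iff_eq Nat.prime_three hpp).1 hd
      omega
    omega
  obtain ⟨Q, hQ, hQp⟩ := exists_above (K := N) p hpp
  have hQ0 : Q ≠ ⊥ := by
    rintro rfl
    rw [Ideal.mem_bot, Nat.cast_eq_zero] at hQp
    exact hpp.ne_zero hQp
  have hQm : Q.IsMaximal := hQ.isMaximal hQ0
  let _ : Field (𝓞 N ⧸ Q) := Ideal.Quotient.field Q
  have hch : CharP (𝓞 N ⧸ Q) p := charP_quot Q hQ p hpp hQp
  let F := AlgebraicClosure (𝓞 N ⧸ Q)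
  have hchF : CharP F p := charP_of_injective_algebraMap (algebraMap (𝓞 N ⧸ Q) F).injective p
  let ψ : 𝓞 N →+* F := (algebraMap (𝓞 N ⧸ Q) F).comp (Ideal.Quotient.mk Q)
  have hψ : ∀ w : 𝓞 N, ψ w = 0 ↔ w ∈ Q := by
    intro w
    constructor
    · intro h
      have h1 : algebraMap (𝓞 N ⧸ Q) F (Ideal.Quotient.mk Q w) = 0 := h
      rw [map_eq_zero_iff _ (algebraMap (𝓞 N ⧸ Q) F).injective] at h1
      exact Ideal.Quotient.eq_zero_iff_mem.1 h1
    · intro h
      show algebraMap (𝓞 N ⧸ Q) F (Ideal.Quotient.mk Q w) = 0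
      rw [Ideal.Quotient.eq_zero_iff_mem.2 h, map_zero]
  have h3F : (3 : F) ≠ 0 := by
    have h : ((3 : ℕ) : F) ≠ 0 := by
      rw [Ne, CharP.cast_eq_zero_iff F p]
      intro hd
      have := Nat.le_of_dvd (by norm_num) hd
      omega
    exact_mod_cast h
  -- a primitive cube root of unity
  obtain ⟨ω, hω⟩ : ∃ ω : F, ω ^ 2 + ω + 1 = 0 := exists_omega F
  have hω0 : ω ≠ 0 := by
    rintro h
    rw [h] at hω
    simp at hω
  have hω1 : ω ≠ 1 := by
    intro h
    rw [h] at hω
    apply h3F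
    linear_combination hω
  have hω3 : ω ^ 3 = 1 := by linear_combination (ω - 1) * hω
  -- the residues
  have hlin : ∀ τ : K →+* N, ψ (RingOfIntegers.mapRingHom τ X) +
      ψ (RingOfIntegers.mapRingHom τ Y) + ψ (RingOfIntegers.mapRingHom τ Z) = 0 := by
    intro τ
    rw [← map_add, ← map_add, hψ, ← map_add, ← map_add]
    have := lin_p hpp (Q.comap (RingOfIntegers.mapRingHom τ)) (hQ.comap _)
      (by rw [Ideal.mem_comap, map_natCast]; exact hQp) hs.eq
    exact this
  have hne : ∀ τ : K →+* N, ψ (RingOfIntegers.mapRingHom τ Y) ≠ 0 := by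
    intro τ h
    rw [hψ] at h
    exact (hs.cp (Q.comap (RingOfIntegers.mapRingHom τ)) (hQ.comap _)
      (by rw [Ideal.mem_comap, map_natCast]; exact hQp)).2.1 h
  have p1 := pal_eval hN hcard hpal ψ hs (-ω) (neg_ne_zero.2 hω0)
  have p2 := pal_eval hN hcard hpal ψ hs.rot (-ω) (neg_ne_zero.2 hω0)
  set E1 : F := ∏ τ : K →+* N, (ψ (RingOfIntegers.mapRingHom τ X) -
    ω * ψ (RingOfIntegers.mapRingHom τ Y)) with hE1
  set E2 : F := ∏ τ : K →+* N, (ψ (RingOfIntegers.mapRingHom τ X) -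
    ω ^ 2 * ψ (RingOfIntegers.mapRingHom τ Y)) with hE2
  have hprod : ∀ (r : F) (g : (K →+* N) → F), ∏ τ : K →+* N, (r * g τ) =
      r ^ Module.finrank ℚ K * ∏ τ : K →+* N, g τ := by
    intro r g
    rw [Finset.prod_mul_distrib, Finset.prod_const, Finset.card_univ, ← Nat.card_eq_fintype_card,
      hcard]
  have q1 : E1 = (-ω) ^ Module.finrank ℚ K * E2 := by
    have e1 : ∏ τ : K →+* N, (ψ (RingOfIntegers.mapRingHom τ X) +
        -ω * ψ (RingOfIntegers.mapRingHom τ Y)) = E1 :=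
      Finset.prod_congr rfl fun τ _ => by ring
    rw [← e1, p1, hE2, ← hprod]
    refine Finset.prod_congr rfl fun τ _ => ?_
    linear_combination (-ψ (RingOfIntegers.mapRingHom τ Y)) * hω3
  have q2 : ω ^ Module.finrank ℚ K * E1 = (-1) ^ Module.finrank ℚ K * E2 := by
    have e1 : ∏ τ : K →+* N, (ψ (RingOfIntegers.mapRingHom τ Y) +
        -ω * ψ (RingOfIntegers.mapRingHom τ Z)) = ω ^ Module.finrank ℚ K * E1 := by
      rw [hE1, ← hprod]
      refine Finset.prod_congr rfl fun τ _ => ?_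
      linear_combination (-ω) * hlin τ + ψ (RingOfIntegers.mapRingHom τ Y) * hω
    have e2 : ∏ τ : K →+* N, (ψ (RingOfIntegers.mapRingHom τ Z) +
        -ω * ψ (RingOfIntegers.mapRingHom τ Y)) = (-1) ^ Module.finrank ℚ K * E2 := by
      rw [hE2, ← hprod]
      refine Finset.prod_congr rfl fun τ _ => ?_
      linear_combination hlin τ - ψ (RingOfIntegers.mapRingHom τ Y) * hω
    rw [← e1, ← e2, p2]
  have q3 : (ω ^ (2 * Module.finrank ℚ K) - 1) * E1 = 0 := by
    have e1 : (-ω) ^ Module.finrank ℚ K * E2 =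
        ω ^ Module.finrank ℚ K * (ω ^ Module.finrank ℚ K * E1) := by
      rw [q2, neg_pow]
      ring
    rw [two_mul, pow_add]
    linear_combination -e1 - q1
  have q4 : ω ^ (2 * Module.finrank ℚ K) - 1 ≠ 0 := by
    intro h
    have h1 : ω ^ (2 * Module.finrank ℚ K) = 1 := sub_eq_zero.1 h
    have h2 : orderOf ω = 3 := orderOf_eq_prime hω3 hω1
    have h3 := orderOf_dvd_of_pow_eq_one h1
    rw [h2] at h3
    apply hm
    exact (Nat.Coprime.dvd_of_dvd_mul_left (by norm_num) h3)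
  have q5 : E1 = 0 := (mul_eq_zero.1 q3).resolve_left q4
  have q6 : E2 = 0 := by
    rw [q5] at q1
    exact (mul_eq_zero.1 q1.symm).resolve_left (pow_ne_zero _ (neg_ne_zero.2 hω0))
  obtain ⟨τ1, -, h1⟩ := Finset.prod_eq_zero_iff.1 q5
  obtain ⟨τ2, -, h2⟩ := Finset.prod_eq_zero_iff.1 q6
  have hP : ∀ τ : K →+* N, (Q.comap (RingOfIntegers.mapRingHom τ)).IsPrime := fun τ => hQ.comap _
  have hPp : ∀ τ : K →+* N, ((p : ℕ) : 𝓞 K) ∈ Q.comap (RingOfIntegers.mapRingHom τ) := by
    intro τ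
    rw [Ideal.mem_comap, map_natCast]
    exact hQp
  rcases hp3 with h | h
  · -- the cube root of unity lies in the prime field
    obtain ⟨w, hw⟩ : ∃ w : ℤ, (w : F) = ω := by
      have h4 : 3 ∣ Fintype.card (ZMod p)ˣ := by
        rw [ZMod.card_units]
        have := hpp.pos
        omega
      obtain ⟨g, hg⟩ := exists_prime_orderOf_dvd_card 3 h4
      have hg3 : (g : ZMod p) ^ 3 = 1 := by
        have : g ^ 3 = 1 := by rw [← hg]; exact pow_orderOf_eq_one g
        have := congrArg (fun u : (ZMod p)ˣ => (u : ZMod p)) this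
        simpa using this
      have hg1 : (g : ZMod p) ≠ 1 := by
        intro h5
        have : g = 1 := Units.ext h5
        rw [this, orderOf_one] at hg
        norm_num at hg
      have hgg : (g : ZMod p) ^ 2 + g + 1 = 0 := by
        have h6 : ((g : ZMod p) - 1) * ((g : ZMod p) ^ 2 + g + 1) = 0 := by
          linear_combination hg3
        exact (mul_eq_zero.1 h6).resolve_left (sub_ne_zero.2 hg1)
      obtain ⟨v, hv⟩ := ZMod.intCast_surjective (g : ZMod p)
      have h7 : ((v : F)) ^ 2 + v + 1 = 0 := by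
        have := congrArg (ZMod.castHom (dvd_refl p) F) hgg
        rw [← hv] at this
        simpa using this
      have h8 : (ω - v) * (ω - (-1 - v)) = 0 := by
        linear_combination hω - h7
      rcases mul_eq_zero.1 h8 with h9 | h9
      · exact ⟨v, (sub_eq_zero.1 h9).symm⟩
      · refine ⟨-1 - v, ?_⟩
        push_cast
        exact (sub_eq_zero.1 h9).symm
    have hPP := h31 h _ _ (hP τ1) (hP τ2) (hPp τ1) (hPp τ2)
    have m1 : X - w * Y ∈ Q.comap (RingOfIntegers.mapRingHom τ1) := by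
      rw [Ideal.mem_comap, ← hψ, map_sub, map_mul, map_sub, map_mul, map_intCast, map_intCast, hw]
      exact h1
    have m2 : X - w ^ 2 * Y ∈ Q.comap (RingOfIntegers.mapRingHom τ1) := by
      rw [hPP, Ideal.mem_comap, ← hψ, map_sub, map_mul, map_pow, map_sub, map_mul, map_pow,
        map_intCast, map_intCast, hw]
      exact h2
    have m3 : ((w - w ^ 2 : ℤ) : 𝓞 K) * Y ∈ Q.comap (RingOfIntegers.mapRingHom τ1) := by
      have e : ((w - w ^ 2 : ℤ) : 𝓞 K) * Y = (X - w ^ 2 * Y) - (X - w * Y) := by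
        push_cast
        ring
      rw [e]
      exact Ideal.sub_mem _ m2 m1
    rcases (hP τ1).mem_or_mem m3 with m4 | m4
    · rw [Ideal.mem_comap, ← hψ, map_intCast, map_intCast] at m4
      push_cast at m4
      rw [hw] at m4
      have m5 : ω * (1 - ω) = 0 := by linear_combination m4
      rcases mul_eq_zero.1 m5 with m6 | m6
      · exact hω0 m6
      · exact hω1 (sub_eq_zero.1 m6).symm
    · exact (hs.cp _ (hP τ1) (hPp τ1)).2.1 m4
  · -- the residue field contains a cube root of unity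
    set P := Q.comap (RingOfIntegers.mapRingHom τ1) with hPd
    have hP0 : P ≠ ⊥ := by
      intro h0
      have := hPp τ1
      rw [← hPd, h0, Ideal.mem_bot, Nat.cast_eq_zero] at this
      exact hpp.ne_zero this
    have hPm : P.IsMaximal := (hP τ1).isMaximal hP0
    let _ : Field (𝓞 K ⧸ P) := Ideal.Quotient.field P
    have hfin : Finite (𝓞 K ⧸ P) := Ideal.finiteQuotientOfFreeOfNeBot P hP0
    have hchP : CharP (𝓞 K ⧸ P) p := charP_quot P (hP τ1) p hpp (hPp τ1)
    have h3P : (3 : 𝓞 K ⧸ P) ≠ 0 := by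
      have h : ((3 : ℕ) : 𝓞 K ⧸ P) ≠ 0 := by
        rw [Ne, CharP.cast_eq_zero_iff (𝓞 K ⧸ P) p]
        intro hd
        have := Nat.le_of_dvd (by norm_num) hd
        omega
      exact_mod_cast h
    have hY : (Ideal.Quotient.mk P Y) ≠ 0 := by
      intro h0
      exact (hs.cp _ (hP τ1) (hPp τ1)).2.1 (Ideal.Quotient.eq_zero_iff_mem.1 h0)
    have hmem : X ^ 2 + X * Y + Y ^ 2 ∈ P := by
      rw [hPd, Ideal.mem_comap, ← hψ]
      simp only [map_add, map_mul, map_pow]
      have h1' : ψ (RingOfIntegers.mapRingHom τ1 X) = ω * ψ (RingOfIntegers.mapRingHom τ1 Y) :=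
        sub_eq_zero.1 h1
      rw [h1']
      linear_combination (ψ (RingOfIntegers.mapRingHom τ1 Y)) ^ 2 * hω
    refine h32 h P (hP τ1) (hPp τ1) (three_card ((Ideal.Quotient.mk P X) /
      (Ideal.Quotient.mk P Y)) ?_ h3P)
    have h4 : (Ideal.Quotient.mk P X) ^ 2 + (Ideal.Quotient.mk P X) * (Ideal.Quotient.mk P Y) +
        (Ideal.Quotient.mk P Y) ^ 2 = 0 := by
      rw [← map_pow, ← map_pow, ← map_mul, ← map_add, ← map_add]
      exact Ideal.Quotient.eq_zero_iff_mem.2 hmem
    field_simp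
    linear_combination h4

end

end Pool.Agent.Y546.WQ
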