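import Pool.Agent.Y546.WQ.All

/-!
# Project WH: fields with one prime above `p`
-/

set_option autoImplicit false

namespace Pool.Agent.Y546.WQ

open NumberField IsDedekindDomain Polynomial

/-- two elements of a finite field which are conjugate in an extension are conjugate -/
theorem conj_fin {p : ℕ} [Fact p.Prime] {k F : Type*} [Field k] [Finite k] [Field F]
    [Algebra (ZMod p) k] [Algebra (ZMod p) F] (i j : k →+* F) (a b : k) (h : i a = j b) :
    ∃ σ : k ≃ₐ[ZMod p] k, b = σ a := by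
  have hc : ∀ l : k →+* F, ∀ r : ZMod p, l (algebraMap (ZMod p) k r) = algebraMap (ZMod p) F r := by
    intro l r
    exact DFunLike.congr_fun (Subsingleton.elim (l.comp (algebraMap (ZMod p) k))
      (algebraMap (ZMod p) F)) r
  let i' : k →ₐ[ZMod p] F := { i with commutes' := hc i }
  let j' : k →ₐ[ZMod p] F := { j with commutes' := hc j }
  have h1 : minpoly (ZMod p) (i' a) = minpoly (ZMod p) a :=
    minpoly.algHom_eq i' i'.toRingHom.injective a
  have h2 : minpoly (ZMod p) (j' b) = minpoly (ZMod p) b :=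
    minpoly.algHom_eq j' j'.toRingHom.injective b
  have h3 : IsConjRoot (ZMod p) a b := by
    unfold IsConjRoot
    rw [← h1, ← h2]
    exact congrArg _ h
  obtain ⟨σ, hσ⟩ := isConjRoot_iff_exists_algEquiv.1 h3.symm
  exact ⟨σ, hσ.symm⟩

section

variable {p : ℕ} [Fact p.Prime] {K N : Type} [Field K] [NumberField K] [Field N] [NumberField N]

/-- one prime above `p`: the residues are of the type `(1, ω, ω ^ 2)` -/
theorem case_unique (hN : S_NORM) (hcard : Nat.card (K →+* N) = Module.finrank ℚ K)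
    (hpal : PalK p K) (h5 : 5 ≤ p)
    (huniq : ∀ P P' : Ideal (𝓞 K), P.IsPrime → P'.IsPrime →
      ((p : ℕ) : 𝓞 K) ∈ P → ((p : ℕ) : 𝓞 K) ∈ P' → P = P')
    (h32 : p % 3 = 2 → ∀ P : Ideal (𝓞 K), P.IsPrime → ((p : ℕ) : 𝓞 K) ∈ P →
      Nat.card (𝓞 K ⧸ P) % 3 ≠ 1) {X Y Z : 𝓞 K} (hs : Sol p K X Y Z) : False := by
  classical
  have hpp : p.Prime := Fact.out
  have hp3 : p % 3 = 1 ∨ p % 3 = 2 := by
    have : ¬ 3 ∣ p := by
      intro hd
      have := (Nat.prime_dvd_prime_iff_eq Nat.prime_three hpp).1 hd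
      omega
    omega
  obtain ⟨Q, hQ, hQp⟩ := exists_above (K := N) p hpp
  have hQ0 : Q ≠ ⊥ := by
    rintro rfl
    rw [Ideal.mem_bot, Nat.cast_eq_zero] at hQp
    exact hpp.ne_zero hQp
  have hQm : Q.IsMaximal := hQ.isMaximal hQ0
  let _ : Field (𝓞 N ⧸ Q) := Ideal.Quotient.field Q
  have hchF : CharP (𝓞 N ⧸ Q) p := charP_quot Q hQ p hpp hQp
  let _ : Algebra (ZMod p) (𝓞 N ⧸ Q) := ZMod.algebra _ p
  let ψ : 𝓞 N →+* (𝓞 N ⧸ Q) := Ideal.Quotient.mk Q
  have hψ : ∀ w : 𝓞 N, ψ w = 0 ↔ w ∈ Q := fun w => Ideal.Quotient.eq_zero_iff_mem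
  -- the prime of K
  obtain ⟨P, hP, hPp⟩ := exists_above (K := K) p hpp
  have hP0 : P ≠ ⊥ := by
    rintro rfl
    rw [Ideal.mem_bot, Nat.cast_eq_zero] at hPp
    exact hpp.ne_zero hPp
  have hPm : P.IsMaximal := hP.isMaximal hP0
  let _ : Field (𝓞 K ⧸ P) := Ideal.Quotient.field P
  have hfin : Finite (𝓞 K ⧸ P) := Ideal.finiteQuotientOfFreeOfNeBot P hP0
  have hchP : CharP (𝓞 K ⧸ P) p := charP_quot P hP p hpp hPp
  let _ : Algebra (ZMod p) (𝓞 K ⧸ P) := ZMod.algebra _ p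
  have hcom : ∀ τ : K →+* N, P = Q.comap (RingOfIntegers.mapRingHom τ) := fun τ =>
    huniq _ _ hP (hQ.comap _) hPp (by rw [Ideal.mem_comap, map_natCast]; exact hQp)
  have hex : ∀ τ : K →+* N, ∃ i : (𝓞 K ⧸ P) →+* (𝓞 N ⧸ Q), ∀ w : 𝓞 K,
      i (Ideal.Quotient.mk P w) = ψ (RingOfIntegers.mapRingHom τ w) := by
    intro τ
    refine ⟨Ideal.Quotient.lift P (ψ.comp (RingOfIntegers.mapRingHom τ)) ?_, fun w => ?_⟩
    · intro a ha
      rw [hcom τ, Ideal.mem_comap] at ha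
      exact (hψ _).2 ha
    · rw [Ideal.Quotient.lift_mk]
      rfl
  choose i hi using hex
  set x : 𝓞 K ⧸ P := Ideal.Quotient.mk P X with hx
  set y : 𝓞 K ⧸ P := Ideal.Quotient.mk P Y with hy
  set z : 𝓞 K ⧸ P := Ideal.Quotient.mk P Z with hz
  obtain ⟨c1, c2, c3⟩ := hs.cp P hP hPp
  have hx0 : x ≠ 0 := fun h => c1 (Ideal.Quotient.eq_zero_iff_mem.1 h)
  have hy0 : y ≠ 0 := fun h => c2 (Ideal.Quotient.eq_zero_iff_mem.1 h)
  have hz0 : z ≠ 0 := fun h => c3 (Ideal.Quotient.eq_zero_iff_mem.1 h)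
  have hlin : x + y + z = 0 := by
    rw [hx, hy, hz, ← map_add, ← map_add]
    exact Ideal.Quotient.eq_zero_iff_mem.2 (lin_p hpp P hP hPp hs.eq)
  -- there is an embedding
  have hne : Nonempty (K →+* N) := by
    have h1 := Module.finrank_pos (R := ℚ) (M := K)
    rw [← hcard] at h1
    exact (Nat.card_pos_iff.1 h1).1
  obtain ⟨τ0⟩ := hne
  have key : ∀ {U V W : 𝓞 K}, Sol p K U V W → ∃ τ : K →+* N,
      i τ0 (Ideal.Quotient.mk P U / Ideal.Quotient.mk P V) =
        i τ (Ideal.Quotient.mk P V / Ideal.Quotient.mk P U) := by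
    intro U V W s
    obtain ⟨d1, d2, -⟩ := s.cp P hP hPp
    have hu0 : Ideal.Quotient.mk P U ≠ 0 := fun h => d1 (Ideal.Quotient.eq_zero_iff_mem.1 h)
    have hv0 : Ideal.Quotient.mk P V ≠ 0 := fun h => d2 (Ideal.Quotient.eq_zero_iff_mem.1 h)
    have iu : ∀ τ, i τ (Ideal.Quotient.mk P U) ≠ 0 := fun τ =>
      (map_ne_zero_iff _ (i τ).injective).2 hu0
    have iv : ∀ τ, i τ (Ideal.Quotient.mk P V) ≠ 0 := fun τ =>
      (map_ne_zero_iff _ (i τ).injective).2 hv0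
    have h1 := pal_eval hN hcard hpal ψ s
      (-(i τ0 (Ideal.Quotient.mk P U) / i τ0 (Ideal.Quotient.mk P V)))
      (neg_ne_zero.2 (div_ne_zero (iu τ0) (iv τ0)))
    have h2 : ∏ τ : K →+* N, (ψ (RingOfIntegers.mapRingHom τ U) +
        -(i τ0 (Ideal.Quotient.mk P U) / i τ0 (Ideal.Quotient.mk P V)) *
          ψ (RingOfIntegers.mapRingHom τ V)) = 0 := by
      apply Finset.prod_eq_zero (Finset.mem_univ τ0)
      rw [← hi, ← hi]
      have := iv τ0
      field_simp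
      ring
    rw [h2] at h1
    obtain ⟨τ, -, h3⟩ := Finset.prod_eq_zero_iff.1 h1.symm
    refine ⟨τ, ?_⟩
    rw [← hi, ← hi] at h3
    rw [map_div₀, map_div₀]
    have e1 := iu τ0
    have e2 := iv τ0
    have e3 := iu τ
    have e4 := iv τ
    rw [eq_div_iff e3]
    linear_combination -h3
  obtain ⟨τ1, k1⟩ := key hs
  obtain ⟨τ2, k2⟩ := key hs.rot
  rw [← hx, ← hy] at k1
  rw [← hy, ← hz] at k2
  obtain ⟨σ1, s1⟩ := conj_fin (p := p) (i τ0) (i τ1) _ _ k1
  obtain ⟨σ2, s2⟩ := conj_fin (p := p) (i τ0) (i τ2) _ _ k2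
  set t : 𝓞 K ⧸ P := x / y with ht
  have ht0 : t ≠ 0 := div_ne_zero hx0 hy0
  have hxt : x = t * y := by rw [ht]; field_simp
  have hzt : z = -(1 + t) * y := by linear_combination hlin - hxt
  have ht1 : 1 + t ≠ 0 := by
    intro h
    apply hz0
    rw [hzt, h]
    ring
  have s1' : σ1 t = t⁻¹ := by
    rw [← s1, ht, inv_div]
  have s2' : σ2 (-(1 + t))⁻¹ = -(1 + t) := by
    have e1 : y / z = (-(1 + t))⁻¹ := by
      rw [hzt]
      field_simp
    have e2 : z / y = -(1 + t) := by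
      rw [hzt]
      field_simp
    rw [← e1, ← s2, e2]
  have s3 : σ2 t = -t / (1 + t) := by
    have e1 : (-(1 + σ2 t))⁻¹ = -(1 + t) := by
      rw [map_inv₀, map_neg, map_add, map_one] at s2'
      exact s2'
    have e2 : -(1 + σ2 t) = (-(1 + t))⁻¹ := by rw [← e1, inv_inv]
    rw [eq_div_iff ht1]
    have e3 : (-(1 + t))⁻¹ * (-(1 + t)) = 1 := inv_mul_cancel₀ (neg_ne_zero.2 ht1)
    rw [← e2] at e3
    linear_combination e3
  have hcomm : σ1 (σ2 t) = σ2 (σ1 t) := by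
    have h1 : σ1 * σ2 = σ2 * σ1 := by
      let _ : CommGroup ((𝓞 K ⧸ P) ≃ₐ[ZMod p] (𝓞 K ⧸ P)) := IsCyclic.commGroup
      exact mul_comm σ1 σ2
    exact DFunLike.congr_fun h1 t
  have hω : t ^ 2 + t + 1 = 0 := by
    rw [s1', s3, map_div₀, map_neg, map_add, map_one, s1', map_inv₀, s3] at hcomm
    have h2 : t + 1 ≠ 0 := by rwa [add_comm]
    have h3 : 1 + t⁻¹ = (t + 1) / t := by field_simp
    rw [h3] at hcomm
    field_simp at hcomm
    have h4 : t = (1 + t) * (t + 1) := by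
      linear_combination -hcomm
    linear_combination -h4
  rcases hp3 with h | h
  · -- the cube root of unity lies in the prime field
    obtain ⟨g, hg⟩ : ∃ g : ZMod p, g ^ 2 + g + 1 = 0 := by
      have h4 : 3 ∣ Fintype.card (ZMod p)ˣ := by
        rw [ZMod.card_units]
        have := hpp.pos
        omega
      obtain ⟨g, hg⟩ := exists_prime_orderOf_dvd_card 3 h4
      have hg3 : (g : ZMod p) ^ 3 = 1 := by
        have : g ^ 3 = 1 := by rw [← hg]; exact pow_orderOf_eq_one g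
        have := congrArg (fun u : (ZMod p)ˣ => (u : ZMod p)) this
        simpa using this
      have hg1 : (g : ZMod p) ≠ 1 := by
        intro h5
        have : g = 1 := Units.ext h5
        rw [this, orderOf_one] at hg
        norm_num at hg
      refine ⟨g, ?_⟩
      have h6 : ((g : ZMod p) - 1) * ((g : ZMod p) ^ 2 + g + 1) = 0 := by
        linear_combination hg3
      exact (mul_eq_zero.1 h6).resolve_left (sub_ne_zero.2 hg1)
    have h7 := congrArg (algebraMap (ZMod p) (𝓞 K ⧸ P)) hg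
    rw [map_add, map_add, map_pow, map_one, map_zero] at h7
    have h8 : (t - algebraMap (ZMod p) (𝓞 K ⧸ P) g) *
        (t - (-1 - algebraMap (ZMod p) (𝓞 K ⧸ P) g)) = 0 := by
      linear_combination hω - h7
    have h9 : σ1 t = t := by
      rcases mul_eq_zero.1 h8 with h9 | h9
      · rw [sub_eq_zero.1 h9, AlgEquiv.commutes]
      · rw [sub_eq_zero.1 h9, map_sub, map_neg, map_one, AlgEquiv.commutes]
    rw [s1'] at h9
    have h10 : t * t = 1 := by
      nth_rewrite 1 [← h9]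
      exact inv_mul_cancel₀ ht0
    have h11 : t = -2 := by linear_combination hω - h10
    have h12 : (3 : 𝓞 K ⧸ P) = 0 := by
      rw [h11] at h10
      linear_combination h10
    have h13 : ((3 : ℕ) : 𝓞 K ⧸ P) = 0 := by exact_mod_cast h12
    rw [CharP.cast_eq_zero_iff (𝓞 K ⧸ P) p] at h13
    have := Nat.le_of_dvd (by norm_num) h13
    omega
  · refine h32 h P hP hPp (three_card t hω ?_)
    intro h12
    have h13 : ((3 : ℕ) : 𝓞 K ⧸ P) = 0 := by exact_mod_cast h12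
    rw [CharP.cast_eq_zero_iff (𝓞 K ⧸ P) p] at h13
    have := Nat.le_of_dvd (by norm_num) h13
    omega

end

/-- the first case under conditions at the primes above `p` -/
theorem mainCube {p : ℕ} (hp : p.Prime) {K : Type} [Field K] [NumberField K]
    (hreg : (2 * Module.finrank ℚ K + 3 ≤ p ∧ ∀ k ∈ irr p, k + 2 * Module.finrank ℚ K + 1 < p) ∨
      Module.finrank ℚ K * (((irr p).card + 1) * ((irr p).card + 2)) + 3 ≤ p)
    (hK : (∀ P P' : Ideal (𝓞 K), P.IsPrime → P'.IsPrime →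
      ((p : ℕ) : 𝓞 K) ∈ P → ((p : ℕ) : 𝓞 K) ∈ P' → P = P') ∨
      (¬ 3 ∣ Module.finrank ℚ K ∧ p % 3 = 2))
    (h32 : p % 3 = 2 → ∀ P : Ideal (𝓞 K), P.IsPrime → ((p : ℕ) : 𝓞 K) ∈ P →
      Nat.card (𝓞 K ⧸ P) % 3 ≠ 1)
    {x y z : K} (hx : x ≠ 0) (hy : y ≠ 0) (hz : z ≠ 0) (h : x ^ p + y ^ p + z ^ p = 0)
    (hv : ∀ v : HeightOneSpectrum (𝓞 K), ((p : ℕ) : 𝓞 K) ∈ v.asIdeal →
      v.valuation K x = v.valuation K y ∧ v.valuation K y = v.valuation K z) : False := by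
  have hfact : Fact p.Prime := ⟨hp⟩
  have hm := Module.finrank_pos (R := ℚ) (M := K)
  have h5 : 2 * Module.finrank ℚ K + 3 ≤ p := by
    rcases hreg with h | h
    · exact h.1
    · have e : 2 ≤ ((irr p).card + 1) * ((irr p).card + 2) := by nlinarith [(irr p).card.zero_le]
      have := Nat.mul_le_mul_left (Module.finrank ℚ K) e
      omega
  have hp2 : p ≠ 2 := by omega
  obtain ⟨E, _, _, ⟨c⟩⟩ := Y978.WQ.main p hp2
  obtain ⟨N, _, _, i, hcard, hD⟩ := Y258.WQ.mainDOWNG p E c K (by omega)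
  have hD' : Dn p E N i := hD
  obtain ⟨X, Y, Z, hX, hY0, hZ, hXYZ, hcp, h2⟩ := prep hp hx hy hz h hv
  have hs : Sol p K X Y Z := ⟨hX, hY0, hZ, hXYZ, hcp⟩
  have hpal : PalK p K := palK aUNITA Y261.WQ.main Y919.WQ.mainLAMA Y290.WQ.mainNORM
    (Y510.WQ.mainPOLBA Y275.WQ.mainCOREA) (Y590.WQ.mainPOLE Y780.WQ.mainPOLE1 Y286.WQ.mainPOLE2)
    Y61.WQ.mainBER c i hD' hcard hreg
  rcases hK with h3 | ⟨h3, h4⟩
  · exact case_unique Y290.WQ.mainNORM hcard hpal (by omega) h3 h32 hs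
  · exact case_cube Y290.WQ.mainNORM hcard hpal (by omega) h3 (fun h => by omega) h32 hs

end Pool.Agent.Y546.WQ
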