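import Pool.Agent.Y546.WQ.Cas3

/-!
# Project WH: palindromic norm polynomials from the relations of all Jacobi sums
-/

set_option autoImplicit false

namespace Pool.Agent.Y546.WQ

open NumberField IsDedekindDomain Polynomial

/-- the even indices `k ≤ p - 3` for which `p` divides the numerator of the Bernoulli number -/
def irr (p : ℕ) : Finset ℕ :=
  (Finset.range p).filter fun k => Even k ∧ 2 ≤ k ∧ k + 3 ≤ p ∧
    (p : ℤ) ∣ (_root_.bernoulli k).num

section

variable {p : ℕ} [Fact p.Prime] {E : Type} [Field E] [NumberField E]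
  {K N : Type} [Field K] [NumberField K] [Field N] [NumberField N]

/-- the Stickelberger relations for a value of an integer polynomial -/
theorem relGA (hU : S_UNITA) (hp2 : p ≠ 2) (a : ℕ) (ha : 0 < a) (hap : a + 2 ≤ p)
    (c : Cyc p E) (f : Polynomial ℤ) (n : ℤ)
    (hpn : ¬ (p : ℤ) ∣ n) (hp1 : ¬ (p : ℤ) ∣ f.eval 1) (h0 : aeval c.z f ≠ 0)
    (hv : ∀ P : HeightOneSpectrum (𝓞 E), ∃ m : ℤ, P.valuation E (aeval c.z f) =
      P.valuation E ((n : ℤ) : E) * WithZero.exp ((p : ℤ) * m)) :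
    ∃ g : E, g ≠ 0 ∧ ∃ i : ℕ, tha c a (aeval c.z f / (n : E)) = c.z ^ i * g ^ p := by
  have hpp : p.Prime := Fact.out
  have hn0 : (n : E) ≠ 0 := by
    intro h1
    have : n = 0 := by exact_mod_cast h1
    exact hpn (this ▸ dvd_zero _)
  obtain ⟨w, hwz, hw⟩ := exists_zint c
  have hΛ : algebraMap (𝓞 E) E (aeval w f) = aeval c.z f := by
    have hwz' : algebraMap (𝓞 E) E w = c.z := hwz
    rw [← hwz']
    exact (aeval_algebraMap_apply E w f).symm
  refine hU p hp2 a ha hap E c (aeval c.z f / n) (div_ne_zero h0 hn0) ?_ ?_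
  · intro P
    obtain ⟨m, hm⟩ := hv P
    refine ⟨m, ?_⟩
    rw [map_div₀, hm, mul_comm, mul_div_assoc, div_self, mul_one]
    exact (Valuation.ne_zero_iff _).2 hn0
  · intro P hP
    rw [map_div₀, ← hΛ]
    have h1 : P.valuation E (((n : ℤ) : E)) = 1 := by
      have := val_one P ((n : ℤ) : 𝓞 E) (int_notMem P.asIdeal P.isPrime p hpp hP n hpn)
      simpa using this
    have h2 : P.valuation E (algebraMap (𝓞 E) E (aeval w f)) = 1 := by
      apply val_one
      intro h3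
      apply int_notMem P.asIdeal P.isPrime p hpp hP (f.eval 1) hp1
      have h4 : w - 1 ∣ aeval w f - ((f.eval 1 : ℤ) : 𝓞 E) := by
        have h5 := sub_dvd_eval_sub w 1 (f.map (algebraMap ℤ (𝓞 E)))
        rw [eval_map_algebraMap, eval_map_algebraMap] at h5
        have h6 : aeval (1 : 𝓞 E) f = ((f.eval 1 : ℤ) : 𝓞 E) := by
          have e2 := aeval_algebraMap_apply (𝓞 E) (1 : ℤ) f
          rw [map_one] at e2
          rw [e2]
          rfl
        rwa [h6] at h5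
      obtain ⟨d, hd⟩ := h4
      have h7 : ((f.eval 1 : ℤ) : 𝓞 E) = aeval w f + d * (1 - w) := by
        linear_combination -hd
      rw [h7]
      exact P.asIdeal.add_mem h3
        (P.asIdeal.mul_mem_left _ (one_sub_mem w hw.pow_eq_one P.asIdeal P.isPrime hP))
    rw [h1, h2, div_one]

/-- all norm polynomials satisfy all relations -/
theorem rel_of_sol (hU : S_UNITA) (hI : S_IDE) (hL : S_LAMA) (hN : S_NORM) (c : Cyc p E)
    (i : E →+* N) (hD : Dn p E N i) (hcard : Nat.card (K →+* N) = Module.finrank ℚ K)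
    (hp2 : p ≠ 2) {X Y Z : 𝓞 K} (hs : Sol p K X Y Z) (f : Polynomial ℤ)
    (hdeg : f.natDegree ≤ Module.finrank ℚ K) (hc0 : f.coeff 0 = Algebra.norm ℤ X)
    (hcm : f.coeff (Module.finrank ℚ K) = Algebra.norm ℤ Y)
    (hev : ∀ t : ℤ, f.eval t = Algebra.norm ℤ (X + (t : 𝓞 K) * Y))
    (hf : f.map (Int.castRingHom (𝓞 N)) = nrmP K N X Y) :
    Rel p (f.map (Int.castRingHom (ZMod p))) := by
  obtain ⟨b1, b2, b3, b4, b5⟩ := base hN hcard hs f hdeg hc0 hcm hev
  obtain ⟨h1, h2, h3⟩ := fldG hI hp2 c i hD X Y Z hs.X0 hs.Y0 hs.Z0 hs.eq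
    (fun P hP hpP => (hs.cp P hP hpP).2.2) f hf
  intro a ha hap
  obtain ⟨g, hg, k, hk⟩ := relGA hU hp2 a ha hap c f (f.eval 1) b5 b5 h1 h3
  obtain ⟨r, hr, hdv⟩ := hL p hp2 a ha hap E c f (f.eval 1) b5 b5 g hg k hk
  exact ⟨k, r, hr, hdv⟩

/-- regular indices -/
theorem reg_of (hB : S_BER) (j : ℕ) (hj : Odd j) (h3 : 3 ≤ j) (hjp : j + 2 ≤ p)
    (hk : p - j ∉ irr p) : Reg p j := by
  have hpp : p.Prime := Fact.out
  by_contra hcon
  apply hk
  have hodd : Odd p := hpp.odd_of_ne_two (by omega)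
  have he : Even (p - j) := Nat.Odd.sub_odd hodd hj
  unfold irr
  rw [Finset.mem_filter, Finset.mem_range]
  refine ⟨by omega, he, by omega, by omega, ?_⟩
  apply hB p (p - j) he (by omega) (by omega)
  rwa [Nat.sub_sub_self (by omega)]

/-- all norm polynomials of solutions in the first case are palindromic -/
theorem palK (hU : S_UNITA) (hI : S_IDE) (hL : S_LAMA) (hN : S_NORM) (hP : S_POLBA)
    (hE : S_POLE) (hB : S_BER) (c : Cyc p E) (i : E →+* N) (hD : Dn p E N i)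
    (hcard : Nat.card (K →+* N) = Module.finrank ℚ K)
    (hreg : (2 * Module.finrank ℚ K + 3 ≤ p ∧ ∀ k ∈ irr p, k + 2 * Module.finrank ℚ K + 1 < p) ∨
      Module.finrank ℚ K * (((irr p).card + 1) * ((irr p).card + 2)) + 3 ≤ p) :
    PalK p K := by
  have hpp : p.Prime := Fact.out
  have hm := Module.finrank_pos (R := ℚ) (M := K)
  intro X Y Z hs f hdeg hc0 hcm hev hf
  have h5 : 2 * Module.finrank ℚ K + 3 ≤ p := by
    rcases hreg with h | h
    · exact h.1
    · have e : 2 ≤ ((irr p).card + 1) * ((irr p).card + 2) := by nlinarith [(irr p).card.zero_le]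
      have := Nat.mul_le_mul_left (Module.finrank ℚ K) e
      omega
  have hp2 : p ≠ 2 := by omega
  obtain ⟨b1, b2, b3, b4, b5⟩ := base hN hcard hs f hdeg hc0 hcm hev
  have hrel := rel_of_sol hU hI hL hN c i hD hcard hp2 hs f hdeg hc0 hcm hev (hf N hcard)
  rcases hreg with h | h
  · refine hP p _ _ h5 b1 b2 b3 b4 hrel fun j hj h3j hjm => ?_
    apply reg_of hB j hj h3j (by omega)
    intro hk
    have := h.2 _ hk
    omega
  · refine hE p _ _ ((irr p).image fun k => p - k) hm b1 b2 b3 b4 hrel ?_ ?_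
    · intro j hj h3j hjp hjJ
      apply reg_of hB j hj h3j hjp
      intro hk
      apply hjJ
      rw [Finset.mem_image]
      exact ⟨p - j, hk, by omega⟩
    · have e : ((irr p).image fun k => p - k).card ≤ (irr p).card := Finset.card_image_le
      have e2 : (((irr p).image fun k => p - k).card + 1) *
          (((irr p).image fun k => p - k).card + 2) ≤ ((irr p).card + 1) * ((irr p).card + 2) :=
        Nat.mul_le_mul (by omega) (by omega)
      have := Nat.mul_le_mul_left (Module.finrank ℚ K) e2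
      omega

end

/-- the main theorem -/
theorem mainK (hCY : S_CYC) (hDN : S_DOWNG) (hU : S_UNITA) (hI : S_IDE) (hL : S_LAMA)
    (hN : S_NORM) (hP : S_POLBA) (hE : S_POLE) (hB : S_BER) (hU1 : S_UNIT) (hL1 : S_LAMG)
    (hT : S_TWOG) (hH : S_HAR) (hY : S_SYM) (hL2 : S_LOC2) (hC : S_COP)
    {p : ℕ} (hp : p.Prime) {K : Type} [Field K] [NumberField K]
    (hreg : (2 * Module.finrank ℚ K + 3 ≤ p ∧ ∀ k ∈ irr p, k + 2 * Module.finrank ℚ K + 1 < p) ∨
      Module.finrank ℚ K * (((irr p).card + 1) * ((irr p).card + 2)) + 3 ≤ p)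
    (hK : (Odd (Module.finrank ℚ K) ∧ ¬ p ^ 2 ∣ 2 ^ (p - 1) - 1) ∨
      (¬ 3 ∣ Module.finrank ℚ K ∧ ¬ p ^ 2 ∣ 2 ^ (p - 1) - 1 ∧
        ∀ P : Ideal (𝓞 K), P.IsPrime → (2 : 𝓞 K) ∈ P → Nat.card (𝓞 K ⧸ P) = 2) ∨
      (¬ 3 ∣ Module.finrank ℚ K ∧
        (p % 3 = 1 → ∀ P P' : Ideal (𝓞 K), P.IsPrime → P'.IsPrime →
          ((p : ℕ) : 𝓞 K) ∈ P → ((p : ℕ) : 𝓞 K) ∈ P' → P = P') ∧
        (p % 3 = 2 → ∀ P : Ideal (𝓞 K), P.IsPrime → ((p : ℕ) : 𝓞 K) ∈ P →
          Nat.card (𝓞 K ⧸ P) % 3 ≠ 1)))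
    {x y z : K} (hx : x ≠ 0) (hy : y ≠ 0) (hz : z ≠ 0) (h : x ^ p + y ^ p + z ^ p = 0)
    (hv : ∀ v : HeightOneSpectrum (𝓞 K), ((p : ℕ) : 𝓞 K) ∈ v.asIdeal →
      v.valuation K x = v.valuation K y ∧ v.valuation K y = v.valuation K z) : False := by
  have hfact : Fact p.Prime := ⟨hp⟩
  have hm := Module.finrank_pos (R := ℚ) (M := K)
  have h5 : 2 * Module.finrank ℚ K + 3 ≤ p := by
    rcases hreg with h | h
    · exact h.1
    · have e : 2 ≤ ((irr p).card + 1) * ((irr p).card + 2) := by nlinarith [(irr p).card.zero_le]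
      have := Nat.mul_le_mul_left (Module.finrank ℚ K) e
      omega
  have hp2 : p ≠ 2 := by omega
  obtain ⟨E, _, _, ⟨c⟩⟩ := hCY p hp2
  obtain ⟨N, _, _, i, hcard, hD⟩ := hDN p E c K (by omega)
  have hD' : Dn p E N i := hD
  obtain ⟨X, Y, Z, hX, hY0, hZ, hXYZ, hcp, h2⟩ := prep hp hx hy hz h hv
  have hs : Sol p K X Y Z := ⟨hX, hY0, hZ, hXYZ, hcp⟩
  have hpal : PalK p K := palK hU hI hL hN hP hE hB c i hD' hcard hreg
  rcases hK with ⟨h3, h4⟩ | ⟨h3, h4, h6⟩ | ⟨h3, h4, h6⟩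
  · exact case_odd hN hcard hpal (by omega) hp2 h3 h4 hs
  · exact case_two hU1 hI hL1 hT hH hY hN hL2 hC c i hD' hcard hpal (by omega) (by omega) h4 h3
      h6 hs h2
  · exact case_cube hN hcard hpal (by omega) h3 h4 h6 hs

end Pool.Agent.Y546.WQ
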