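import Pool.Agent.Y546.WQ.Fin

/-!
# Project WQ: the Wieferich criterion over quadratic fields, end of the proof
-/

set_option autoImplicit false

namespace Pool.Agent.Y546.WQ

open NumberField IsDedekindDomain

section

variable {K : Type} [Field K] [NumberField K]

/-- a solution in the first case, not divisible by primes above two -/
structure SolQ (p : ℕ) (K : Type) [Field K] [NumberField K] (X Y Z : 𝓞 K) : Prop where
  sol : Sol p K X Y Z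
  two : ∀ P : Ideal (𝓞 K), P.IsPrime → (2 : 𝓞 K) ∈ P →
    X + Y + Z ∈ P ∧ ¬ (X ∈ P ∧ Y ∈ P ∧ Z ∈ P)

theorem SolQ.rot {p : ℕ} {X Y Z : 𝓞 K} (h : SolQ p K X Y Z) : SolQ p K Y Z X where
  sol := h.sol.rot
  two := by
    intro P hP h2P
    obtain ⟨h1, h2⟩ := h.two P hP h2P
    refine ⟨?_, fun h => h2 ⟨h.2.2, h.1, h.2.1⟩⟩
    have : Y + Z + X = X + Y + Z := by ring
    rw [this]
    exact h1

theorem SolQ.swap {p : ℕ} {X Y Z : 𝓞 K} (h : SolQ p K X Y Z) : SolQ p K X Z Y where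
  sol :=
    { X0 := h.sol.X0
      Y0 := h.sol.Z0
      Z0 := h.sol.Y0
      eq := by rw [← h.sol.eq]; ring
      cp := fun P hP hp => ⟨(h.sol.cp P hP hp).1, (h.sol.cp P hP hp).2.2, (h.sol.cp P hP hp).2.1⟩ }
  two := by
    intro P hP h2P
    obtain ⟨h1, h2⟩ := h.two P hP h2P
    refine ⟨?_, fun h => h2 ⟨h.1, h.2.2, h.2.1⟩⟩
    have : X + Z + Y = X + Y + Z := by ring
    rw [this]
    exact h1

/-- the facts used for one pair -/
structure Dat (p : ℕ) [Fact p.Prime] (d A B G t : ℤ) : Prop where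
  c2 : Even (A + B + t - G)
  cp : (A + B + t : ZMod p) = G
  W : ∀ k : ℕ, Par A t B k → (k : ZMod p) * (A + t + B) = 2 * (t + 2 * B)
  R : Reg p 3 → ∀ k : ℕ, Par A t B k → k = 2
  A0 : (A : ZMod p) ≠ 0
  dd : ∃ m : ℤ, t ^ 2 - 4 * (A * B) = m ^ 2 * d

theorem norm_ncp {p : ℕ} (hp : p.Prime) (σ : 𝓞 K →+* 𝓞 K)
    (hN : ∀ a : 𝓞 K, ((Algebra.norm ℤ a : ℤ) : 𝓞 K) = a * σ a) {Z : 𝓞 K}
    (h : ∀ P : Ideal (𝓞 K), P.IsPrime → ((p : ℕ) : 𝓞 K) ∈ P → Z ∉ P) :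
    ¬ (p : ℤ) ∣ Algebra.norm ℤ Z := by
  rintro ⟨d, hd⟩
  obtain ⟨P, hP, hpP⟩ := exists_above (K := K) p hp
  have h1 : Z * σ Z ∈ P := by
    rw [← hN, hd, Int.cast_mul, Int.cast_natCast]
    exact P.mul_mem_right _ hpP
  rcases hP.mem_or_mem h1 with h2 | h2
  · exact h P hP hpP h2
  · exact h (P.comap σ) (hP.comap σ) (by rw [Ideal.mem_comap, map_natCast]; exact hpP) h2

theorem datQ {p : ℕ} [Fact p.Prime] (h7 : 7 ≤ p) (hW : ¬ p ^ 2 ∣ 2 ^ (p - 1) - 1)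
    (hK : Module.finrank ℚ K = 2) (σ : 𝓞 K →+* 𝓞 K)
    (hN : ∀ a : 𝓞 K, ((Algebra.norm ℤ a : ℤ) : 𝓞 K) = a * σ a)
    (hT : ∀ a : 𝓞 K, ((Algebra.trace ℤ (𝓞 K) a : ℤ) : 𝓞 K) = a + σ a)
    {E : Type} [Field E] [NumberField E] (c : Cyc p E) {X Y Z : 𝓞 K} (s : SolQ p K X Y Z) :
    Dat p (NumberField.discr K) (Algebra.norm ℤ X) (Algebra.norm ℤ Y) (Algebra.norm ℤ Z)
      (Algebra.trace ℤ (𝓞 K) (X * σ Y)) := by
  have hpp : p.Prime := Fact.out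
  have hσσ := conj_conj σ hT
  have hz : ∀ k : ℤ, ¬ (p : ℤ) ∣ k → (k : ZMod p) ≠ 0 := by
    intro k hk h0
    exact hk ((ZMod.intCast_zmod_eq_zero_iff_dvd k p).1 h0)
  have hσ : Function.Injective σ := by
    intro x y hxy
    rw [← hσσ x, ← hσσ y, hxy]
  have hAn := norm_ncp hpp σ hN fun P hP hpP => (s.sol.cp P hP hpP).1
  have hBn := norm_ncp hpp σ hN fun P hP hpP => (s.sol.cp P hP hpP).2.1
  have hGn := norm_ncp hpp σ hN fun P hP hpP => (s.sol.cp P hP hpP).2.2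
  have h2 := norm_rel σ hN hT 2 Nat.prime_two (X := X) (Y := Y) (Z := Z)
    (fun P hP h2P => (s.two P hP (by exact_mod_cast h2P)).1)
  have hp := norm_rel σ hN hT p hpp (X := X) (Y := Y) (Z := Z)
    (fun P hP hpP => lin_p hpp P hP hpP s.sol.eq)
  have hb : ((Algebra.trace ℤ (𝓞 K) (X * σ Y) : ℤ) : 𝓞 K) = X * σ Y + σ X * Y := by
    rw [hT, map_mul, hσσ]
  obtain ⟨f1, f2, f3⟩ := fld Y261.WQ.main Y686.WQ.main p (by omega) E c K hK σ hσ X Y Z s.sol.X0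
    s.sol.Y0 s.sol.Z0 s.sol.eq (fun P hP hpP => (s.sol.cp P hP hpP).2.2)
    (Algebra.norm ℤ X) (Algebra.trace ℤ (𝓞 K) (X * σ Y)) (Algebra.norm ℤ Y) (hN X) hb (hN Y)
  have hcp : ((Algebra.norm ℤ X : ℤ) + (Algebra.norm ℤ Y : ℤ) +
      (Algebra.trace ℤ (𝓞 K) (X * σ Y) : ℤ) : ZMod p) = (Algebra.norm ℤ Z : ℤ) := by
    have := (ZMod.intCast_zmod_eq_zero_iff_dvd _ p).2 hp
    push_cast at this
    linear_combination this
  have hpu : ¬ (p : ℤ) ∣ Algebra.norm ℤ X + Algebra.trace ℤ (𝓞 K) (X * σ Y) +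
      Algebra.norm ℤ Y := by
    intro h
    have h' := (ZMod.intCast_zmod_eq_zero_iff_dvd _ p).2 h
    push_cast at h'
    apply hz _ hGn
    linear_combination h' - hcp
  refine ⟨?_, hcp, ?_, ?_, hz _ hAn, ?_⟩
  · rw [even_iff_two_dvd]
    exact_mod_cast h2
  · intro k hk
    have := wie aUNIT Y447.WQ.main Y474.WQ.main Y388.WQ.HAR.main (by omega) hW c _ _ _ hpu k hk
      f1 f3
    push_cast at this
    exact this
  · intro hreg k hk
    exact wieP aUNIT Y815.WQ.mainLAMG Y474.WQ.main Y388.WQ.HAR.main aUNITA Y919.WQ.mainLAMA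
      Y655.WQ.mainCORE Y275.WQ.mainCOREA h7 hW hreg c _ _ _ hAn hBn hpu k hk f1 f3
  · obtain ⟨m, hm⟩ := disc_eq hK σ hN hT (X * σ Y)
    refine ⟨m, ?_⟩
    rw [← hm]
    have e : Algebra.norm ℤ (X * σ Y) = Algebra.norm ℤ X * Algebra.norm ℤ Y := by
      have e1 : ((Algebra.norm ℤ (X * σ Y) : ℤ) : 𝓞 K) =
          ((Algebra.norm ℤ X * Algebra.norm ℤ Y : ℤ) : 𝓞 K) := by
        push_cast
        rw [hN, hN, hN, map_mul, hσσ]
        ring
      exact_mod_cast e1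
    rw [e]

theorem mainQ {p : ℕ} (hp : p.Prime) (h7 : 7 ≤ p) (hW : ¬ p ^ 2 ∣ 2 ^ (p - 1) - 1)
    (hK : Module.finrank ℚ K = 2)
    (hd : Even (NumberField.discr K) ∨
      (NumberField.discr K % 8 = 1 ∧ (p - 3 ∉ irr p ∨
        ¬ ∃ s : ZMod p, s ≠ 0 ∧ s ^ 2 = -15 * (NumberField.discr K : ZMod p))) ∨
      (NumberField.discr K % 8 = 5 ∧
        ¬ ∃ s : ZMod p, s ≠ 0 ∧ s ^ 2 = -3 * (NumberField.discr K : ZMod p)))
    {x y z : K} (hx : x ≠ 0) (hy : y ≠ 0) (hz : z ≠ 0) (h : x ^ p + y ^ p + z ^ p = 0)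
    (hv : ∀ v : HeightOneSpectrum (𝓞 K), ((p : ℕ) : 𝓞 K) ∈ v.asIdeal →
      v.valuation K x = v.valuation K y ∧ v.valuation K y = v.valuation K z) : False := by
  have hfact : Fact p.Prime := ⟨hp⟩
  have hp2 : p ≠ 2 := by omega
  obtain ⟨E, _, _, ⟨c⟩⟩ := Y978.WQ.main p hp2
  obtain ⟨σ, hN, hT⟩ := SG.exists_conj hK
  obtain ⟨X, Y, Z, hX, hY0, hZ, hXYZ, hcp, h2⟩ := prep hp hx hy hz h hv
  have hs : SolQ p K X Y Z := ⟨⟨hX, hY0, hZ, hXYZ, hcp⟩, fun P hP h2P =>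
    ⟨lin_2 hp (by omega) P hP h2P (pow_four σ hN hT P hP h2P) hXYZ, h2 P hP h2P⟩⟩
  have hreg3 : p - 3 ∉ irr p → Reg p 3 := fun hk =>
    reg_of Y61.WQ.mainBER 3 (by decide) le_rfl (by omega) hk
  -- the three cases
  have cI : ∀ U V W : 𝓞 K, SolQ p K U V W → Even (Algebra.norm ℤ U) → Odd (Algebra.norm ℤ V) →
      Odd (Algebra.norm ℤ W) → False := by
    intro U V W s hU hV hW'
    have d1 := datQ h7 hW hK σ hN hT c s
    have d2 := datQ h7 hW hK σ hN hT c s.swap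
    exact d1.A0 (caseI (by omega) _ _ _ _ _ hU hV hW' d1.c2 d2.c2 d1.cp d2.cp d1.W d2.W)
  have cII : ∀ U V W : 𝓞 K, SolQ p K U V W → Even (Algebra.norm ℤ U) →
      Even (Algebra.norm ℤ V) → Odd (Algebra.norm ℤ W) → False := by
    intro U V W s hU hV hW'
    have d1 := datQ h7 hW hK σ hN hT c s
    have d2 := datQ h7 hW hK σ hN hT c s.swap
    obtain ⟨m, hm⟩ := d1.dd
    obtain ⟨g1, g2, g3⟩ := caseII (by omega) _ _ _ _ _ m _ hU hV hW' d1.c2 d2.c2 d1.cp d2.cp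
      d1.W d2.W d1.A0 hm
    rcases hd with hd | ⟨-, hd | hd⟩ | ⟨hd, -⟩
    · rw [Int.even_iff] at hd
      omega
    · have := d2.R (hreg3 hd) 3 g2
      omega
    · obtain ⟨r, hr⟩ := g3 (by omega)
      exact hd ⟨r, hr⟩
    · omega
  have cIII : ∀ U V W : 𝓞 K, SolQ p K U V W → Odd (Algebra.norm ℤ U) →
      Odd (Algebra.norm ℤ V) → Odd (Algebra.norm ℤ W) → False := by
    intro U V W s hU hV hW'
    have d1 := datQ h7 hW hK σ hN hT c s
    have d2 := datQ h7 hW hK σ hN hT c s.rot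
    obtain ⟨m, hm⟩ := d1.dd
    obtain ⟨g1, g3⟩ := caseIII (by omega) _ _ _ _ _ m _ hU hV hW' d1.c2 d2.c2 d1.cp
      d1.W d2.W d1.A0 hm
    rcases hd with hd | ⟨hd, -⟩ | ⟨-, hd⟩
    · rw [Int.even_iff] at hd
      omega
    · omega
    · exact hd g3
  -- not all norms are even
  have hne : ¬ (Even (Algebra.norm ℤ X) ∧ Even (Algebra.norm ℤ Y) ∧
      Even (Algebra.norm ℤ Z)) := by
    rintro ⟨a1, a2, a3⟩
    obtain ⟨P, hP, hP2'⟩ := exists_above (K := K) 2 Nat.prime_two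
    have hP2 : (2 : 𝓞 K) ∈ P := by exact_mod_cast hP2'
    have hmem : ∀ w : 𝓞 K, Even (Algebra.norm ℤ w) → w ∈ P ∨ w ∈ P.comap σ := by
      intro w ⟨u, hu⟩
      have h1 : w * σ w ∈ P := by
        rw [← hN, hu]
        push_cast
        have : (u : 𝓞 K) + u = u * 2 := by ring
        rw [this]
        exact P.mul_mem_left _ hP2
      rcases hP.mem_or_mem h1 with h2 | h2
      · exact Or.inl h2
      · exact Or.inr h2
    have hP2σ : (2 : 𝓞 K) ∈ P.comap σ := by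
      rw [Ideal.mem_comap, map_ofNat]
      exact hP2
    have key : ∀ (R : Ideal (𝓞 K)), R.IsPrime → (2 : 𝓞 K) ∈ R →
        ¬ (X ∈ R ∧ Y ∈ R) ∧ ¬ (Y ∈ R ∧ Z ∈ R) ∧ ¬ (X ∈ R ∧ Z ∈ R) := by
      intro R hR h2R
      obtain ⟨h1, h2⟩ := hs.two R hR h2R
      refine ⟨fun h => h2 ⟨h.1, h.2, ?_⟩, fun h => h2 ⟨?_, h.1, h.2⟩, fun h => h2 ⟨h.1, ?_, h.2⟩⟩
      · have e : Z = (X + Y + Z) - X - Y := by ring
        rw [e]
        exact R.sub_mem (R.sub_mem h1 h.1) h.2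
      · have e : X = (X + Y + Z) - Y - Z := by ring
        rw [e]
        exact R.sub_mem (R.sub_mem h1 h.1) h.2
      · have e : Y = (X + Y + Z) - X - Z := by ring
        rw [e]
        exact R.sub_mem (R.sub_mem h1 h.1) h.2
    have hPσ : (P.comap σ).IsPrime := hP.comap σ
    have m1 := hmem X a1
    have m2 := hmem Y a2
    have m3 := hmem Z a3
    clear hmem
    generalize P.comap σ = R at hP2σ hPσ m1 m2 m3
    obtain ⟨k1, k2, k3⟩ := key P hP hP2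
    obtain ⟨l1, l2, l3⟩ := key R hPσ hP2σ
    rcases m1 with m1 | m1
    · rcases m2 with m2 | m2
      · exact k1 ⟨m1, m2⟩
      · rcases m3 with m3 | m3
        · exact k3 ⟨m1, m3⟩
        · exact l2 ⟨m2, m3⟩
    · rcases m2 with m2 | m2
      · rcases m3 with m3 | m3
        · exact k2 ⟨m2, m3⟩
        · exact l3 ⟨m1, m3⟩
      · exact l1 ⟨m1, m2⟩
  rcases Int.even_or_odd (Algebra.norm ℤ X) with a1 | a1 <;>
    rcases Int.even_or_odd (Algebra.norm ℤ Y) with a2 | a2 <;>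
    rcases Int.even_or_odd (Algebra.norm ℤ Z) with a3 | a3
  · exact hne ⟨a1, a2, a3⟩
  · exact cII X Y Z hs a1 a2 a3
  · exact cII X Z Y hs.swap a1 a3 a2
  · exact cI X Y Z hs a1 a2 a3
  · exact cII Y Z X hs.rot a2 a3 a1
  · exact cI Y Z X hs.rot a2 a3 a1
  · exact cI Z X Y hs.rot.rot a3 a1 a2
  · exact cIII X Y Z hs a1 a2 a3

end

end Pool.Agent.Y546.WQ
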