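import Pool.Agent.Y546.WQ.EvnW
import Pool.Agent.Y546.WQ.FinQ

/-!
# Project WE: even exponents over quadratic fields
-/

set_option autoImplicit false

namespace Pool.Agent.Y546.WQ

open NumberField IsDedekindDomain Polynomial

/-- scaling a solution in the first case -/
theorem prepE {K : Type} [Field K] [NumberField K] {p : ℕ} (hp : p.Prime) {x y z : K}
    (hx : x ≠ 0) (hy : y ≠ 0) (hz : z ≠ 0) (h : x ^ (2 * p) + y ^ (2 * p) = z ^ (2 * p))
    (hv : ∀ v : HeightOneSpectrum (𝓞 K), ((p : ℕ) : 𝓞 K) ∈ v.asIdeal →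
      v.valuation K x = v.valuation K y ∧ v.valuation K y = v.valuation K z) :
    ∃ X Y Z : 𝓞 K, X ≠ 0 ∧ Y ≠ 0 ∧ Z ≠ 0 ∧ X ^ (2 * p) + Y ^ (2 * p) = Z ^ (2 * p) ∧
      (∀ P : Ideal (𝓞 K), P.IsPrime → ((p : ℕ) : 𝓞 K) ∈ P → X ∉ P ∧ Y ∉ P ∧ Z ∉ P) ∧
      (∀ P : Ideal (𝓞 K), P.IsPrime → (2 : 𝓞 K) ∈ P → ¬ (X ∈ P ∧ Y ∈ P ∧ Z ∈ P)) := by
  have hp0 : p ≠ 0 := hp.ne_zero
  obtain ⟨T, hT⟩ := finite_primes (K := K) (2 * p) (by positivity)
  obtain ⟨a, X, Y, Z, hXa, hYa, hZa, hn⟩ := scaleT (y := y) (z := z) hx T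
  have hne : ∀ (P : Ideal (𝓞 K)), P.IsPrime → ((2 * p : ℕ) : 𝓞 K) ∈ P →
      ∃ h0 : P ≠ ⊥, ∀ hP : P.IsPrime, (⟨P, hP, h0⟩ : HeightOneSpectrum (𝓞 K)) ∈ T := by
    intro P hP hm
    have h0 : P ≠ ⊥ := by
      rintro rfl
      rw [Ideal.mem_bot] at hm
      have : (2 * p : ℕ) = 0 := by exact_mod_cast hm
      omega
    exact ⟨h0, fun hP' => hT _ hm⟩
  -- there is a prime above p
  obtain ⟨M, hM, hMp⟩ : ∃ M : Ideal (𝓞 K), M.IsPrime ∧ ((p : ℕ) : 𝓞 K) ∈ M := by
    have h1 : (Ideal.span {(p : ℤ)}).IsMaximal :=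
      PrincipalIdealRing.isMaximal_of_irreducible (Nat.prime_iff_prime_int.1 hp).irreducible
    obtain ⟨M, hM, hMl⟩ := Ideal.exists_maximal_ideal_liesOver_of_isIntegral (S := 𝓞 K)
      (Ideal.span {(p : ℤ)})
    refine ⟨M, hM.isPrime, ?_⟩
    have h2 : (p : ℤ) ∈ M.under ℤ := by
      rw [← hMl.over]
      exact Ideal.mem_span_singleton_self _
    rw [Ideal.under_def, Ideal.mem_comap] at h2
    simpa using h2
  have hmem2p : ∀ P : Ideal (𝓞 K), ((p : ℕ) : 𝓞 K) ∈ P → ((2 * p : ℕ) : 𝓞 K) ∈ P := by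
    intro P hP
    rw [Nat.cast_mul]
    exact P.mul_mem_left _ hP
  have ha : a ≠ 0 := by
    rintro rfl
    rw [zero_mul] at hXa hYa hZa
    have h1 : X = 0 := RingOfIntegers.coe_injective (by rw [map_zero]; exact hXa)
    have h2 : Y = 0 := RingOfIntegers.coe_injective (by rw [map_zero]; exact hYa)
    have h3 : Z = 0 := RingOfIntegers.coe_injective (by rw [map_zero]; exact hZa)
    obtain ⟨h0, h4⟩ := hne M hM (hmem2p M hMp)
    apply hn _ (h4 hM)
    rw [h1, h2, h3]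
    exact ⟨zero_mem _, zero_mem _, zero_mem _⟩
  have hX0 : X ≠ 0 := by
    rintro rfl
    rw [map_zero] at hXa
    exact mul_ne_zero ha hx hXa.symm
  have hY0 : Y ≠ 0 := by
    rintro rfl
    rw [map_zero] at hYa
    exact mul_ne_zero ha hy hYa.symm
  have hZ0 : Z ≠ 0 := by
    rintro rfl
    rw [map_zero] at hZa
    exact mul_ne_zero ha hz hZa.symm
  have hXYZ : X ^ (2 * p) + Y ^ (2 * p) = Z ^ (2 * p) := by
    apply RingOfIntegers.coe_injective
    rw [map_add, map_pow, map_pow, map_pow]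
    rw [hXa, hYa, hZa, mul_pow, mul_pow, mul_pow]
    linear_combination a ^ (2 * p) * h
  refine ⟨X, Y, Z, hX0, hY0, hZ0, hXYZ, ?_, ?_⟩
  · intro P hP hpP
    obtain ⟨h0, h4⟩ := hne P hP (hmem2p P hpP)
    have h5 := hn _ (h4 hP)
    obtain ⟨h1, h2⟩ := hv ⟨P, hP, h0⟩ hpP
    have e : ∀ (w : K) (W : 𝓞 K), algebraMap (𝓞 K) K W = a * w →
        (W ∈ P ↔ (⟨P, hP, h0⟩ : HeightOneSpectrum (𝓞 K)).valuation K a *
          (⟨P, hP, h0⟩ : HeightOneSpectrum (𝓞 K)).valuation K w < 1) := by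
      intro w W hW
      rw [← map_mul, ← hW]
      exact ((⟨P, hP, h0⟩ : HeightOneSpectrum (𝓞 K)).valuation_lt_one_iff_mem (K := K) W).symm
    have e1 : X ∈ P ↔ Y ∈ P := by rw [e x X hXa, e y Y hYa, h1]
    have e2 : Y ∈ P ↔ Z ∈ P := by rw [e y Y hYa, e z Z hZa, h2]
    change ¬ (X ∈ P ∧ Y ∈ P ∧ Z ∈ P) at h5
    tauto
  · intro P hP h2P
    have h3 : ((2 * p : ℕ) : 𝓞 K) ∈ P := by
      rw [Nat.cast_mul]
      apply P.mul_mem_right
      exact_mod_cast h2P
    obtain ⟨h0, h4⟩ := hne P hP h3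
    exact hn _ (h4 hP)


/-- a solution with even exponent in the first case -/
structure SolE (p : ℕ) (K : Type) [Field K] [NumberField K] (x y z : 𝓞 K) : Prop where
  x0 : x ≠ 0
  y0 : y ≠ 0
  z0 : z ≠ 0
  eq : x ^ (2 * p) + y ^ (2 * p) = z ^ (2 * p)
  cp : ∀ P : Ideal (𝓞 K), P.IsPrime → ((p : ℕ) : 𝓞 K) ∈ P → x ∉ P ∧ y ∉ P ∧ z ∉ P
  two : ∀ P : Ideal (𝓞 K), P.IsPrime → (2 : 𝓞 K) ∈ P → ¬ (x ∈ P ∧ y ∈ P ∧ z ∈ P)

section

variable {K : Type} [Field K] [NumberField K]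

theorem SolE.swap {p : ℕ} {x y z : 𝓞 K} (h : SolE p K x y z) : SolE p K y x z where
  x0 := h.y0
  y0 := h.x0
  z0 := h.z0
  eq := by rw [← h.eq]; ring
  cp := fun P hP hp => ⟨(h.cp P hP hp).2.1, (h.cp P hP hp).1, (h.cp P hP hp).2.2⟩
  two := fun P hP h2 h' => h.two P hP h2 ⟨h'.2.1, h'.1, h'.2.2⟩

theorem SolE.negy {p : ℕ} {x y z : 𝓞 K} (h : SolE p K x y z) : SolE p K x (-y) z where
  x0 := h.x0
  y0 := neg_ne_zero.2 h.y0
  z0 := h.z0
  eq := by rw [← h.eq, Even.neg_pow (even_two_mul p)]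
  cp := fun P hP hp => ⟨(h.cp P hP hp).1, fun h' => (h.cp P hP hp).2.1 (neg_mem_iff.1 h'),
    (h.cp P hP hp).2.2⟩
  two := fun P hP h2 h' => h.two P hP h2 ⟨h'.1, neg_mem_iff.1 h'.2.1, h'.2.2⟩

/-- the squares satisfy a linear relation modulo the primes above `p` -/
theorem SolE.lin {p : ℕ} {x y z : 𝓞 K} (h : SolE p K x y z) (hp : p.Prime) (hp2 : p ≠ 2)
    (P : Ideal (𝓞 K)) (hP : P.IsPrime) (hpP : ((p : ℕ) : 𝓞 K) ∈ P) :
    z ^ 2 + -y ^ 2 + -x ^ 2 ∈ P := by
  have hodd : Odd p := hp.odd_of_ne_two hp2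
  apply lin_p hp P hP hpP
  rw [hodd.neg_pow, hodd.neg_pow, ← pow_mul, ← pow_mul, ← pow_mul, ← h.eq]
  ring

theorem SolE.sub_notMem {p : ℕ} {x y z : 𝓞 K} (h : SolE p K x y z) (hp : p.Prime) (hp2 : p ≠ 2)
    (P : Ideal (𝓞 K)) (hP : P.IsPrime) (hpP : ((p : ℕ) : 𝓞 K) ∈ P) :
    z ^ 2 - y ^ 2 ∉ P ∧ z - y ∉ P := by
  have h1 : z ^ 2 - y ^ 2 ∉ P := by
    intro h'
    have h2 := h.lin hp hp2 P hP hpP
    have h3 : x ^ 2 ∈ P := by
      have e : x ^ 2 = (z ^ 2 - y ^ 2) - (z ^ 2 + -y ^ 2 + -x ^ 2) := by ring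
      rw [e]
      exact P.sub_mem h' h2
    exact (h.cp P hP hpP).1 (hP.mem_of_pow_mem 2 h3)
  refine ⟨h1, fun h' => h1 ?_⟩
  have e : z ^ 2 - y ^ 2 = (z - y) * (z + y) := by ring
  rw [e]
  exact P.mul_mem_right _ h'

/-- the relations for one pair and one sign -/
theorem datE1 {p : ℕ} [Fact p.Prime] (hI : S_IDEE) (hCu : S_CUB) (h7 : 7 ≤ p)
    (hK : Module.finrank ℚ K = 2) (σ : 𝓞 K →+* 𝓞 K)
    (hN : ∀ a : 𝓞 K, ((Algebra.norm ℤ a : ℤ) : 𝓞 K) = a * σ a)
    (hT : ∀ a : 𝓞 K, ((Algebra.trace ℤ (𝓞 K) a : ℤ) : 𝓞 K) = a + σ a)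
    {x y z : 𝓞 K} (s : SolE p K x y z) (A B r : ℤ) (hA : A = Algebra.norm ℤ z)
    (hB : B = Algebra.norm ℤ y) (hr : r = Algebra.trace ℤ (𝓞 K) (z * σ y)) :
    ¬ (Even A ∧ Even (-r) ∧ Even B) ∧
    (¬ p ^ 2 ∣ 2 ^ (p - 1) - 1 → ∀ k : ℕ, Pat A (-r) B k →
      (k : ZMod p) * (A - r + B) = 2 * (-r + 2 * B)) ∧
    (Reg p 3 → ((A : ZMod p) - B) * ((A - r + B) ^ 2 - 3 * (A + B) * (A - r + B) +
      2 * (A - B) ^ 2) = 0) := by
  have hpp : p.Prime := Fact.out
  have hp2 : p ≠ 2 := by omega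
  have hσσ := conj_conj σ hT
  obtain ⟨E, _, _, ⟨c⟩⟩ := Y978.WQ.main p hp2
  obtain ⟨N, _, _, i, hcard, hD⟩ := Y258.WQ.mainDOWNG p E c K (by omega)
  have hD' : Dn p E N i := hD
  obtain ⟨f, hdeg, hc0, hcm, hev, hf'⟩ := Y290.WQ.mainNORM K z (-y)
  obtain ⟨g, -, -, -, hgev, hg'⟩ := Y290.WQ.mainNORM K (z ^ 2) (-y ^ 2)
  have hf := hf' N hcard
  have hg := hg' N hcard
  have h4 : ∀ P : Ideal (𝓞 K), P.IsPrime → (2 : 𝓞 K) ∈ P → ∀ w : 𝓞 K, w ^ 4 - w ∈ P :=
    fun P hP h2P => pow_four σ hN hT P hP h2P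
  obtain ⟨h0, hg0, hv⟩ := fldE hI (by omega) c i hD' s.x0 s.y0 s.z0 s.eq
    (fun P hP hpP => (s.cp P hP hpP).1) s.two h4 f hf g hg
  have hcop := copE (by omega) c i s.eq s.two h4 f hf
  -- the coefficients
  have hcB : f.coeff 2 = B := by
    rw [← hK, hcm, hB]
    have : ((Algebra.norm ℤ (-y) : ℤ) : 𝓞 K) = (Algebra.norm ℤ y : ℤ) := by
      rw [hN, hN, map_neg]
      ring
    exact_mod_cast this
  have hcA : f.coeff 0 = A := by rw [hc0, hA]
  have hnat : f = C A + C (f.coeff 1) * X + C B * X ^ 2 := by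
    have h1 := f.as_sum_range_C_mul_X_pow' (n := 3) (by rw [hK] at hdeg; omega)
    rw [Finset.sum_range_succ, Finset.sum_range_succ, Finset.sum_range_one] at h1
    rw [hcA, hcB, pow_zero, mul_one, pow_one] at h1
    exact h1
  have hc1 : f.coeff 1 = -r := by
    have h1 := hev 1
    have h2 : f.eval 1 = A + f.coeff 1 + B := by
      conv_lhs => rw [hnat]
      simp
    rw [h2] at h1
    have h3 : ((A + f.coeff 1 + B : ℤ) : 𝓞 K) = ((A - r + B : ℤ) : 𝓞 K) := by
      rw [h1, hN]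
      push_cast
      rw [hA, hB, hr, hN, hN, hT]
      simp only [map_add, map_neg, map_mul, map_one, hσσ]
      ring
    have h4 : A + f.coeff 1 + B = A - r + B := by exact_mod_cast h3
    linarith
  rw [hc1] at hnat
  have hev1 : f.eval 1 = A + -r + B := by
    rw [hnat]
    simp
  have hpu : ¬ (p : ℤ) ∣ A + -r + B := by
    rw [← hev1, hev]
    apply norm_coprime hcard Y290.WQ.mainNORM p hpp
    intro P hP hpP h'
    apply (s.sub_notMem hpp hp2 P hP hpP).2
    have e : z - y = z + ((1 : ℤ) : 𝓞 K) * -y := by push_cast; ring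
    rw [e]
    exact h'
  have hpg : ¬ (p : ℤ) ∣ g.eval 1 := by
    rw [hgev]
    apply norm_coprime hcard Y290.WQ.mainNORM p hpp
    intro P hP hpP h'
    apply (s.sub_notMem hpp hp2 P hP hpP).1
    have e : z ^ 2 - y ^ 2 = z ^ 2 + ((1 : ℤ) : 𝓞 K) * -y ^ 2 := by push_cast; ring
    rw [e]
    exact h'
  have hpV : ¬ (p : ℤ) ∣ (g.eval 1) ^ ((p + 1) / 2) := fun h =>
    hpg ((Nat.prime_iff_prime_int.1 hpp).dvd_of_dvd_pow h)
  -- not all coefficients are even
  have hne : ¬ (Even A ∧ Even (-r) ∧ Even B) := by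
    rintro ⟨⟨a', ha'⟩, ⟨b', hb'⟩, ⟨e', he'⟩⟩
    obtain ⟨P, hP, hP2'⟩ := exists_above (K := E) 2 Nat.prime_two
    have hP2 : (2 : 𝓞 E) ∈ P := by exact_mod_cast hP2'
    obtain ⟨u, hu, hup⟩ := exists_zint c
    have hw : ((aeval u f : 𝓞 E) : E) = aeval c.z f := by
      rw [← hu]
      exact (aeval_algebraMap_apply E u f).symm
    apply hcop P hP hP2 (aeval u f) hw
    rw [hnat, ha', hb', he']
    simp only [map_add, map_mul, map_pow, aeval_X, aeval_C]
    have e : ∀ v : ℤ, (algebraMap ℤ (𝓞 E)) v + (algebraMap ℤ (𝓞 E)) v =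
        (algebraMap ℤ (𝓞 E)) v * 2 := fun v => by ring
    rw [e, e, e]
    refine P.add_mem (P.add_mem (P.mul_mem_left _ hP2) ?_) ?_
    · exact P.mul_mem_right _ (P.mul_mem_left _ hP2)
    · exact P.mul_mem_right _ (P.mul_mem_left _ hP2)
  refine ⟨hne, ?_, ?_⟩
  · intro hW k hk
    obtain ⟨t, n, hn, htn⟩ := exists_odd_part ((g.eval 1) ^ ((p + 1) / 2)) (pow_ne_zero _ hg0)
    have hpn : ¬ (p : ℤ) ∣ n := fun h => hpV (htn ▸ dvd_mul_of_dvd_right h _)
    have := wieE (by omega) hW c A (-r) B n hn hpn hpu k hk f hnat h0 ?_ hcop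
    · push_cast at this
      linear_combination this
    · intro P
      obtain ⟨u, hu, hup⟩ := exists_zint c
      have hΛ : algebraMap (𝓞 E) E (aeval u f) = aeval c.z f := by
        have hu' : algebraMap (𝓞 E) E u = c.z := hu
        rw [← hu']
        exact (aeval_algebraMap_apply E u f).symm
      by_cases h2P : ((2 : ℕ) : 𝓞 E) ∈ P.asIdeal
      · refine ⟨0, ?_⟩
        have h2' : (2 : 𝓞 E) ∈ P.asIdeal := by exact_mod_cast h2P
        have hn1 : P.valuation E ((n : ℤ) : E) = 1 := by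
          have := val_one P ((n : ℤ) : 𝓞 E) (int_notMem P.asIdeal P.isPrime 2 Nat.prime_two h2P n
            (by
              rw [Int.odd_iff] at hn
              intro h
              push_cast at h
              omega))
          simpa using this
        rw [hn1, mul_zero, WithZero.exp_zero, mul_one, ← hΛ]
        exact val_one P _ (hcop P.asIdeal P.isPrime h2' _ hΛ)
      · obtain ⟨m, hm⟩ := hv P
        refine ⟨m, ?_⟩
        rw [hm, htn]
        congr 1
        push_cast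
        rw [map_mul, map_pow]
        have h3 : P.valuation E (2 : E) = 1 := by
          have h10 : (((2 : ℕ) : 𝓞 E) : E) = 2 := map_natCast (algebraMap (𝓞 E) E) 2
          have := val_one P ((2 : ℕ) : 𝓞 E) h2P
          rwa [h10] at this
        rw [h3, one_pow, one_mul]
  · intro hreg
    have hrel : Rel p (f.map (Int.castRingHom (ZMod p))) := by
      intro a' ha' hap'
      obtain ⟨g', hg', k', hk'⟩ := relGA aUNITA hp2 a' ha' hap' c f _ hpV
        (by rw [hev1]; exact hpu) h0 hv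
      obtain ⟨r', hr', hdv'⟩ := Y919.WQ.mainLAMA p hp2 a' ha' hap' E c f _ hpV
        (by rw [hev1]; exact hpu) g' hg' k' hk'
      exact ⟨k', r', hr', hdv'⟩
    have hmap : f.map (Int.castRingHom (ZMod p)) = C (A : ZMod p) + C (-(r : ZMod p)) * X +
        C (B : ZMod p) * X ^ 2 := by
      rw [hnat]
      simp
    rw [hmap] at hrel
    have hu0 : (A : ZMod p) + -(r : ZMod p) + B ≠ 0 := by
      intro h
      apply hpu
      apply (ZMod.intCast_zmod_eq_zero_iff_dvd _ p).1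
      push_cast
      exact h
    have := hCu p h7 _ _ _ hu0 hreg hrel
    linear_combination this

/-- the relation between the three norms -/
theorem datE2 {p : ℕ} (hp : p.Prime) (hp2 : p ≠ 2) (σ : 𝓞 K →+* 𝓞 K)
    (hN : ∀ a : 𝓞 K, ((Algebra.norm ℤ a : ℤ) : 𝓞 K) = a * σ a)
    (hT : ∀ a : 𝓞 K, ((Algebra.trace ℤ (𝓞 K) a : ℤ) : 𝓞 K) = a + σ a)
    {x y z : 𝓞 K} (s : SolE p K x y z) (A B D r : ℤ) (hA : A = Algebra.norm ℤ z)
    (hB : B = Algebra.norm ℤ y) (hD : D = Algebra.norm ℤ x)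
    (hr : r = Algebra.trace ℤ (𝓞 K) (z * σ y)) :
    ((D : ZMod p)) ^ 2 = (A + B) ^ 2 - r ^ 2 := by
  have hσσ := conj_conj σ hT
  have h1 := norm_rel σ hN hT p hp (X := z ^ 2) (Y := -y ^ 2) (Z := -x ^ 2)
    (fun P hP hpP => s.lin hp hp2 P hP hpP)
  have e1 : Algebra.norm ℤ (z ^ 2) = A ^ 2 := by rw [map_pow, hA]
  have e2 : Algebra.norm ℤ (-y ^ 2) = B ^ 2 := by
    have : ((Algebra.norm ℤ (-y ^ 2) : ℤ) : 𝓞 K) = ((B ^ 2 : ℤ) : 𝓞 K) := by
      push_cast
      rw [hN, hB, hN, map_neg, map_pow]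
      ring
    exact_mod_cast this
  have e3 : Algebra.norm ℤ (-x ^ 2) = D ^ 2 := by
    have : ((Algebra.norm ℤ (-x ^ 2) : ℤ) : 𝓞 K) = ((D ^ 2 : ℤ) : 𝓞 K) := by
      push_cast
      rw [hN, hD, hN, map_neg, map_pow]
      ring
    exact_mod_cast this
  have e4 : Algebra.trace ℤ (𝓞 K) (z ^ 2 * σ (-y ^ 2)) = -(r ^ 2 - 2 * (A * B)) := by
    have : ((Algebra.trace ℤ (𝓞 K) (z ^ 2 * σ (-y ^ 2)) : ℤ) : 𝓞 K) =
        ((-(r ^ 2 - 2 * (A * B)) : ℤ) : 𝓞 K) := by
      push_cast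
      rw [hT, hA, hB, hr, hN, hN, hT]
      simp only [map_neg, map_pow, map_mul, hσσ]
      ring
    exact_mod_cast this
  rw [e1, e2, e3, e4] at h1
  have h2 := (ZMod.intCast_zmod_eq_zero_iff_dvd _ p).2 h1
  push_cast at h2
  linear_combination -h2

theorem natc_ne {p : ℕ} (hp : p.Prime) (n : ℕ) (hn : ¬ p ∣ n) : (n : ZMod p) ≠ 0 := by
  rw [Ne, ZMod.natCast_eq_zero_iff]
  exact hn

/-- the main theorem on even exponents -/
theorem mainE (hI : S_IDEE) (hCu : S_CUB) {p : ℕ} (hp : p.Prime) (h11 : 11 ≤ p)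
    (hcond : p - 3 ∉ irr p ∨ (p ≠ 13 ∧ ¬ p ^ 2 ∣ 2 ^ (p - 1) - 1))
    (hK : Module.finrank ℚ K = 2)
    (hd : (¬ ∃ s : ZMod p, s ≠ 0 ∧ s ^ 2 = 3) ∨
      ¬ ∃ s : ZMod p, s ≠ 0 ∧ s ^ 2 = -(NumberField.discr K : ZMod p))
    {x y z : K} (hx : x ≠ 0) (hy : y ≠ 0) (hz : z ≠ 0)
    (h : x ^ (2 * p) + y ^ (2 * p) = z ^ (2 * p))
    (hv : ∀ v : HeightOneSpectrum (𝓞 K), ((p : ℕ) : 𝓞 K) ∈ v.asIdeal →
      v.valuation K x = v.valuation K y ∧ v.valuation K y = v.valuation K z) : False := by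
  have hfact : Fact p.Prime := ⟨hp⟩
  have hp2 : p ≠ 2 := by omega
  obtain ⟨σ, hN, hT⟩ := SG.exists_conj hK
  obtain ⟨X, Y, Z, hX, hY0, hZ, hXYZ, hcp, h2⟩ := prepE hp hx hy hz h hv
  have s : SolE p K X Y Z := ⟨hX, hY0, hZ, hXYZ, hcp, h2⟩
  obtain ⟨A, hA⟩ : ∃ A : ℤ, A = Algebra.norm ℤ Z := ⟨_, rfl⟩
  obtain ⟨B, hB⟩ : ∃ B : ℤ, B = Algebra.norm ℤ Y := ⟨_, rfl⟩
  obtain ⟨D, hD⟩ : ∃ D : ℤ, D = Algebra.norm ℤ X := ⟨_, rfl⟩
  obtain ⟨r, hr⟩ : ∃ r : ℤ, r = Algebra.trace ℤ (𝓞 K) (Z * σ Y) := ⟨_, rfl⟩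
  obtain ⟨q, hq⟩ : ∃ q : ℤ, q = Algebra.trace ℤ (𝓞 K) (Z * σ X) := ⟨_, rfl⟩
  have hnegN : ∀ w : 𝓞 K, Algebra.norm ℤ (-w) = Algebra.norm ℤ w := by
    intro w
    have : ((Algebra.norm ℤ (-w) : ℤ) : 𝓞 K) = (Algebra.norm ℤ w : ℤ) := by
      rw [hN, hN, map_neg]
      ring
    exact_mod_cast this
  have hnegT : ∀ w : 𝓞 K, Algebra.trace ℤ (𝓞 K) (Z * σ (-w)) =
      -Algebra.trace ℤ (𝓞 K) (Z * σ w) := by
    intro w
    rw [map_neg, mul_neg, map_neg]
  -- the relations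
  have d1 := datE1 hI hCu (by omega) hK σ hN hT s A B r hA hB hr
  have d1' := datE1 hI hCu (by omega) hK σ hN hT s.negy A B (-r) hA (by rw [hB, hnegN])
    (by rw [hnegT, hr])
  have d2 := datE1 hI hCu (by omega) hK σ hN hT s.swap A D q hA hD hq
  have d2' := datE1 hI hCu (by omega) hK σ hN hT s.swap.negy A D (-q) hA (by rw [hD, hnegN])
    (by rw [hnegT, hq])
  have f1 := datE2 hp hp2 σ hN hT s A B D r hA hB hD hr
  have f2 := datE2 hp hp2 σ hN hT s.swap A D B q hA hD hB hq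
  have hnz : ∀ w : 𝓞 K, (∀ P : Ideal (𝓞 K), P.IsPrime → ((p : ℕ) : 𝓞 K) ∈ P → w ∉ P) →
      ((Algebra.norm ℤ w : ℤ) : ZMod p) ≠ 0 := by
    intro w hw h0
    exact norm_ncp hp σ hN hw ((ZMod.intCast_zmod_eq_zero_iff_dvd _ p).1 h0)
  have A0 : (A : ZMod p) ≠ 0 := by
    rw [hA]
    exact hnz Z fun P hP hpP => (hcp P hP hpP).2.2
  have B0 : (B : ZMod p) ≠ 0 := by
    rw [hB]
    exact hnz Y fun P hP hpP => (hcp P hP hpP).2.1
  have D0 : (D : ZMod p) ≠ 0 := by
    rw [hD]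
    exact hnz X fun P hP hpP => (hcp P hP hpP).1
  -- numbers prime to p
  have hprime : ∀ l : ℕ, l.Prime → l < 11 ∨ l ≠ p → (l : ZMod p) ≠ 0 := by
    intro l hl hlp
    apply natc_ne hp
    intro hdv
    have := (Nat.prime_dvd_prime_iff_eq hp hl).1 hdv
    omega
  have n2 : (2 : ZMod p) ≠ 0 := by exact_mod_cast hprime 2 Nat.prime_two (by omega)
  have n3 : (3 : ZMod p) ≠ 0 := by exact_mod_cast hprime 3 Nat.prime_three (by omega)
  have n5 : (5 : ZMod p) ≠ 0 := by exact_mod_cast hprime 5 Nat.prime_five (by omega)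
  have n7 : (7 : ZMod p) ≠ 0 := by exact_mod_cast hprime 7 (by norm_num) (by omega)
  have sq0 : ∀ u v : ZMod p, u ≠ 0 → v ≠ 0 → v * u ^ 2 = 0 → False := by
    intro u v hu hv' h0
    exact mul_ne_zero hv' (pow_ne_zero 2 hu) h0
  -- the three norms are equal
  have hAB : (A : ZMod p) = B ∧ (A : ZMod p) = D := by
    rcases hcond with hc | ⟨h13, hW⟩
    · have hreg : Reg p 3 := reg_of Y61.WQ.mainBER 3 (by decide) le_rfl (by omega) hc
      have key : ∀ a b r : ZMod p, a ≠ 0 → b ≠ 0 →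
          (a - b) * ((a - r + b) ^ 2 - 3 * (a + b) * (a - r + b) + 2 * (a - b) ^ 2) = 0 →
          (a - b) * ((a + r + b) ^ 2 - 3 * (a + b) * (a + r + b) + 2 * (a - b) ^ 2) = 0 →
          a = b ∨ (b = -a ∧ r ^ 2 = -8 * a ^ 2) := by
        intro a b r ha hb e1 e2
        by_cases hab : a = b
        · exact Or.inl hab
        · right
          have e1' := (mul_eq_zero.1 e1).resolve_left (sub_ne_zero.2 hab)
          have e2' := (mul_eq_zero.1 e2).resolve_left (sub_ne_zero.2 hab)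
          have e3 : 2 * ((a + b) * r) = 0 := by linear_combination e1' - e2'
          have e4 : (a + b) * r = 0 := (mul_eq_zero.1 e3).resolve_left n2
          rcases mul_eq_zero.1 e4 with e5 | e5
          · have e6 : b = -a := by linear_combination e5
            refine ⟨e6, ?_⟩
            rw [e6] at e1'
            linear_combination e1'
          · exfalso
            rw [e5] at e1'
            have e6 : (2 : ZMod p) ^ 3 * (a * b) = 0 := by linear_combination -e1'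
            exact mul_ne_zero (pow_ne_zero 3 n2) (mul_ne_zero ha hb) e6
      have k1 := key A B r A0 B0 (by have := d1.2.2 hreg; linear_combination this)
        (by have := d1'.2.2 hreg; push_cast at this; linear_combination this)
      have k2 := key A D q A0 D0 (by have := d2.2.2 hreg; linear_combination this)
        (by have := d2'.2.2 hreg; push_cast at this; linear_combination this)
      rcases k1 with k1 | ⟨k1, k1'⟩ <;> rcases k2 with k2 | ⟨k2, k2'⟩
      · exact ⟨k1, k2⟩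
      · exfalso
        refine sq0 _ _ A0 n7 ?_
        rw [← k1, k2] at f2
        linear_combination k2' - f2
      · exfalso
        refine sq0 _ _ A0 n7 ?_
        rw [← k2, k1] at f1
        linear_combination k1' - f1
      · exfalso
        refine sq0 _ _ A0 n7 ?_
        rw [k1, k2] at f1
        linear_combination k1' - f1
    · have key : ∀ (a b r : ℤ) (k : ℕ), (a : ZMod p) ≠ 0 → (b : ZMod p) ≠ 0 →
          (k = 0 ∨ k = 1 ∨ k = 2 ∨ k = 3 ∨ k = 4) →
          (k : ZMod p) * (a - r + b) = 2 * (-r + 2 * b) →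
          (k : ZMod p) * (a + r + b) = 2 * (r + 2 * b) →
          (a : ZMod p) = b ∨ ((r : ZMod p) = 0 ∧ ((a : ZMod p) = 3 * b ∨ (b : ZMod p) = 3 * a)) := by
        intro a b r k ha hb hk e1 e2
        have n4 : (4 : ZMod p) ≠ 0 := by
          have : (4 : ZMod p) = 2 * 2 := by norm_num
          rw [this]
          exact mul_ne_zero n2 n2
        rcases hk with rfl | rfl | rfl | rfl | rfl
        · exfalso
          push_cast at e1 e2
          have e3 : (4 : ZMod p) * (2 * b) = 0 := by linear_combination -e1 - e2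
          exact mul_ne_zero n4 (mul_ne_zero n2 hb) e3
        · right
          push_cast at e1 e2
          have e3 : (2 : ZMod p) * r = 0 := by linear_combination e1 - e2
          have e4 := (mul_eq_zero.1 e3).resolve_left n2
          refine ⟨e4, Or.inl ?_⟩
          rw [e4] at e1
          linear_combination e1
        · left
          push_cast at e1 e2
          have e3 : (2 : ZMod p) * (a - b) = 0 := by linear_combination e1
          exact sub_eq_zero.1 ((mul_eq_zero.1 e3).resolve_left n2)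
        · right
          push_cast at e1 e2
          have e3 : (2 : ZMod p) * r = 0 := by linear_combination e2 - e1
          have e4 := (mul_eq_zero.1 e3).resolve_left n2
          refine ⟨e4, Or.inr ?_⟩
          rw [e4] at e1
          linear_combination -e1
        · exfalso
          push_cast at e1 e2
          have e3 : (4 : ZMod p) * (2 * a) = 0 := by linear_combination e1 + e2
          exact mul_ne_zero n4 (mul_ne_zero n2 ha) e3
      obtain ⟨k, hk⟩ := Pat.exists_of d1.1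
      obtain ⟨l, hl⟩ := Pat.exists_of d2.1
      have k1 := key A B r k A0 B0 hk.cases (d1.2.1 hW k hk) (by
        have := d1'.2.1 hW k hk.neg
        push_cast at this
        linear_combination this)
      have k2 := key A D q l A0 D0 hl.cases (d2.2.1 hW l hl) (by
        have := d2'.2.1 hW l hl.neg
        push_cast at this
        linear_combination this)
      have n15 : (15 : ZMod p) ≠ 0 := by
        have : (15 : ZMod p) = 3 * 5 := by norm_num
        rw [this]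
        exact mul_ne_zero n3 n5
      have n13 : (13 : ZMod p) ≠ 0 := by
        exact_mod_cast hprime 13 (by norm_num) (Or.inr fun h => h13 h.symm)
      rcases k1 with k1 | ⟨k0, k1 | k1⟩ <;> rcases k2 with k2 | ⟨l0, k2 | k2⟩
      · exact ⟨k1, k2⟩
      · exfalso
        refine sq0 _ _ D0 n7 ?_
        rw [← k1, l0, k2] at f2
        linear_combination -f2
      · exfalso
        refine sq0 _ _ A0 n15 ?_
        rw [← k1, l0, k2] at f2
        linear_combination -f2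
      · exfalso
        refine sq0 _ _ B0 n7 ?_
        rw [← k2, k0, k1] at f1
        linear_combination -f1
      · exfalso
        refine sq0 _ _ B0 n15 ?_
        have e : (D : ZMod p) = B := by
          have : (3 : ZMod p) * (D - B) = 0 := by linear_combination k1 - k2
          exact sub_eq_zero.1 ((mul_eq_zero.1 this).resolve_left n3)
        rw [e, k0, k1] at f1
        linear_combination -f1
      · exfalso
        refine sq0 _ _ B0 n13 ?_
        rw [k2, k1, k0] at f1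
        rw [k2, k1, l0] at f2
        linear_combination (-2 : ZMod p) * f1 - f2
      · exfalso
        refine sq0 _ _ A0 n15 ?_
        rw [← k2, k0, k1] at f1
        linear_combination -f1
      · exfalso
        refine sq0 _ _ D0 n13 ?_
        rw [k1, k2, k0] at f1
        rw [k1, k2, l0] at f2
        linear_combination (-2 : ZMod p) * f2 - f1
      · exfalso
        refine sq0 _ _ A0 n7 ?_
        rw [k1, k2, k0] at f1
        linear_combination -f1
  obtain ⟨hAB, hAD⟩ := hAB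
  have g1 : (r : ZMod p) ^ 2 = 3 * A ^ 2 := by
    rw [← hAB, ← hAD] at f1
    linear_combination f1
  rcases hd with hd | hd
  · apply hd
    refine ⟨(r : ZMod p) / A, ?_, ?_⟩
    · apply div_ne_zero _ A0
      intro h0
      rw [h0] at g1
      exact sq0 _ _ A0 n3 (by linear_combination -g1)
    · rw [div_pow, g1]
      field_simp
  · apply hd
    obtain ⟨m, hm⟩ := disc_eq hK σ hN hT (Z * σ Y)
    have e1 : Algebra.norm ℤ (Z * σ Y) = A * B := by
      have e1 : ((Algebra.norm ℤ (Z * σ Y) : ℤ) : 𝓞 K) = ((A * B : ℤ) : 𝓞 K) := by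
        push_cast
        rw [hN, hA, hB, hN, hN, map_mul, conj_conj σ hT]
        ring
      exact_mod_cast e1
    rw [← hr, e1] at hm
    have hm' : (r : ZMod p) ^ 2 - 4 * (A * B) = m ^ 2 * (NumberField.discr K : ZMod p) := by
      have := congrArg (fun w : ℤ => (w : ZMod p)) hm
      push_cast at this
      exact this
    rw [← hAB] at hm'
    have g2 : (m : ZMod p) ^ 2 * (NumberField.discr K : ZMod p) = -A ^ 2 := by
      linear_combination g1 - hm'
    have m0 : (m : ZMod p) ≠ 0 := by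
      intro h0
      rw [h0] at g2
      exact pow_ne_zero 2 A0 (by linear_combination g2)
    refine ⟨(A : ZMod p) / m, div_ne_zero A0 m0, ?_⟩
    rw [div_pow]
    field_simp
    linear_combination g2

end

end Pool.Agent.Y546.WQ
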