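import Pool.Agent.Y546.WQ.Evn
import Pool.Agent.Y546.WQ.All
import Pool.Agent.Y447.WQ.LAM

/-!
# Project WE: even exponents, the relations for the norm of `z - ζ y`
-/

set_option autoImplicit false

namespace Pool.Agent.Y546.WQ

open NumberField IsDedekindDomain Polynomial

/-- twice the centre of a quadratic polynomial modulo two -/
def Pat (a b e : ℤ) (k : ℕ) : Prop :=
  (Odd a ∧ Even b ∧ Even e ∧ k = 0) ∨ (Odd a ∧ Odd b ∧ Even e ∧ k = 1) ∨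
  (Even a ∧ Odd b ∧ Odd e ∧ k = 3) ∨ (Even a ∧ Even b ∧ Odd e ∧ k = 4) ∨
  (Even a ∧ Odd b ∧ Even e ∧ k = 2) ∨ (Odd a ∧ Even b ∧ Odd e ∧ k = 2) ∨
  (Odd a ∧ Odd b ∧ Odd e ∧ k = 2)

theorem Pat.exists_of {a b e : ℤ} (h : ¬ (Even a ∧ Even b ∧ Even e)) : ∃ k, Pat a b e k := by
  unfold Pat
  rcases Int.even_or_odd a with ha | ha <;> rcases Int.even_or_odd b with hb | hb <;>
    rcases Int.even_or_odd e with he | he
  · exact absurd ⟨ha, hb, he⟩ h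
  · exact ⟨4, Or.inr (Or.inr (Or.inr (Or.inl ⟨ha, hb, he, rfl⟩)))⟩
  · exact ⟨2, Or.inr (Or.inr (Or.inr (Or.inr (Or.inl ⟨ha, hb, he, rfl⟩))))⟩
  · exact ⟨3, Or.inr (Or.inr (Or.inl ⟨ha, hb, he, rfl⟩))⟩
  · exact ⟨0, Or.inl ⟨ha, hb, he, rfl⟩⟩
  · exact ⟨2, Or.inr (Or.inr (Or.inr (Or.inr (Or.inr (Or.inl ⟨ha, hb, he, rfl⟩)))))⟩
  · exact ⟨1, Or.inr (Or.inl ⟨ha, hb, he, rfl⟩)⟩
  · exact ⟨2, Or.inr (Or.inr (Or.inr (Or.inr (Or.inr (Or.inr ⟨ha, hb, he, rfl⟩)))))⟩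

theorem Pat.neg {a b e : ℤ} {k : ℕ} (h : Pat a b e k) : Pat a (-b) e k := by
  unfold Pat at *
  rw [even_neg, odd_neg]
  exact h

theorem Pat.cases {a b e : ℤ} {k : ℕ} (h : Pat a b e k) :
    k = 0 ∨ k = 1 ∨ k = 2 ∨ k = 3 ∨ k = 4 := by
  unfold Pat at h
  omega

theorem reflect_two {R : Type*} [CommRing R] (a b e : R) :
    (C a + C b * X + C e * X ^ 2 : Polynomial R).reflect 2 = C e + C b * X + C a * X ^ 2 := by
  have h0 : (C a : Polynomial R) = C a * X ^ 0 := by simp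
  have h1 : (C b * X : Polynomial R) = C b * X ^ 1 := by simp
  rw [h0, h1, reflect_add, reflect_add, reflect_C_mul_X_pow, reflect_C_mul_X_pow,
    reflect_C_mul_X_pow]
  simp only [revAt_le (show 0 ≤ 2 by norm_num), revAt_le (show 1 ≤ 2 by norm_num),
    revAt_le (show 2 ≤ 2 by norm_num)]
  norm_num
  ring

section

variable {p : ℕ} [Fact p.Prime] {E : Type} [Field E] [NumberField E]

theorem Pat.cong {a b e : ℤ} {k : ℕ} (h : Pat a b e k) : ∃ a' b' : ℕ,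
    X ^ b' * (C a + C b * X + C e * X ^ 2 : Polynomial ℤ).map (Int.castRingHom (ZMod 2)) =
      X ^ a' * ((C a + C b * X + C e * X ^ 2 : Polynomial ℤ).reflect 2).map
        (Int.castRingHom (ZMod 2)) ∧ ((k : ZMod p) = ((2 : ℕ) : ZMod p) + a' - b') := by
  rw [reflect_two]
  have hE : ∀ u : ℤ, Even u → (Int.castRingHom (ZMod 2)) u = 0 := by
    intro u hu
    rw [eq_intCast, ZMod.intCast_zmod_eq_zero_iff_dvd]
    exact_mod_cast hu.two_dvd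
  have hO : ∀ u : ℤ, Odd u → (Int.castRingHom (ZMod 2)) u = 1 := by
    intro u hu
    obtain ⟨v, rfl⟩ := hu
    rw [map_add, map_mul, map_one]
    have : (Int.castRingHom (ZMod 2)) 2 = 0 := by decide
    rw [this, zero_mul, zero_add]
  simp only [Polynomial.map_add, Polynomial.map_mul, Polynomial.map_pow, Polynomial.map_C,
    Polynomial.map_X]
  rcases h with ⟨ha, hb, he, rfl⟩ | ⟨ha, hb, he, rfl⟩ | ⟨ha, hb, he, rfl⟩ | ⟨ha, hb, he, rfl⟩ |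
    ⟨ha, hb, he, rfl⟩ | ⟨ha, hb, he, rfl⟩ | ⟨ha, hb, he, rfl⟩
  · refine ⟨0, 2, ?_, by push_cast; ring⟩
    rw [hO a ha, hE b hb, hE e he]
    simp
  · refine ⟨0, 1, ?_, by push_cast; ring⟩
    rw [hO a ha, hO b hb, hE e he]
    simp
    ring
  · refine ⟨1, 0, ?_, by push_cast; ring⟩
    rw [hE a ha, hO b hb, hO e he]
    simp
    ring
  · refine ⟨2, 0, ?_, by push_cast; ring⟩
    rw [hE a ha, hE b hb, hO e he]
    simp
  · refine ⟨0, 0, ?_, by push_cast; ring⟩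
    rw [hE a ha, hO b hb, hE e he]
  · refine ⟨0, 0, ?_, by push_cast; ring⟩
    rw [hO a ha, hE b hb, hO e he]
  · refine ⟨0, 0, ?_, by push_cast; ring⟩
    rw [hO a ha, hO b hb, hO e he]

theorem wieE (h5 : 5 ≤ p) (hW : ¬ p ^ 2 ∣ 2 ^ (p - 1) - 1) (c : Cyc p E) (a b e n : ℤ)
    (hn : Odd n) (hpn : ¬ (p : ℤ) ∣ n) (hpu : ¬ (p : ℤ) ∣ a + b + e) (k : ℕ) (hk : Pat a b e k)
    (f : Polynomial ℤ) (hf : f = C a + C b * X + C e * X ^ 2) (h0 : aeval c.z f ≠ 0)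
    (hv : ∀ P : HeightOneSpectrum (𝓞 E), ∃ m : ℤ, P.valuation E (aeval c.z f) =
        P.valuation E ((n : ℤ) : E) * WithZero.exp ((p : ℤ) * m))
    (hcop : ∀ P : Ideal (𝓞 E), P.IsPrime → (2 : 𝓞 E) ∈ P → ∀ w : 𝓞 E,
      (w : E) = aeval c.z f → w ∉ P) :
    (k : ZMod p) * (a + b + e : ℤ) = 2 * (b + 2 * e : ℤ) := by
  have hpp : p.Prime := Fact.out
  have hp2 : p ≠ 2 := by omega
  have hev1 : f.eval 1 = a + b + e := by
    rw [hf]
    simp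
  have haev : aeval c.z f = (a : E) + b * c.z + e * c.z ^ 2 := by
    rw [hf]
    simp
  obtain ⟨g, hg, i, hi⟩ := relG aUNIT hp2 c f n hpn (by rw [hev1]; exact hpu) h0 hv
  have e1 := Y447.WQ.main p hp2 E c a b e n hpn hpu g hg i (by rw [← haev]; exact hi)
  obtain ⟨a', b', hc1, hc2⟩ := hk.cong (p := p)
  have hdeg : f.natDegree ≤ 2 := by
    rw [hf]
    compute_degree
  rw [← hf] at hc1
  have e2 := (Y261.WQ.mainTWOG p hp2 E c f n hn 2 a' b' hdeg hc1 hcop g hg i hi).resolve_right hW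
  have e3 : 2 * (i : ZMod p) = k * hs p := by rw [e2, hc2]
  have hs0 : hs p ≠ 0 := fun h => hW (Y388.WQ.HAR.main p hp2 h)
  apply mul_right_cancel₀ hs0
  calc (k : ZMod p) * (a + b + e : ℤ) * hs p = (k * hs p) * (a + b + e : ℤ) := by ring
    _ = 2 * ((i : ZMod p) * (a + b + e : ℤ)) := by rw [← e3]; ring
    _ = 2 * (b + 2 * e : ℤ) * hs p := by rw [e1]; ring

end

end Pool.Agent.Y546.WQ
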