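import Pool.Agent.Y546.WQ.Stm
import Pool.Agent.Y546.SG.Nf

/-!
# Project WQ: the norm of `x + z y` in the cyclotomic field
-/

set_option autoImplicit false

namespace Pool.Agent.Y546.WQ

open NumberField IsDedekindDomain

theorem fld (hI : S_IDE) (hD : S_DOWN) (p : ℕ) [Fact p.Prime] (hp : 3 ≤ p)
    (C : Type) [Field C] [NumberField C] (c : Cyc p C)
    (K : Type) [Field K] [NumberField K] (hK : Module.finrank ℚ K = 2) (σ : 𝓞 K →+* 𝓞 K)
    (hσ : Function.Injective σ)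
    (X Y Z : 𝓞 K) (hX : X ≠ 0) (hY : Y ≠ 0) (hZ : Z ≠ 0) (h : X ^ p + Y ^ p + Z ^ p = 0)
    (hcase : ∀ P : Ideal (𝓞 K), P.IsPrime → ((p : ℕ) : 𝓞 K) ∈ P → Z ∉ P)
    (a b e : ℤ) (ha : (a : 𝓞 K) = X * σ X) (hb : (b : 𝓞 K) = X * σ Y + σ X * Y)
    (he : (e : 𝓞 K) = Y * σ Y) :
    (a : C) + b * c.z + e * c.z ^ 2 ≠ 0 ∧ ((a + b + e : ℤ) : C) ≠ 0 ∧
    ∀ P : HeightOneSpectrum (𝓞 C), ∃ m : ℤ, P.valuation C ((a : C) + b * c.z + e * c.z ^ 2) =
      P.valuation C ((a + b + e : ℤ) : C) * WithZero.exp ((p : ℤ) * m) := by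
  have hp2 : p ≠ 2 := by omega
  have hpp : p.Prime := Fact.out
  have hodd : Odd p := hpp.odd_of_ne_two hp2
  obtain ⟨L, _, _, i, j, hL⟩ := hD p hp C c K hK
  -- the root of unity in the integers of L
  have hzint : IsIntegral ℤ (i c.z) := by
    have h1 : (i c.z) ^ p = 1 := by rw [← map_pow, c.prim.pow_eq_one, map_one]
    exact ⟨Polynomial.X ^ p - 1, Polynomial.monic_X_pow_sub_C 1 hpp.ne_zero, by simp [h1]⟩
  obtain ⟨zL, hzL⟩ : ∃ w : 𝓞 L, (w : L) = i c.z := ⟨⟨i c.z, hzint⟩, rfl⟩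
  have hzprim : IsPrimitiveRoot zL p := by
    apply IsPrimitiveRoot.of_map_of_injective (f := algebraMap (𝓞 L) L) _
      RingOfIntegers.coe_injective
    have h1 : algebraMap (𝓞 L) L zL = i c.z := hzL
    rw [h1]
    exact c.prim.map_of_injective i.injective
  set f : 𝓞 K →+* 𝓞 L := RingOfIntegers.mapRingHom j with hf
  have finj : Function.Injective f := by
    intro x y hxy
    apply RingOfIntegers.coe_injective
    apply j.injective
    have := congrArg (fun w : 𝓞 L => (w : L)) hxy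
    simpa [hf, RingOfIntegers.mapRingHom_apply] using this
  have key : ∀ (A B D : 𝓞 K), A ≠ 0 → B ≠ 0 → D ≠ 0 → A ^ p + B ^ p + D ^ p = 0 →
      (∀ P : Ideal (𝓞 K), P.IsPrime → ((p : ℕ) : 𝓞 K) ∈ P → D ∉ P) →
      (f A + f B ≠ 0 ∧ f A + zL * f B ≠ 0) ∧
      ∃ I J : Ideal (𝓞 L), I ≠ ⊥ ∧ J ≠ ⊥ ∧
        Ideal.span {f A + zL * f B} * J ^ p = Ideal.span {f A + f B} * I ^ p := by
    intro A B D hA hB hD0 habd hc
    obtain ⟨I, J, hI0, hJ0, hIJ⟩ := hI p hp2 (𝓞 L) zL hzprim (f A) (f B) (f D)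
      (fun h0 => hA (finj (by rw [h0, map_zero]))) (fun h0 => hB (finj (by rw [h0, map_zero])))
      (fun h0 => hD0 (finj (by rw [h0, map_zero])))
      (by rw [← map_pow, ← map_pow, ← map_pow, ← map_add, ← map_add, habd, map_zero])
      (fun P hP hpP hDP => hc (P.comap f) (hP.comap f)
        (by rw [Ideal.mem_comap, map_natCast]; exact hpP) (by rw [Ideal.mem_comap]; exact hDP))
    have h1 : f A + f B ≠ 0 := by
      intro h0
      have h2 : f A = -f B := eq_neg_of_add_eq_zero_left h0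
      have h3 : f D ^ p = 0 := by
        have h4 : f A ^ p + f B ^ p + f D ^ p = 0 := by
          rw [← map_pow, ← map_pow, ← map_pow, ← map_add, ← map_add, habd, map_zero]
        rw [h2, hodd.neg_pow, neg_add_cancel, zero_add] at h4
        exact h4
      have h5 := (pow_eq_zero_iff hpp.ne_zero).1 h3
      exact hD0 (finj (by rw [h5, map_zero]))
    refine ⟨⟨h1, ?_⟩, I, J, hI0, hJ0, hIJ⟩
    intro h0
    rw [h0, Ideal.span_singleton_eq_bot.2 rfl, Ideal.bot_mul] at hIJ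
    have h2 := hIJ.symm
    rw [Ideal.mul_eq_bot, Ideal.span_singleton_eq_bot] at h2
    rcases h2 with h2 | h2
    · exact h1 h2
    · exact hI0 ((pow_eq_zero_iff hpp.ne_zero).1 h2)
  obtain ⟨⟨h1, h2⟩, I1, J1, hI1, hJ1, e1⟩ := key X Y Z hX hY hZ h hcase
  obtain ⟨⟨h1', h2'⟩, I2, J2, hI2, hJ2, e2⟩ := key (σ X) (σ Y) (σ Z)
    (fun h0 => hX (hσ (by rw [h0, map_zero]))) (fun h0 => hY (hσ (by rw [h0, map_zero])))
    (fun h0 => hZ (hσ (by rw [h0, map_zero])))
    (by rw [← map_pow, ← map_pow, ← map_pow, ← map_add, ← map_add, h, map_zero])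
    (fun P hP hpP hZP => hcase (P.comap σ) (hP.comap σ)
      (by rw [Ideal.mem_comap, map_natCast]; exact hpP) (by rw [Ideal.mem_comap]; exact hZP))
  have hfa : f (a : 𝓞 K) = f X * f (σ X) := by rw [ha, map_mul]
  have hfb : f (b : 𝓞 K) = f X * f (σ Y) + f (σ X) * f Y := by rw [hb, map_add, map_mul, map_mul]
  have hfe : f (e : 𝓞 K) = f Y * f (σ Y) := by rw [he, map_mul]
  rw [map_intCast] at hfa hfb hfe
  have hU : (((f X + zL * f Y) * (f (σ X) + zL * f (σ Y)) : 𝓞 L) : L) =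
      i ((a : C) + b * c.z + e * c.z ^ 2) := by
    have e3 : (f X + zL * f Y) * (f (σ X) + zL * f (σ Y)) =
        (a : 𝓞 L) + b * zL + e * zL ^ 2 := by
      rw [hfa, hfb, hfe]
      ring
    rw [e3]
    have e4 : i ((a : C) + b * c.z + e * c.z ^ 2) = (a : L) + b * i c.z + e * (i c.z) ^ 2 := by
      simp only [map_add, map_mul, map_pow, map_intCast]
    rw [e4, ← hzL]
    push_cast
    rfl
  have hV : (((f X + f Y) * (f (σ X) + f (σ Y)) : 𝓞 L) : L) = i ((a + b + e : ℤ) : C) := by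
    have e3 : (f X + f Y) * (f (σ X) + f (σ Y)) = ((a + b + e : ℤ) : 𝓞 L) := by
      push_cast
      rw [hfa, hfb, hfe]
      ring
    rw [e3, map_intCast]
    push_cast
    rfl
  have hu0 : (a : C) + b * c.z + e * c.z ^ 2 ≠ 0 := by
    intro h0
    rw [h0, map_zero] at hU
    have h3 : (f X + zL * f Y) * (f (σ X) + zL * f (σ Y)) = 0 :=
      RingOfIntegers.coe_injective (by rw [map_zero]; exact hU)
    exact mul_ne_zero h2 h2' h3
  have hv0 : ((a + b + e : ℤ) : C) ≠ 0 := by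
    intro h0
    rw [h0, map_zero] at hV
    have h3 : (f X + f Y) * (f (σ X) + f (σ Y)) = 0 :=
      RingOfIntegers.coe_injective (by rw [map_zero]; exact hV)
    exact mul_ne_zero h1 h1' h3
  refine ⟨hu0, hv0, ?_⟩
  apply hL _ _ hu0 hv0 _ _ hU hV (I1 * I2) (J1 * J2)
  · intro h0
    rcases Ideal.mul_eq_bot.1 h0 with h3 | h3
    · exact hI1 h3
    · exact hI2 h3
  · intro h0
    rcases Ideal.mul_eq_bot.1 h0 with h3 | h3
    · exact hJ1 h3
    · exact hJ2 h3
  · rw [← Ideal.span_singleton_mul_span_singleton, ← Ideal.span_singleton_mul_span_singleton,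
      mul_pow, mul_pow]
    calc Ideal.span {f X + zL * f Y} * Ideal.span {f (σ X) + zL * f (σ Y)} * (J1 ^ p * J2 ^ p)
        = (Ideal.span {f X + zL * f Y} * J1 ^ p) *
          (Ideal.span {f (σ X) + zL * f (σ Y)} * J2 ^ p) := by ring
      _ = (Ideal.span {f X + f Y} * I1 ^ p) * (Ideal.span {f (σ X) + f (σ Y)} * I2 ^ p) := by
          rw [e1, e2]
      _ = Ideal.span {f X + f Y} * Ideal.span {f (σ X) + f (σ Y)} * (I1 ^ p * I2 ^ p) := by ring

end Pool.Agent.Y546.WQ
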