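import Pool.Agent.Y546.WQ.WieP
import Pool.Agent.Y546.WQ.Fld
import Pool.Agent.Y546.WQ.All
import Pool.Agent.Y655.WQ.CORE
import Pool.Agent.Y474.WQ.TWO
import Pool.Agent.Y447.WQ.LAM
import Pool.Agent.Y686.WQ.DOWN

/-!
# Project WQ: the Wieferich criterion over quadratic fields
-/

set_option autoImplicit false

namespace Pool.Agent.Y546.WQ

open NumberField IsDedekindDomain

section

variable {K : Type} [Field K] [NumberField K]

/-- the discriminant of the minimal polynomial of an integer -/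
theorem disc_eq (hK : Module.finrank ℚ K = 2) (σ : 𝓞 K →+* 𝓞 K)
    (hN : ∀ a : 𝓞 K, ((Algebra.norm ℤ a : ℤ) : 𝓞 K) = a * σ a)
    (hT : ∀ a : 𝓞 K, ((Algebra.trace ℤ (𝓞 K) a : ℤ) : 𝓞 K) = a + σ a) (a : 𝓞 K) :
    ∃ m : ℤ, Algebra.trace ℤ (𝓞 K) a ^ 2 - 4 * Algebra.norm ℤ a = m ^ 2 * NumberField.discr K := by
  classical
  have hfr : Module.finrank ℤ (𝓞 K) = 2 := by rw [RingOfIntegers.rank, hK]
  let b : Module.Basis (Fin 2) ℤ (𝓞 K) := Module.finBasisOfFinrankEq ℤ (𝓞 K) hfr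
  have h1 : Algebra.discr ℤ ![(1 : 𝓞 K), a] = (b.toMatrix ![(1 : 𝓞 K), a]).det ^ 2 *
      NumberField.discr K := by
    rw [← NumberField.discr_eq_discr K b, ← Algebra.discr_of_matrix_vecMul,
      Module.Basis.toMatrix_map_vecMul]
  have h2 : ((Algebra.discr ℤ ![(1 : 𝓞 K), a] : ℤ) : 𝓞 K) = (a - σ a) ^ 2 := by
    rw [Algebra.discr_def, Matrix.det_fin_two]
    simp only [Algebra.traceMatrix_apply, Algebra.traceForm_apply, Matrix.cons_val_zero,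
      Matrix.cons_val_one, one_mul, mul_one]
    push_cast
    rw [hT, hT, hT, map_one, map_mul]
    ring
  refine ⟨(b.toMatrix ![(1 : 𝓞 K), a]).det, ?_⟩
  rw [← h1]
  have h3 : ((Algebra.trace ℤ (𝓞 K) a ^ 2 - 4 * Algebra.norm ℤ a : ℤ) : 𝓞 K) =
      ((Algebra.discr ℤ ![(1 : 𝓞 K), a] : ℤ) : 𝓞 K) := by
    rw [h2]
    push_cast
    rw [hT, hN]
    ring
  exact_mod_cast h3

/-- conjugation is an involution -/
theorem conj_conj (σ : 𝓞 K →+* 𝓞 K)
    (hT : ∀ a : 𝓞 K, ((Algebra.trace ℤ (𝓞 K) a : ℤ) : 𝓞 K) = a + σ a) (a : 𝓞 K) :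
    σ (σ a) = a := by
  have h1 := congrArg σ (hT a)
  rw [map_intCast, hT a, map_add] at h1
  linear_combination -h1

/-- the linear relation modulo a prime number -/
theorem norm_rel (σ : 𝓞 K →+* 𝓞 K)
    (hN : ∀ a : 𝓞 K, ((Algebra.norm ℤ a : ℤ) : 𝓞 K) = a * σ a)
    (hT : ∀ a : 𝓞 K, ((Algebra.trace ℤ (𝓞 K) a : ℤ) : 𝓞 K) = a + σ a) (q : ℕ) (hq : q.Prime)
    {X Y Z : 𝓞 K}
    (h : ∀ P : Ideal (𝓞 K), P.IsPrime → ((q : ℕ) : 𝓞 K) ∈ P → X + Y + Z ∈ P) :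
    (q : ℤ) ∣ Algebra.norm ℤ X + Algebra.norm ℤ Y + Algebra.trace ℤ (𝓞 K) (X * σ Y) -
      Algebra.norm ℤ Z := by
  obtain ⟨P, hP, hqP⟩ := exists_above (K := K) q hq
  by_contra hcon
  apply int_notMem P hP q hq hqP _ hcon
  have h1 := h P hP hqP
  have h2 : σ (X + Y + Z) ∈ P := h (P.comap σ) (hP.comap σ)
    (by rw [Ideal.mem_comap, map_natCast]; exact hqP)
  push_cast
  rw [hN, hN, hN, hT, map_mul, conj_conj σ hT]
  have e : X * σ X + Y * σ Y + (X * σ Y + σ X * Y) - Z * σ Z =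
      (X + Y + Z) * (σ (X + Y + Z) - σ Z) + σ (X + Y + Z) * (-Z) := by
    simp only [map_add]
    ring
  rw [e]
  exact P.add_mem (P.mul_mem_right _ h1) (P.mul_mem_right _ h2)

/-- every integer satisfies `w ^ 4 = w` modulo a prime above two -/
theorem pow_four (σ : 𝓞 K →+* 𝓞 K)
    (hN : ∀ a : 𝓞 K, ((Algebra.norm ℤ a : ℤ) : 𝓞 K) = a * σ a)
    (hT : ∀ a : 𝓞 K, ((Algebra.trace ℤ (𝓞 K) a : ℤ) : 𝓞 K) = a + σ a)
    (P : Ideal (𝓞 K)) (hP : P.IsPrime) (h2 : (2 : 𝓞 K) ∈ P) (w : 𝓞 K) : w ^ 4 - w ∈ P := by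
  haveI := hP
  rw [← Ideal.Quotient.eq_zero_iff_mem, map_sub, map_pow]
  set u := Ideal.Quotient.mk P w with hu
  have h2' : (2 : 𝓞 K ⧸ P) = 0 := by
    have := Ideal.Quotient.eq_zero_iff_mem.2 h2
    rwa [map_ofNat] at this
  have h3 : w ^ 2 - ((Algebra.trace ℤ (𝓞 K) w : ℤ) : 𝓞 K) * w +
      ((Algebra.norm ℤ w : ℤ) : 𝓞 K) = 0 := by
    rw [hN, hT]
    ring
  have h4 := congrArg (Ideal.Quotient.mk P) h3
  simp only [map_add, map_sub, map_mul, map_pow, map_intCast, map_zero] at h4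
  rw [← hu] at h4
  rcases Int.even_or_odd (Algebra.trace ℤ (𝓞 K) w) with ⟨t, ht⟩ | ⟨t, ht⟩ <;>
    rcases Int.even_or_odd (Algebra.norm ℤ w) with ⟨n, hn⟩ | ⟨n, hn⟩
  · have h5 : u ^ 2 = 0 := by
      rw [ht, hn] at h4
      push_cast at h4
      linear_combination h4 + (t * u - n) * h2'
    have h6 : u = 0 := (pow_eq_zero_iff two_ne_zero).1 h5
    rw [h6]
    ring
  · have h5 : (u - 1) ^ 2 = 0 := by
      rw [ht, hn] at h4
      push_cast at h4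
      linear_combination h4 + (t * u - n - u) * h2'
    have h6 : u - 1 = 0 := (pow_eq_zero_iff two_ne_zero).1 h5
    rw [sub_eq_zero.1 h6]
    ring
  · have h5 : u ^ 2 = u := by
      rw [ht, hn] at h4
      push_cast at h4
      linear_combination h4 + (t * u - n) * h2'
    calc u ^ 4 - u = (u ^ 2) ^ 2 - u := by ring
      _ = 0 := by rw [h5, h5, sub_self]
  · have h5 : u ^ 2 = u + 1 := by
      rw [ht, hn] at h4
      push_cast at h4
      linear_combination h4 + (t * u - n - 1) * h2'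
    linear_combination (u ^ 2 + u + 1) * h5 + h5 + (u + 1) * h2'

end

end Pool.Agent.Y546.WQ
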