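import Mathlib

/-!
# Project WQ: the arithmetic of the three norms
-/

set_option autoImplicit false

namespace Pool.Agent.Y546.WQ

/-- the possible parities of the coefficients of the norm polynomial -/
def Par (a b e : ℤ) (k : ℕ) : Prop :=
  (Even a ∧ Even b ∧ Odd e ∧ k = 4) ∨ (Even a ∧ Odd b ∧ Even e ∧ k = 2) ∨
    (Even a ∧ Odd b ∧ Odd e ∧ k = 3) ∨ (Odd a ∧ Odd b ∧ Odd e ∧ k = 2)

variable {p : ℕ} [Fact p.Prime]

theorem two_ne (h5 : 5 ≤ p) : (2 : ZMod p) ≠ 0 := by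
  have h : ((2 : ℕ) : ZMod p) ≠ 0 := by
    rw [Ne, ZMod.natCast_eq_zero_iff]
    intro hd
    have := Nat.le_of_dvd (by norm_num) hd
    omega
  exact_mod_cast h

theorem three_ne (h5 : 5 ≤ p) : (3 : ZMod p) ≠ 0 := by
  have h : ((3 : ℕ) : ZMod p) ≠ 0 := by
    rw [Ne, ZMod.natCast_eq_zero_iff]
    intro hd
    have := Nat.le_of_dvd (by norm_num) hd
    omega
  exact_mod_cast h

theorem five_ne (h5 : 5 ≤ p) (h : p ≠ 5) : (5 : ZMod p) ≠ 0 := by
  have h : ((5 : ℕ) : ZMod p) ≠ 0 := by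
    rw [Ne, ZMod.natCast_eq_zero_iff]
    intro hd
    have := Nat.le_of_dvd (by norm_num) hd
    omega
  exact_mod_cast h

theorem caseI (h5 : 5 ≤ p) (A B G t s : ℤ) (hA : Even A) (hB : Odd B) (hG : Odd G)
    (c2 : Even (A + B + t - G)) (c2' : Even (A + G + s - B))
    (cp : (A + B + t : ZMod p) = G) (cp' : (A + G + s : ZMod p) = B)
    (W : ∀ k : ℕ, Par A t B k → (k : ZMod p) * (A + t + B) = 2 * (t + 2 * B))
    (W' : ∀ k : ℕ, Par A s G k → (k : ZMod p) * (A + s + G) = 2 * (s + 2 * G)) :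
    (A : ZMod p) = 0 := by
  have h2 := two_ne h5
  have ht : Even t := by
    rw [Int.even_iff] at *
    rw [Int.odd_iff] at hB hG
    omega
  have hs : Even s := by
    rw [Int.even_iff] at *
    rw [Int.odd_iff] at hB hG
    omega
  have e1 := W 4 (Or.inl ⟨hA, ht, hB, rfl⟩)
  have e2 := W' 4 (Or.inl ⟨hA, hs, hG, rfl⟩)
  push_cast at e1 e2
  have e3 : (2 : ZMod p) * (2 * A) = 0 := by
    linear_combination e1 + e2 - 2 * cp - 2 * cp'
  rcases mul_eq_zero.1 e3 with e4 | e4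
  · exact absurd e4 h2
  · exact (mul_eq_zero.1 e4).resolve_left h2

theorem caseII (h5 : 5 ≤ p) (A B G t s m d : ℤ) (hA : Even A) (hB : Even B) (hG : Odd G)
    (c2 : Even (A + B + t - G)) (c2' : Even (A + G + s - B))
    (cp : (A + B + t : ZMod p) = G) (cp' : (A + G + s : ZMod p) = B)
    (W : ∀ k : ℕ, Par A t B k → (k : ZMod p) * (A + t + B) = 2 * (t + 2 * B))
    (W' : ∀ k : ℕ, Par A s G k → (k : ZMod p) * (A + s + G) = 2 * (s + 2 * G))
    (hA0 : (A : ZMod p) ≠ 0) (hd : t ^ 2 - 4 * (A * B) = m ^ 2 * d) :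
    d % 8 = 1 ∧ Par A s G 3 ∧ (p ≠ 5 → ∃ r : ZMod p, r ≠ 0 ∧ r ^ 2 = -15 * d) := by
  have h2 := two_ne h5
  have h3 := three_ne h5
  have ht : Odd t := by
    rw [Int.even_iff] at *
    rw [Int.odd_iff] at *
    omega
  have hs : Odd s := by
    rw [Int.even_iff] at *
    rw [Int.odd_iff] at *
    omega
  have e1 := W 2 (Or.inr (Or.inl ⟨hA, ht, hB, rfl⟩))
  have e2 := W' 3 (Or.inr (Or.inr (Or.inl ⟨hA, hs, hG, rfl⟩)))
  push_cast at e1 e2
  have hAB : (A : ZMod p) = B := by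
    apply mul_left_cancel₀ h2
    linear_combination e1
  have hAG : 3 * (A : ZMod p) = 2 * G := by
    linear_combination e2 - cp' + hAB
  have htA : 2 * (t : ZMod p) = -A := by
    linear_combination 2 * cp - hAG + 2 * hAB
  have hdp : ((t : ZMod p)) ^ 2 - 4 * (A * B) = m ^ 2 * d := by
    have := congrArg (fun w : ℤ => (w : ZMod p)) hd
    push_cast at this
    exact this
  have key : 4 * ((m : ZMod p) ^ 2 * d) = -15 * A ^ 2 := by
    rw [← hdp, ← hAB]
    linear_combination (2 * (t : ZMod p) - A) * htA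
  refine ⟨?_, Or.inr (Or.inr (Or.inl ⟨hA, hs, hG, rfl⟩)), ?_⟩
  · obtain ⟨a, rfl⟩ := hA
    obtain ⟨b, rfl⟩ := hB
    obtain ⟨u, rfl⟩ := ht
    have hm : Odd m := by
      by_contra hcon
      rw [Int.not_odd_iff_even] at hcon
      obtain ⟨n, rfl⟩ := hcon
      have : (2 * u + 1) ^ 2 - 4 * ((a + a) * (b + b)) = 4 * (n ^ 2 * d) := by
        rw [hd]
        ring
      have e : (2 * u + 1) ^ 2 = 4 * (u ^ 2 + u) + 1 := by ring
      omega
    obtain ⟨n, rfl⟩ := hm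
    have e3 : ∃ c : ℤ, u ^ 2 + u = 2 * c := by
      rcases Int.even_or_odd u with ⟨c, rfl⟩ | ⟨c, rfl⟩
      · exact ⟨2 * c ^ 2 + c, by ring⟩
      · exact ⟨2 * c ^ 2 + 3 * c + 1, by ring⟩
    have e4 : ∃ c : ℤ, n ^ 2 + n = 2 * c := by
      rcases Int.even_or_odd n with ⟨c, rfl⟩ | ⟨c, rfl⟩
      · exact ⟨2 * c ^ 2 + c, by ring⟩
      · exact ⟨2 * c ^ 2 + 3 * c + 1, by ring⟩
    obtain ⟨c, hc⟩ := e3
    obtain ⟨c', hc'⟩ := e4
    have e5 : 1 + 8 * (c - 2 * (a * b)) = d + 8 * (c' * d) := by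
      have h1 : (2 * u + 1) ^ 2 - 4 * ((a + a) * (b + b)) = 1 + 4 * (u ^ 2 + u) - 16 * (a * b) := by
        ring
      have h2 : (2 * n + 1) ^ 2 * d = d + 4 * (n ^ 2 + n) * d := by ring
      rw [h1, h2, hc, hc'] at hd
      linear_combination hd
    omega
  · intro hp5
    have h15 : (15 : ZMod p) ≠ 0 := by
      have : (15 : ZMod p) = 3 * 5 := by norm_num
      rw [this]
      exact mul_ne_zero h3 (five_ne h5 hp5)
    refine ⟨2 * m * d / A, ?_, ?_⟩
    · intro h0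
      rw [div_eq_zero_iff] at h0
      rcases h0 with h0 | h0
      · have e : (15 : ZMod p) * A ^ 2 = 0 := by
          have h6 : (4 : ZMod p) * (m ^ 2 * d) = 2 * m * (2 * m * d) := by ring
          rw [h6, h0] at key
          linear_combination key
        exact mul_ne_zero h15 (pow_ne_zero 2 hA0) e
      · exact hA0 h0
    · rw [div_pow, div_eq_iff (pow_ne_zero 2 hA0)]
      linear_combination (d : ZMod p) * key

theorem caseIII (h5 : 5 ≤ p) (A B G t s m d : ℤ) (hA : Odd A) (hB : Odd B) (hG : Odd G)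
    (c2 : Even (A + B + t - G)) (c2' : Even (B + G + s - A))
    (cp : (A + B + t : ZMod p) = G)
    (W : ∀ k : ℕ, Par A t B k → (k : ZMod p) * (A + t + B) = 2 * (t + 2 * B))
    (W' : ∀ k : ℕ, Par B s G k → (k : ZMod p) * (B + s + G) = 2 * (s + 2 * G))
    (hA0 : (A : ZMod p) ≠ 0) (hd : t ^ 2 - 4 * (A * B) = m ^ 2 * d) :
    d % 8 = 5 ∧ ∃ r : ZMod p, r ≠ 0 ∧ r ^ 2 = -3 * d := by
  have h2 := two_ne h5
  have h3 := three_ne h5
  have ht : Odd t := by
    rw [Int.even_iff] at *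
    rw [Int.odd_iff] at *
    omega
  have hs : Odd s := by
    rw [Int.even_iff] at *
    rw [Int.odd_iff] at *
    omega
  have e1 := W 2 (Or.inr (Or.inr (Or.inr ⟨hA, ht, hB, rfl⟩)))
  have e2 := W' 2 (Or.inr (Or.inr (Or.inr ⟨hB, hs, hG, rfl⟩)))
  push_cast at e1 e2
  have hAB : (A : ZMod p) = B := by
    apply mul_left_cancel₀ h2
    linear_combination e1
  have hBG : (B : ZMod p) = G := by
    apply mul_left_cancel₀ h2
    linear_combination e2
  have htA : (t : ZMod p) = -A := by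
    linear_combination cp - hBG
  have hdp : ((t : ZMod p)) ^ 2 - 4 * (A * B) = m ^ 2 * d := by
    have := congrArg (fun w : ℤ => (w : ZMod p)) hd
    push_cast at this
    exact this
  have key : ((m : ZMod p) ^ 2 * d) = -3 * A ^ 2 := by
    rw [← hdp, ← hAB, htA]
    ring
  refine ⟨?_, m * d / A, ?_, ?_⟩
  · obtain ⟨a, rfl⟩ := hA
    obtain ⟨b, rfl⟩ := hB
    obtain ⟨u, rfl⟩ := ht
    have hm : Odd m := by
      by_contra hcon
      rw [Int.not_odd_iff_even] at hcon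
      obtain ⟨n, rfl⟩ := hcon
      have : (2 * u + 1) ^ 2 - 4 * ((2 * a + 1) * (2 * b + 1)) = 4 * (n ^ 2 * d) := by
        rw [hd]
        ring
      have e : (2 * u + 1) ^ 2 = 4 * (u ^ 2 + u) + 1 := by ring
      omega
    obtain ⟨n, rfl⟩ := hm
    have e3 : ∃ c : ℤ, u ^ 2 + u = 2 * c := by
      rcases Int.even_or_odd u with ⟨c, rfl⟩ | ⟨c, rfl⟩
      · exact ⟨2 * c ^ 2 + c, by ring⟩
      · exact ⟨2 * c ^ 2 + 3 * c + 1, by ring⟩
    have e4 : ∃ c : ℤ, n ^ 2 + n = 2 * c := by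
      rcases Int.even_or_odd n with ⟨c, rfl⟩ | ⟨c, rfl⟩
      · exact ⟨2 * c ^ 2 + c, by ring⟩
      · exact ⟨2 * c ^ 2 + 3 * c + 1, by ring⟩
    obtain ⟨c, hc⟩ := e3
    obtain ⟨c', hc'⟩ := e4
    have e5 : 8 * (c - 2 * (a * b) - a - b) - 3 = d + 8 * (c' * d) := by
      have h1 : (2 * u + 1) ^ 2 - 4 * ((2 * a + 1) * (2 * b + 1)) =
          1 + 4 * (u ^ 2 + u) - 8 * (2 * (a * b) + a + b) - 4 := by
        ring
      have h2 : (2 * n + 1) ^ 2 * d = d + 4 * (n ^ 2 + n) * d := by ring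
      rw [h1, h2, hc, hc'] at hd
      linear_combination hd
    omega
  · intro h0
    rw [div_eq_zero_iff] at h0
    rcases h0 with h0 | h0
    · have e : (3 : ZMod p) * A ^ 2 = 0 := by
        have h6 : (m : ZMod p) ^ 2 * d = m * (m * d) := by ring
        rw [h6, h0] at key
        linear_combination key
      exact mul_ne_zero h3 (pow_ne_zero 2 hA0) e
    · exact hA0 h0
  · rw [div_pow, div_eq_iff (pow_ne_zero 2 hA0)]
    linear_combination (d : ZMod p) * key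

end Pool.Agent.Y546.WQ
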