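import Pool.Agent.Y546.WQ.PalK
import Pool.Agent.Y824.WQ.POLA

/-!
# Project WQ: the polynomial argument with all Jacobi sums and a known exponent
-/

set_option autoImplicit false

namespace Pool.Agent.Y546.WQ

open NumberField IsDedekindDomain Polynomial

theorem polAA (hcore : S_CORE) (hcoreA : S_COREA) (p : ℕ) [Fact p.Prime] (m k i : ℕ)
    (f : Polynomial (ZMod p)) (r : ZMod p) (hp : 2 * m + 3 ≤ p) (hk : k ≤ 2 * m)
    (hf : f.natDegree ≤ m) (h0 : f.coeff 0 ≠ 0) (hm : f.coeff m ≠ 0) (h1 : f.eval 1 ≠ 0)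
    (hr : r ≠ 0) (hdvd : (X - 1) ^ (p - 1) ∣ thP p f - Polynomial.C r * X ^ i)
    (hik : 2 * (i : ZMod p) = k * hs p) (hh : hs p ≠ 0) (hrel : Rel p f)
    (hreg : ∀ j, Odd j → 3 ≤ j → j < 2 * m → Reg p j) : k = m ∧ f.reflect m = f := by
  refine Y824.WQ.pal hf h0 hm hk ?_
  by_cases hz : X ^ m * f - X ^ k * f.reflect m = 0
  · rw [hz]
    exact dvd_zero _
  obtain ⟨W, hW, hW1⟩ := exists_eq_pow_rootMultiplicity_mul_and_not_dvd _ hz 1
  set l := (X ^ m * f - X ^ k * f.reflect m).rootMultiplicity 1 with hl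
  rw [C_1] at hW hW1
  have hW2 : W.eval 1 ≠ 0 := by
    intro h
    apply hW1
    rw [← C_1, dvd_iff_isRoot]
    exact h
  have hl1 : 1 ≤ l := by
    rw [hl, Nat.one_le_iff_ne_zero, ← Nat.pos_iff_ne_zero, rootMultiplicity_pos hz, IsRoot.def]
    simp [Y824.WQ.eval_reflect hf]
  by_cases hl2 : l ≤ 2 * m
  · exfalso
    obtain ⟨h2, h3⟩ := hcore p (by omega) m k i l f W r hf h1 hr hdvd hW hW2 hl1 (by omega)
      (Or.inr hik)
    by_cases hl3 : l = 1
    · rw [hl3] at h3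
      apply hh
      unfold hsj at h3
      unfold hs
      simpa only [pow_one] using h3
    · have hl4 : 3 ≤ l := by
        rcases h2 with ⟨u, hu⟩
        omega
      obtain ⟨a, ha, hap, hne⟩ := hreg l h2 hl4 (by
        rcases h2 with ⟨u, hu⟩
        omega)
      obtain ⟨i', r', hr', hdv'⟩ := hrel a ha hap
      obtain ⟨-, h5⟩ := hcoreA p (by omega) a ha hap m k i' l f W r' hf h1 hr' hdv' hW hW2
        (by omega) (by omega)
      exact hne h5
  · rw [hW]
    exact Dvd.dvd.mul_right (pow_dvd_pow _ (by omega)) _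

end Pool.Agent.Y546.WQ
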