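import Pool.Agent.Y546.WQ.EvnQ
import Pool.Agent.Y445.WQ.CUB

/-!
# Project WE: the criterion of Cauchy, Genocchi and Kummer over quadratic fields
-/

set_option autoImplicit false

namespace Pool.Agent.Y546.WQ

open NumberField IsDedekindDomain Polynomial

section

variable {K : Type} [Field K] [NumberField K]

/-- the facts used for one pair -/
structure DatC (p : ℕ) [Fact p.Prime] (d A B G t : ℤ) : Prop where
  cp : (A : ZMod p) + B + t = G
  A0 : (A : ZMod p) ≠ 0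
  dd : ∃ m : ℤ, t ^ 2 - 4 * (A * B) = m ^ 2 * d

theorem datC {p : ℕ} [Fact p.Prime] (σ : 𝓞 K →+* 𝓞 K) (hK : Module.finrank ℚ K = 2)
    (hN : ∀ a : 𝓞 K, ((Algebra.norm ℤ a : ℤ) : 𝓞 K) = a * σ a)
    (hT : ∀ a : 𝓞 K, ((Algebra.trace ℤ (𝓞 K) a : ℤ) : 𝓞 K) = a + σ a)
    {X Y Z : 𝓞 K} (s : Sol p K X Y Z) :
    DatC p (NumberField.discr K) (Algebra.norm ℤ X) (Algebra.norm ℤ Y) (Algebra.norm ℤ Z)
      (Algebra.trace ℤ (𝓞 K) (X * σ Y)) := by
  have hpp : p.Prime := Fact.out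
  have hσσ := conj_conj σ hT
  refine ⟨?_, ?_, ?_⟩
  · have hp := norm_rel σ hN hT p hpp (X := X) (Y := Y) (Z := Z)
      (fun P hP hpP => lin_p hpp P hP hpP s.eq)
    have := (ZMod.intCast_zmod_eq_zero_iff_dvd _ p).2 hp
    push_cast at this
    linear_combination this
  · intro h0
    exact norm_ncp hpp σ hN (fun P hP hpP => (s.cp P hP hpP).1)
      ((ZMod.intCast_zmod_eq_zero_iff_dvd _ p).1 h0)
  · obtain ⟨m, hm⟩ := disc_eq hK σ hN hT (X * σ Y)
    refine ⟨m, ?_⟩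
    rw [← hm]
    have e : Algebra.norm ℤ (X * σ Y) = Algebra.norm ℤ X * Algebra.norm ℤ Y := by
      have e1 : ((Algebra.norm ℤ (X * σ Y) : ℤ) : 𝓞 K) =
          ((Algebra.norm ℤ X * Algebra.norm ℤ Y : ℤ) : 𝓞 K) := by
        push_cast
        rw [hN, hN, hN, map_mul, hσσ]
        ring
      exact_mod_cast e1
    rw [e]

theorem datR {p : ℕ} [Fact p.Prime] (h7 : 7 ≤ p) (hK : Module.finrank ℚ K = 2)
    (σ : 𝓞 K →+* 𝓞 K)
    (hN : ∀ a : 𝓞 K, ((Algebra.norm ℤ a : ℤ) : 𝓞 K) = a * σ a)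
    (hT : ∀ a : 𝓞 K, ((Algebra.trace ℤ (𝓞 K) a : ℤ) : 𝓞 K) = a + σ a)
    {E : Type} [Field E] [NumberField E] (c : Cyc p E) {X Y Z : 𝓞 K} (s : Sol p K X Y Z)
    (hreg : Reg p 3) (A B G : ZMod p) (hA : A = (Algebra.norm ℤ X : ℤ))
    (hB : B = (Algebra.norm ℤ Y : ℤ)) (hG : G = (Algebra.norm ℤ Z : ℤ)) :
    (A - B) * (G ^ 2 - 3 * (A + B) * G + 2 * (A - B) ^ 2) = 0 := by
  have hpp : p.Prime := Fact.out
  have hp2 : p ≠ 2 := by omega
  have hσσ := conj_conj σ hT
  have hσ : Function.Injective σ := by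
    intro x y hxy
    rw [← hσσ x, ← hσσ y, hxy]
  have hb : ((Algebra.trace ℤ (𝓞 K) (X * σ Y) : ℤ) : 𝓞 K) = X * σ Y + σ X * Y := by
    rw [hT, map_mul, hσσ]
  obtain ⟨f1, f2, f3⟩ := fld Y261.WQ.main Y686.WQ.main p (by omega) E c K hK σ hσ X Y Z s.X0
    s.Y0 s.Z0 s.eq (fun P hP hpP => (s.cp P hP hpP).2.2)
    (Algebra.norm ℤ X) (Algebra.trace ℤ (𝓞 K) (X * σ Y)) (Algebra.norm ℤ Y) (hN X) hb (hN Y)
  have hcp := (datC σ hK hN hT s).cp
  set a : ℤ := Algebra.norm ℤ X with ha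
  set e : ℤ := Algebra.norm ℤ Y with he
  set b : ℤ := Algebra.trace ℤ (𝓞 K) (X * σ Y) with hb'
  rw [← hA, ← hB, ← hG] at hcp
  have hG0 : G ≠ 0 := by
    rw [hG]
    intro h0
    exact norm_ncp hpp σ hN (fun P hP hpP => (s.cp P hP hpP).2.2)
      ((ZMod.intCast_zmod_eq_zero_iff_dvd _ p).1 h0)
  have hpu : ¬ (p : ℤ) ∣ a + b + e := by
    intro h
    apply hG0
    have h' := (ZMod.intCast_zmod_eq_zero_iff_dvd _ p).2 h
    push_cast at h'
    rw [← hcp, hA, hB]
    linear_combination h'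
  obtain ⟨f, hfd⟩ : ∃ f : Polynomial ℤ, f = Polynomial.C a + Polynomial.C b * Polynomial.X +
      Polynomial.C e * Polynomial.X ^ 2 := ⟨_, rfl⟩
  have haev : aeval c.z f = (a : E) + b * c.z + e * c.z ^ 2 := by
    rw [hfd]
    simp
  have hev1 : f.eval 1 = a + b + e := by
    rw [hfd]
    simp
  have hp1 : ¬ (p : ℤ) ∣ f.eval 1 := by rw [hev1]; exact hpu
  rw [← haev] at f1 f3
  have hrel : Rel p (f.map (Int.castRingHom (ZMod p))) := by
    intro a' ha' hap'
    obtain ⟨g', hg', k', hk'⟩ := relGA aUNITA hp2 a' ha' hap' c f _ hpu hp1 f1 f3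
    obtain ⟨r', hr', hdv'⟩ := Y919.WQ.mainLAMA p hp2 a' ha' hap' E c f _ hpu hp1 g' hg' k' hk'
    exact ⟨k', r', hr', hdv'⟩
  have hmap : f.map (Int.castRingHom (ZMod p)) = Polynomial.C A +
      Polynomial.C (b : ZMod p) * Polynomial.X + Polynomial.C B * Polynomial.X ^ 2 := by
    rw [hfd, hA, hB]
    simp
  rw [hmap] at hrel
  have hu : A + (b : ZMod p) + B = G := by rw [← hcp]; ring
  have := Y445.WQ.mainCUB p h7 _ _ _ (by rw [hu]; exact hG0) hreg hrel
  rw [hu] at this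
  exact this

theorem l7 {p : ℕ} [Fact p.Prime] (h7 : 7 ≤ p) {d A B G t : ℤ} (D : DatC p d A B G t)
    (hAB : (A : ZMod p) = B) (hG : (2 : ZMod p) * G = 7 * A) (hG0 : (G : ZMod p) ≠ 0) :
    ∃ s : ZMod p, s ≠ 0 ∧ s ^ 2 = -7 * (d : ZMod p) := by
  have hpp : p.Prime := Fact.out
  obtain ⟨m, hm⟩ := D.dd
  have hm' : (t : ZMod p) ^ 2 - 4 * (A * B) = m ^ 2 * d := by
    have := congrArg (fun w : ℤ => (w : ZMod p)) hm
    push_cast at this
    exact this
  have n2 : (2 : ZMod p) ≠ 0 := by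
    have := natc_ne hpp 2 (fun h => by have := Nat.le_of_dvd (by norm_num) h; omega)
    exact_mod_cast this
  have n7 : (7 : ZMod p) ≠ 0 := by
    intro h0
    rw [h0, zero_mul] at hG
    exact mul_ne_zero n2 hG0 hG
  have ht : (t : ZMod p) = G - A - B := by rw [← D.cp]; ring
  have key : (2 * (m : ZMod p)) ^ 2 * d = -7 * A ^ 2 := by
    have e : (2 : ZMod p) * t = 3 * A := by
      rw [ht, ← hAB]
      linear_combination hG
    rw [← hAB] at hm'
    have e2 : ((2 : ZMod p) * t) ^ 2 = (3 * A) ^ 2 := by rw [e]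
    linear_combination (-4 : ZMod p) * hm' + e2
  have m0 : (2 * (m : ZMod p)) ≠ 0 := by
    intro h0
    rw [h0] at key
    exact mul_ne_zero n7 (pow_ne_zero 2 D.A0) (by linear_combination key)
  refine ⟨7 * A / (2 * m), div_ne_zero (mul_ne_zero n7 D.A0) m0, ?_⟩
  rw [div_pow, div_eq_iff (pow_ne_zero 2 m0)]
  linear_combination (7 : ZMod p) * key

theorem l3 {p : ℕ} [Fact p.Prime] (h7 : 7 ≤ p) {d A B G t : ℤ} (D : DatC p d A B G t)
    (hAB : (A : ZMod p) = B) (hG : (G : ZMod p) = A) :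
    ∃ s : ZMod p, s ≠ 0 ∧ s ^ 2 = -3 * (d : ZMod p) := by
  have hpp : p.Prime := Fact.out
  obtain ⟨m, hm⟩ := D.dd
  have hm' : (t : ZMod p) ^ 2 - 4 * (A * B) = m ^ 2 * d := by
    have := congrArg (fun w : ℤ => (w : ZMod p)) hm
    push_cast at this
    exact this
  have n3 : (3 : ZMod p) ≠ 0 := by
    have := natc_ne hpp 3 (fun h => by have := Nat.le_of_dvd (by norm_num) h; omega)
    exact_mod_cast this
  have ht : (t : ZMod p) = -A := by
    have := D.cp
    rw [← hAB, hG] at this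
    linear_combination this
  have key : (m : ZMod p) ^ 2 * d = -3 * A ^ 2 := by
    rw [ht, ← hAB] at hm'
    linear_combination -hm'
  have m0 : (m : ZMod p) ≠ 0 := by
    intro h0
    rw [h0] at key
    exact mul_ne_zero n3 (pow_ne_zero 2 D.A0) (by linear_combination key)
  refine ⟨3 * A / m, div_ne_zero (mul_ne_zero n3 D.A0) m0, ?_⟩
  rw [div_pow, div_eq_iff (pow_ne_zero 2 m0)]
  linear_combination (3 : ZMod p) * key

/-- equality of norms from palindromic norm polynomials -/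
theorem normEq_of_pal {p : ℕ} (hpal : PalK p K) {X Y Z : 𝓞 K} (s : Sol p K X Y Z) :
    ((Algebra.norm ℤ X : ℤ) : ZMod p) = (Algebra.norm ℤ Y : ℤ) := by
  obtain ⟨f, hdeg, hc0, hcm, hev, hf⟩ := Y290.WQ.mainNORM K X Y
  have h1 := hpal X Y Z s f hdeg hc0 hcm hev hf
  have h2 := congrArg (fun g => g.coeff 0) h1
  simp only [coeff_reflect, revAt_le (Nat.zero_le _), Nat.sub_zero, coeff_map, hc0, hcm,
    eq_intCast] at h2
  exact h2.symm

/-- the criterion of Cauchy, Genocchi and Kummer over quadratic fields -/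
theorem mainQC {p : ℕ} (hp : p.Prime) (h7 : 7 ≤ p) (hK : Module.finrank ℚ K = 2)
    (hcond : (p - 3 ∉ irr p ∧ ((¬ ∃ s : ZMod p, s ≠ 0 ∧
        s ^ 2 = -7 * (NumberField.discr K : ZMod p)) ∨ p - 5 ∉ irr p)) ∨
      2 * (((irr p).card + 1) * ((irr p).card + 2)) + 3 ≤ p)
    (h3d : ¬ ∃ s : ZMod p, s ≠ 0 ∧ s ^ 2 = -3 * (NumberField.discr K : ZMod p))
    {x y z : K} (hx : x ≠ 0) (hy : y ≠ 0) (hz : z ≠ 0) (h : x ^ p + y ^ p + z ^ p = 0)
    (hv : ∀ v : HeightOneSpectrum (𝓞 K), ((p : ℕ) : 𝓞 K) ∈ v.asIdeal →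
      v.valuation K x = v.valuation K y ∧ v.valuation K y = v.valuation K z) : False := by
  have hfact : Fact p.Prime := ⟨hp⟩
  have hp2 : p ≠ 2 := by omega
  obtain ⟨σ, hN, hT⟩ := SG.exists_conj hK
  obtain ⟨E, _, _, ⟨c⟩⟩ := Y978.WQ.main p hp2
  obtain ⟨N, _, _, i, hcard, hD⟩ := Y258.WQ.mainDOWNG p E c K (by omega)
  have hD' : Dn p E N i := hD
  obtain ⟨X, Y, Z, hX, hY0, hZ, hXYZ, hcp, h2⟩ := prep hp hx hy hz h hv
  have s : Sol p K X Y Z := ⟨hX, hY0, hZ, hXYZ, hcp⟩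
  have d1 := datC σ hK hN hT s
  have d2 := datC σ hK hN hT s.rot
  have d3 := datC σ hK hN hT s.rot.rot
  have hodd : Odd p := hp.odd_of_ne_two hp2
  have hfin : ((Algebra.norm ℤ X : ℤ) : ZMod p) = (Algebra.norm ℤ Y : ℤ) →
      ((Algebra.norm ℤ Z : ℤ) : ZMod p) = (Algebra.norm ℤ X : ℤ) → False :=
    fun e1 e2 => h3d (l3 h7 d1 e1 e2)
  have hpal : (2 * Module.finrank ℚ K + 3 ≤ p ∧
        ∀ k ∈ irr p, k + 2 * Module.finrank ℚ K + 1 < p) ∨
      Module.finrank ℚ K * (((irr p).card + 1) * ((irr p).card + 2)) + 3 ≤ p → False := by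
    intro hreg
    have hpal : PalK p K := palK aUNITA Y261.WQ.main Y919.WQ.mainLAMA Y290.WQ.mainNORM
      (Y510.WQ.mainPOLBA Y275.WQ.mainCOREA) (Y590.WQ.mainPOLE Y780.WQ.mainPOLE1 Y286.WQ.mainPOLE2)
      Y61.WQ.mainBER c i hD' hcard hreg
    exact hfin (normEq_of_pal hpal s) (normEq_of_pal hpal s.rot.rot)
  rcases hcond with ⟨hc3, hc⟩ | hc
  · rcases hc with hc | hc
    · have hreg : Reg p 3 := reg_of Y61.WQ.mainBER 3 (by decide) le_rfl (by omega) hc3
      have r1 := datR h7 hK σ hN hT c s hreg _ _ _ rfl rfl rfl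
      have r2 := datR h7 hK σ hN hT c s.rot hreg _ _ _ rfl rfl rfl
      have r3 := datR h7 hK σ hN hT c s.rot.rot hreg _ _ _ rfl rfl rfl
      have A0 := d1.A0
      have B0 := d2.A0
      have G0 := d3.A0
      obtain ⟨A, hA⟩ : ∃ A : ZMod p, A = (Algebra.norm ℤ X : ℤ) := ⟨_, rfl⟩
      obtain ⟨B, hB⟩ : ∃ B : ZMod p, B = (Algebra.norm ℤ Y : ℤ) := ⟨_, rfl⟩
      obtain ⟨G, hG⟩ : ∃ G : ZMod p, G = (Algebra.norm ℤ Z : ℤ) := ⟨_, rfl⟩
      rw [← hA, ← hB, ← hG] at r1 r2 r3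
      rw [← hA] at A0
      rw [← hB] at B0
      rw [← hG] at G0
      have n2 : (2 : ZMod p) ≠ 0 := by
        have := natc_ne hp 2 (fun h => by have := Nat.le_of_dvd (by norm_num) h; omega)
        exact_mod_cast this
      by_cases hAB : A = B
      · by_cases hBG : B = G
        · exact hfin (by rw [← hA, ← hB]; exact hAB) (by rw [← hA, ← hG, hAB, hBG])
        · apply hc
          refine l7 h7 d1 (by rw [← hA, ← hB]; exact hAB) ?_ (by rw [← hG]; exact G0)
          rw [← hA, ← hG]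
          have e := (mul_eq_zero.1 r2).resolve_left (sub_ne_zero.2 hBG)
          rw [← hAB] at e
          have e2 : G * (2 * G - 7 * A) = 0 := by linear_combination e
          exact sub_eq_zero.1 ((mul_eq_zero.1 e2).resolve_left G0)
      · by_cases hBG : B = G
        · apply hc
          refine l7 h7 d2 (by rw [← hB, ← hG]; exact hBG) ?_ (by rw [← hA]; exact A0)
          rw [← hA, ← hB]
          have e := (mul_eq_zero.1 r1).resolve_left (sub_ne_zero.2 hAB)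
          rw [← hBG] at e
          have e2 : A * (2 * A - 7 * B) = 0 := by linear_combination e
          exact sub_eq_zero.1 ((mul_eq_zero.1 e2).resolve_left A0)
        · by_cases hGA : G = A
          · apply hc
            refine l7 h7 d3 (by rw [← hG, ← hA]; exact hGA) ?_ (by rw [← hB]; exact B0)
            rw [← hB, ← hG]
            have e := (mul_eq_zero.1 r1).resolve_left (sub_ne_zero.2 hAB)
            rw [← hGA] at e
            have e2 : B * (2 * B - 7 * G) = 0 := by linear_combination e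
            exact sub_eq_zero.1 ((mul_eq_zero.1 e2).resolve_left B0)
          · have e1 := (mul_eq_zero.1 r1).resolve_left (sub_ne_zero.2 hAB)
            have e2 := (mul_eq_zero.1 r2).resolve_left (sub_ne_zero.2 hBG)
            have e3 := (mul_eq_zero.1 r3).resolve_left (sub_ne_zero.2 hGA)
            have f1 : (A - G) * (A + G - B) = 0 := by linear_combination e1 - e2
            have f2 : (B - A) * (B + A - G) = 0 := by linear_combination e2 - e3
            have g1 := (mul_eq_zero.1 f1).resolve_left (sub_ne_zero.2 (Ne.symm hGA))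
            have g2 := (mul_eq_zero.1 f2).resolve_left (sub_ne_zero.2 (Ne.symm hAB))
            exact mul_ne_zero n2 A0 (by linear_combination g1 + g2)
    · refine hpal (Or.inl ?_)
      rw [hK]
      refine ⟨by omega, fun k hk => ?_⟩
      have hk' := (Finset.mem_filter.1 (by unfold irr at hk; exact hk)).2
      have h3' : k ≠ p - 3 := fun h => hc3 (h ▸ hk)
      have h5' : k ≠ p - 5 := fun h => hc (h ▸ hk)
      obtain ⟨⟨a, ha⟩, h2k, h3k, -⟩ := hk'
      obtain ⟨b, hb⟩ := hodd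
      omega
  · exact hpal (Or.inr (by rw [hK]; exact hc))

end

end Pool.Agent.Y546.WQ
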