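import Pool.Agent.Y546.WQ.TerR

/-!
# Project RT: real quadratic fields of prime discriminant
-/

set_option autoImplicit false

namespace Pool.Agent.Y546.WQ

open NumberField IsDedekindDomain Polynomial

section

variable {K : Type} [Field K] [NumberField K]

theorem sigma_root (σ : 𝓞 K →+* 𝓞 K)
    (hT : ∀ a : 𝓞 K, ((Algebra.trace ℤ (𝓞 K) a : ℤ) : 𝓞 K) = a + σ a)
    {q : ℕ} (hq : q.Prime) (R : 𝓞 K) (hR : R ^ 2 = (q : 𝓞 K)) : σ R = -R := by
  have h1 : (σ R - R) * (σ R + R) = 0 := by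
    have : σ R ^ 2 = (q : 𝓞 K) := by rw [← map_pow, hR, map_natCast]
    linear_combination this - hR
  rcases mul_eq_zero.1 h1 with h2 | h2
  · exfalso
    have h3 : σ R = R := sub_eq_zero.1 h2
    have h4 := hT R
    rw [h3] at h4
    obtain ⟨t, ht⟩ : ∃ t : ℤ, t = Algebra.trace ℤ (𝓞 K) R := ⟨_, rfl⟩
    rw [← ht] at h4
    have h5 : ((t ^ 2 : ℤ) : 𝓞 K) = ((4 * (q : ℤ) : ℤ) : 𝓞 K) := by
      push_cast
      rw [h4]
      linear_combination 4 * hR
    have h6 : t ^ 2 = 4 * (q : ℤ) := by exact_mod_cast h5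
    have h7 : (q : ℤ) ∣ t := by
      have : (q : ℤ) ∣ t ^ 2 := ⟨4, by rw [h6]; ring⟩
      exact (Nat.prime_iff_prime_int.1 hq).dvd_of_dvd_pow this
    obtain ⟨m, hm⟩ := h7
    rw [hm] at h6
    have hq0 : (q : ℤ) ≠ 0 := by exact_mod_cast hq.ne_zero
    have h8 : (q : ℤ) * m ^ 2 = 4 := by
      apply mul_left_cancel₀ hq0
      linear_combination h6
    have h9 : (q : ℤ) ∣ 4 := ⟨m ^ 2, h8.symm⟩
    have h10 : q ∣ 2 ^ 2 := by exact_mod_cast h9
    have h11 := (Nat.prime_dvd_prime_iff_eq hq Nat.prime_two).1 (hq.dvd_of_dvd_pow h10)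
    rw [h11] at h8
    push_cast at h8
    have h12 : m ^ 2 = 2 := by linarith
    have h13 : m ≤ 1 ∧ -1 ≤ m := by constructor <;> nlinarith
    have h14 : m = -1 ∨ m = 0 ∨ m = 1 := by omega
    rcases h14 with h | h | h <;> rw [h] at h12 <;> norm_num at h12
  · linear_combination h2

/-- an integral square root -/
theorem exists_R {q : ℕ} (hr : ∃ r : K, r ^ 2 = (q : K)) : ∃ R : 𝓞 K, R ^ 2 = (q : 𝓞 K) := by
  obtain ⟨r, hr⟩ := hr
  have hint : IsIntegral ℤ r := ⟨X ^ 2 - C (q : ℤ), monic_X_pow_sub_C _ two_ne_zero, by simp [hr]⟩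
  obtain ⟨R, hR⟩ : ∃ R : 𝓞 K, algebraMap (𝓞 K) K R = r := ⟨⟨r, hint⟩, rfl⟩
  refine ⟨R, RingOfIntegers.coe_injective ?_⟩
  rw [map_pow, map_natCast, hR]
  exact hr

/-- all conjugates are real -/
theorem real_of (hK : Module.finrank ℚ K = 2) {q : ℕ} (hq : q.Prime)
    (hr : ∃ r : K, r ^ 2 = (q : K)) : Real' K := by
  obtain ⟨σ, hN, hT⟩ := SG.exists_conj hK
  obtain ⟨R, hR⟩ := exists_R hr
  have hσR := sigma_root σ hT hq R hR
  -- the discriminant is positive
  have hd : 0 < NumberField.discr K := by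
    obtain ⟨m, hm⟩ := disc_eq hK σ hN hT R
    have h1 : Algebra.trace ℤ (𝓞 K) R = 0 := by
      have h2 := hT R
      rw [hσR, add_neg_cancel] at h2
      exact_mod_cast h2
    have h2 : Algebra.norm ℤ R = -(q : ℤ) := by
      have h3 := hN R
      rw [hσR] at h3
      have h4 : ((Algebra.norm ℤ R : ℤ) : 𝓞 K) = ((-(q : ℤ) : ℤ) : 𝓞 K) := by
        rw [h3]
        push_cast
        linear_combination -hR
      exact_mod_cast h4
    rw [h1, h2] at hm
    have hq0 : (0 : ℤ) < q := by exact_mod_cast hq.pos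
    by_contra hcon
    push Not at hcon
    have : m ^ 2 * NumberField.discr K ≤ 0 := mul_nonpos_of_nonneg_of_nonpos (sq_nonneg m) hcon
    rw [← hm] at this
    linarith
  -- integers
  have hint : ∀ (φ : K →+* ℂ) (a : 𝓞 K), ∃ r : ℝ, φ (a : K) = r := by
    intro φ a
    obtain ⟨m, hm⟩ := disc_eq hK σ hN hT a
    obtain ⟨T, hTd⟩ : ∃ T : ℤ, T = Algebra.trace ℤ (𝓞 K) a := ⟨_, rfl⟩
    obtain ⟨N, hNd⟩ : ∃ N : ℤ, N = Algebra.norm ℤ a := ⟨_, rfl⟩
    have h1 := hT a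
    have h2 := hN a
    rw [← hTd] at h1 hm
    rw [← hNd] at h2 hm
    have h3 : (2 * a - (T : 𝓞 K)) ^ 2 = ((m ^ 2 * NumberField.discr K : ℤ) : 𝓞 K) := by
      rw [← hm]
      push_cast
      have hs : σ a = T - a := by rw [h1]; ring
      rw [hs] at h2
      linear_combination 4 * h2
    have h4 : (2 * φ (a : K) - (T : ℂ)) ^ 2 = ((m ^ 2 * NumberField.discr K : ℤ) : ℂ) := by
      have h5 : φ (algebraMap (𝓞 K) K ((2 * a - (T : 𝓞 K)) ^ 2)) =
          φ (algebraMap (𝓞 K) K ((m ^ 2 * NumberField.discr K : ℤ) : 𝓞 K)) := by rw [h3]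
      simp only [map_pow, map_sub, map_mul, map_ofNat, map_intCast] at h5
      exact h5
    obtain ⟨w, hw⟩ : ∃ w : ℂ, w = 2 * φ (a : K) - (T : ℂ) := ⟨_, rfl⟩
    rw [← hw] at h4
    have h5 : (0 : ℤ) ≤ m ^ 2 * NumberField.discr K := mul_nonneg (sq_nonneg m) hd.le
    have h6 : w.im = 0 := by
      have hre := congrArg Complex.re h4
      have him := congrArg Complex.im h4
      simp only [sq, Complex.mul_re, Complex.mul_im, Complex.intCast_re, Complex.intCast_im] at hre him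
      have h7 : w.re * w.im = 0 := by linarith
      rcases mul_eq_zero.1 h7 with h8 | h8
      · rw [h8] at hre
        have h9 : (0 : ℝ) ≤ ((m ^ 2 * NumberField.discr K : ℤ) : ℝ) := by exact_mod_cast h5
        rw [sq] at h9
        nlinarith [mul_self_nonneg w.im]
      · exact h8
    refine ⟨(w.re + T) / 2, ?_⟩
    have h7 : w = (w.re : ℂ) := Complex.ext rfl (by simpa using h6)
    have h8 : φ (a : K) = (w + T) / 2 := by rw [hw]; ring
    rw [h8, h7]
    push_cast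
    simp
  intro φ a
  obtain ⟨b, c, hc, hbc⟩ := IsFractionRing.div_surjective (A := 𝓞 K) a
  obtain ⟨s, hs⟩ := hint φ b
  obtain ⟨t, ht⟩ := hint φ c
  refine ⟨s / t, ?_⟩
  rw [← hbc, map_div₀]
  push_cast
  rw [← hs, ← ht]

/-- two splits -/
theorem split_two (hK : Module.finrank ℚ K = 2) {q : ℕ} (hq : q.Prime) (hq8 : q % 8 = 1)
    (hr : ∃ r : K, r ^ 2 = (q : K)) :
    ∃ v : HeightOneSpectrum (𝓞 K), Nat.card (𝓞 K ⧸ v.asIdeal) = 2 ∧
      (2 : 𝓞 K) ∈ v.asIdeal ^ 1 ∧ (2 : 𝓞 K) ∉ v.asIdeal ^ (1 + 1) := by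
  obtain ⟨σ, hN, hT⟩ := SG.exists_conj hK
  have hσσ := conj_conj σ hT
  obtain ⟨R, hR⟩ := exists_R hr
  have hσR := sigma_root σ hT hq R hR
  -- the integer (1 + R) / 2
  obtain ⟨k, hk⟩ : ∃ k : ℕ, q = 8 * k + 1 := ⟨q / 8, by omega⟩
  obtain ⟨W, hW2, hW⟩ : ∃ W : 𝓞 K, 2 * W = 1 + R ∧ W * (W - 1) = 2 * k := by
    have hRK : ((R : K)) ^ 2 = 8 * k + 1 := by
      have := congrArg (fun w : 𝓞 K => (w : K)) hR
      simp only [map_pow, map_natCast] at this
      rw [this, hk]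
      push_cast
      ring
    have hw : ((1 + (R : K)) / 2) * ((1 + (R : K)) / 2 - 1) = 2 * k := by
      linear_combination (1 / 4 : K) * hRK
    have hint : IsIntegral ℤ ((1 + (R : K)) / 2) := by
      refine ⟨X ^ 2 - X - C (2 * k : ℤ), ?_, ?_⟩
      · have e : (X ^ 2 - X - C (2 * k : ℤ) : Polynomial ℤ) = X ^ 2 - (X + C (2 * k : ℤ)) := by ring
        rw [e]
        refine monic_X_pow_sub ?_
        rw [degree_X_add_C]
        norm_num
      · simp only [eval₂_sub, eval₂_pow, eval₂_X, eval₂_C]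
        push_cast
        have : (algebraMap ℤ K) (2 * (k : ℤ)) = 2 * k := by simp
        simp only [map_mul, map_ofNat, map_natCast]
        linear_combination hw
    refine ⟨⟨_, hint⟩, RingOfIntegers.coe_injective ?_, RingOfIntegers.coe_injective ?_⟩
    · simp only [map_mul, map_add, map_one, map_ofNat]
      change 2 * ((1 + (R : K)) / 2) = 1 + (R : K)
      ring
    · simp only [map_mul, map_sub, map_one, map_ofNat, map_natCast]
      exact hw
  have h20 : (2 : 𝓞 K) ≠ 0 := two_ne_zero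
  have hσW : σ W = 1 - W := by
    apply mul_left_cancel₀ h20
    have h1 := congrArg σ hW2
    rw [map_mul, map_add, map_one, map_ofNat, hσR] at h1
    linear_combination h1 + hW2
  obtain ⟨P, hP, hP2'⟩ := exists_above (K := K) 2 Nat.prime_two
  have hP2 : (2 : 𝓞 K) ∈ P := by exact_mod_cast hP2'
  have hP0 : P ≠ ⊥ := by
    rintro rfl
    rw [Ideal.mem_bot] at hP2
    exact h20 hP2
  set P' : Ideal (𝓞 K) := P.comap σ with hP'def
  have hP' : P'.IsPrime := hP.comap σ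
  have hP'2 : (2 : 𝓞 K) ∈ P' := by
    rw [hP'def, Ideal.mem_comap, map_ofNat]
    exact hP2
  have hmem : W ∈ P ∨ W - 1 ∈ P := by
    apply hP.mem_or_mem
    rw [hW]
    exact P.mul_mem_right _ hP2
  have hone := one_notMem P hP
  have hle : ¬ P' ≤ P := by
    intro hle
    apply hone
    rcases hmem with h | h
    · have h1 : 1 - W ∈ P' := by
        rw [hP'def, Ideal.mem_comap, map_sub, map_one, hσW, sub_sub_cancel]
        exact h
      have := P.add_mem (hle h1) h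
      rwa [sub_add_cancel] at this
    · have h1 : W ∈ P' := by
        rw [hP'def, Ideal.mem_comap, hσW, ← neg_sub]
        exact neg_mem h
      have := P.sub_mem (hle h1) h
      rwa [sub_sub_cancel] at this
  have hcop : IsCoprime P P' := by
    rw [Ideal.isCoprime_iff_sup_eq]
    by_contra hne
    have hPm : P.IsMaximal := hP.isMaximal hP0
    have h1 : P = P ⊔ P' := hPm.eq_of_le hne le_sup_left
    exact hle (le_sup_right.trans h1.symm.le)
  have hmul : P * P' ∣ Ideal.span {(2 : 𝓞 K)} := by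
    rw [Ideal.dvd_span_singleton, ← Ideal.inf_eq_mul_of_isCoprime hcop]
    exact ⟨hP2, hP'2⟩
  have hnorm2 : Ideal.absNorm (Ideal.span {(2 : 𝓞 K)}) = 4 := by
    rw [Ideal.absNorm_span_singleton]
    have h1 : Algebra.norm ℤ (2 : 𝓞 K) = 4 := by
      have h2 := hN 2
      have hσ2 : σ 2 = 2 := map_ofNat σ 2
      rw [hσ2] at h2
      have h3 : ((Algebra.norm ℤ (2 : 𝓞 K) : ℤ) : 𝓞 K) = ((4 : ℤ) : 𝓞 K) := by
        rw [h2]
        push_cast
        norm_num
      exact_mod_cast h3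
    rw [h1]
    rfl
  have hdv : Ideal.absNorm P * Ideal.absNorm P' ∣ 4 := by
    rw [← hnorm2, ← map_mul]
    exact Ideal.absNorm_dvd_absNorm_of_le (Ideal.dvd_iff_le.1 hmul)
  have hn1 : Ideal.absNorm P ≠ 1 := fun h => hP.ne_top (Ideal.absNorm_eq_one_iff.1 h)
  have hn1' : Ideal.absNorm P' ≠ 1 := fun h => hP'.ne_top (Ideal.absNorm_eq_one_iff.1 h)
  have hPn : Ideal.absNorm P = 2 ∧ Ideal.absNorm P' = 2 := by
    obtain ⟨a, ha⟩ : ∃ a, a = Ideal.absNorm P := ⟨_, rfl⟩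
    obtain ⟨b, hb⟩ : ∃ b, b = Ideal.absNorm P' := ⟨_, rfl⟩
    rw [← ha, ← hb] at hdv
    rw [← ha] at hn1
    rw [← hb] at hn1'
    rw [← ha, ← hb]
    have h1 : a ∣ 2 ^ 2 := (dvd_mul_right a b).trans hdv
    have h2 : b ∣ 2 ^ 2 := (dvd_mul_left b a).trans hdv
    obtain ⟨i, hi, rfl⟩ := (Nat.dvd_prime_pow Nat.prime_two).1 h1
    obtain ⟨j, hj, rfl⟩ := (Nat.dvd_prime_pow Nat.prime_two).1 h2
    have hi0 : i ≠ 0 := by rintro rfl; exact hn1 rfl
    have hj0 : j ≠ 0 := by rintro rfl; exact hn1' rfl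
    rw [← pow_add] at hdv
    have h3 : 2 ^ (i + j) ≤ 2 ^ 2 := Nat.le_of_dvd (by norm_num) hdv
    have h4 : i + j ≤ 2 := (Nat.pow_le_pow_iff_right (by norm_num)).1 h3
    have h5 : i = 1 := by omega
    have h6 : j = 1 := by omega
    rw [h5, h6]
    exact ⟨rfl, rfl⟩
  refine ⟨⟨P, hP, hP0⟩, ?_, ?_, ?_⟩
  · have := hPn.1
    rwa [Ideal.absNorm_apply, Submodule.cardQuot_apply] at this
  · rw [pow_one]
    exact hP2
  · change (2 : 𝓞 K) ∉ P ^ 2
    intro h22
    have h1 : P ^ 2 ∣ Ideal.span {(2 : 𝓞 K)} := by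
      rw [Ideal.dvd_span_singleton]
      exact h22
    have h3 : P ^ 2 * P' ∣ Ideal.span {(2 : 𝓞 K)} :=
      (hcop.pow_left).mul_dvd h1 ((dvd_mul_left P' P).trans hmul)
    have h4 : Ideal.absNorm P ^ 2 * Ideal.absNorm P' ∣ 4 := by
      rw [← hnorm2, ← map_pow, ← map_mul]
      exact Ideal.absNorm_dvd_absNorm_of_le (Ideal.dvd_iff_le.1 h3)
    rw [hPn.1, hPn.2] at h4
    norm_num at h4

end

end Pool.Agent.Y546.WQ
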