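import Pool.Agent.Y546.SG.Main

/-!
# Project WQ: scaling at finitely many primes
-/

set_option autoImplicit false

namespace Pool.Agent.Y546.WQ

open NumberField IsDedekindDomain

variable {K : Type*} [Field K] [NumberField K]

theorem crt1 (T : Finset (HeightOneSpectrum (𝓞 K))) (P : HeightOneSpectrum (𝓞 K)) :
    ∃ c : 𝓞 K, ∀ P' ∈ T, (P' = P → c - 1 ∈ P'.asIdeal) ∧ (P' ≠ P → c ∈ P'.asIdeal) := by
  classical
  obtain ⟨c, hc⟩ := IsDedekindDomain.exists_forall_sub_mem_ideal (s := T)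
    (fun P : HeightOneSpectrum (𝓞 K) => P.asIdeal) (fun _ => 1)
    (fun P _ => P.prime) (fun P _ P' _ h h' => h (HeightOneSpectrum.ext h'))
    (fun P' => if (P' : HeightOneSpectrum (𝓞 K)) = P then (1 : 𝓞 K) else 0)
  refine ⟨c, fun P' hP' => ⟨fun h => ?_, fun h => ?_⟩⟩
  · have := hc P' hP'
    simpa [h] using this
  · have := hc P' hP'
    simpa [h] using this

theorem scaleT {x y z : K} (hx : x ≠ 0) (T : Finset (HeightOneSpectrum (𝓞 K))) :
    ∃ a : K, ∃ X Y Z : 𝓞 K, algebraMap (𝓞 K) K X = a * x ∧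
      algebraMap (𝓞 K) K Y = a * y ∧ algebraMap (𝓞 K) K Z = a * z ∧
      ∀ P ∈ T, ¬ (X ∈ P.asIdeal ∧ Y ∈ P.asIdeal ∧ Z ∈ P.asIdeal) := by
  classical
  choose a X Y Z h1 h2 h3 h4 using fun P : HeightOneSpectrum (𝓞 K) =>
    SG.scale1 (y := y) (z := z) hx P.asIdeal P.isPrime.ne_top
  choose c hc using fun P : HeightOneSpectrum (𝓞 K) => crt1 T P
  have key : ∀ (W : HeightOneSpectrum (𝓞 K) → 𝓞 K) (P : HeightOneSpectrum (𝓞 K)), P ∈ T →
      (∑ P' ∈ T, c P' * W P') - W P ∈ P.asIdeal := by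
    intro W P hP
    rw [← Finset.add_sum_erase _ _ hP]
    have e : c P * W P + ∑ P' ∈ T.erase P, c P' * W P' - W P =
        (c P - 1) * W P + ∑ P' ∈ T.erase P, c P' * W P' := by ring
    rw [e]
    refine P.asIdeal.add_mem (P.asIdeal.mul_mem_right _ ((hc P P hP).1 rfl))
      (P.asIdeal.sum_mem fun P' hP' => P.asIdeal.mul_mem_right _
        ((hc P' P hP).2 (Finset.ne_of_mem_erase hP').symm))
  refine ⟨∑ P ∈ T, (c P : K) * a P, ∑ P ∈ T, c P * X P, ∑ P ∈ T, c P * Y P,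
    ∑ P ∈ T, c P * Z P, ?_, ?_, ?_, ?_⟩
  · rw [map_sum, Finset.sum_mul]
    refine Finset.sum_congr rfl fun P _ => ?_
    rw [map_mul, h1]
    ring
  · rw [map_sum, Finset.sum_mul]
    refine Finset.sum_congr rfl fun P _ => ?_
    rw [map_mul, h2]
    ring
  · rw [map_sum, Finset.sum_mul]
    refine Finset.sum_congr rfl fun P _ => ?_
    rw [map_mul, h3]
    ring
  · rintro P hP ⟨h5, h6, h7⟩
    apply h4 P
    refine ⟨?_, ?_, ?_⟩
    · have := P.asIdeal.sub_mem h5 (key X P hP)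
      rwa [sub_sub_cancel] at this
    · have := P.asIdeal.sub_mem h6 (key Y P hP)
      rwa [sub_sub_cancel] at this
    · have := P.asIdeal.sub_mem h7 (key Z P hP)
      rwa [sub_sub_cancel] at this

/-- the primes dividing a nonzero integer form a finite set -/
theorem finite_primes (m : ℕ) (hm : m ≠ 0) :
    ∃ T : Finset (HeightOneSpectrum (𝓞 K)), ∀ P : HeightOneSpectrum (𝓞 K),
      ((m : ℕ) : 𝓞 K) ∈ P.asIdeal → P ∈ T := by
  have h0 : Ideal.span {((m : ℕ) : 𝓞 K)} ≠ 0 := by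
    rw [Ne, Ideal.zero_eq_bot, Ideal.span_singleton_eq_bot]
    exact_mod_cast hm
  refine ⟨(Ideal.finite_factors h0).toFinset, fun P hP => ?_⟩
  rw [Set.Finite.mem_toFinset, Set.mem_ofPred_eq, Ideal.dvd_span_singleton]
  exact hP

end Pool.Agent.Y546.WQ
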