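import Pool.Agent.Y546.WQ.Stm3

/-!
# Project WE: even exponents, statements
-/

set_option autoImplicit false

namespace Pool.Agent.Y546.WQ

open NumberField IsDedekindDomain Polynomial

/-- IDEE: the factor `z - w y` of `z ^ (2 p) - y ^ (2 p) = x ^ (2 p)` in a Dedekind domain with a
`p`-th root of unity `w`, if it is prime to two -/
def S_IDEE : Prop := ∀ (p : ℕ) [Fact p.Prime], p ≠ 2 → ∀ (R : Type) [CommRing R]
  [IsDedekindDomain R] (w : R), IsPrimitiveRoot w p → ∀ x y z : R, x ≠ 0 → y ≠ 0 → z ≠ 0 →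
  x ^ (2 * p) + y ^ (2 * p) = z ^ (2 * p) →
  (∀ P : Ideal R, P.IsPrime → ((p : ℕ) : R) ∈ P → x ∉ P) →
  (∀ P : Ideal R, P.IsPrime → (2 : R) ∈ P → z - w * y ∉ P) →
  ∃ A B : Ideal R, A ≠ ⊥ ∧ B ≠ ⊥ ∧
    Ideal.span {z - w * y} * B ^ p = Ideal.span {(z ^ 2 - y ^ 2) ^ ((p + 1) / 2)} * A ^ p

/-- CUB: the relation of order three for a quadratic polynomial, if the index `3` is regular -/
def S_CUB : Prop := ∀ (p : ℕ) [Fact p.Prime], 7 ≤ p → ∀ a b e : ZMod p, a + b + e ≠ 0 →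
  Reg p 3 → Rel p (Polynomial.C a + Polynomial.C b * X + Polynomial.C e * X ^ 2) →
  (a - e) * ((a + b + e) ^ 2 - 3 * (a + e) * (a + b + e) + 2 * (a - e) ^ 2) = 0

end Pool.Agent.Y546.WQ
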