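import Pool.Agent.Y546.WQ.Stm2

/-!
# Project TJ: Terjanian's theorem (even exponents) over number fields, statements

`p` is an odd prime, `E` the `p`-th cyclotomic field, `K` a number field of odd degree.
-/

set_option autoImplicit false

namespace Pool.Agent.Y546.WQ

open NumberField IsDedekindDomain Polynomial

/-- RAM: the totally ramified prime above `p` -/
def S_RAM : Prop := ∀ (p : ℕ) [Fact p.Prime], p ≠ 2 → ∀ (E : Type) [Field E] [NumberField E]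
  (c : Cyc p E) (P : HeightOneSpectrum (𝓞 E)), ((p : ℕ) : 𝓞 E) ∈ P.asIdeal →
  P.valuation E (1 - c.z) = WithZero.exp (-1 : ℤ) ∧
  (∀ (r : ℚ) (k : ℤ), r ≠ 0 → P.valuation E ((r : ℚ) : E) = WithZero.exp k →
    ((p : ℤ) - 1) * padicValRat p r = -k) ∧
  ∀ (r : E) (t : (ZMod p)ˣ) (ε k : ℤ), r ≠ 0 → (ε = 1 ∨ ε = -1) → c.σ t r = ε * r →
    P.valuation E r = WithZero.exp k → ((t ^ k : (ZMod p)ˣ) : ZMod p) = ε

/-- TOW: norms of ideal squares to the real subfield of degree `2 ^ (s - 1)` are squares -/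
def S_TOW : Prop := ∀ (p : ℕ) [Fact p.Prime], p ≠ 2 → ∀ (s q : ℕ), Odd q → p - 1 = 2 ^ s * q →
  ∀ (E : Type) [Field E] [NumberField E] (c : Cyc p E) (α : E), α ≠ 0 →
  (∀ P : HeightOneSpectrum (𝓞 E), ∃ m : ℤ, P.valuation E α = WithZero.exp (2 * m)) →
  (∀ P : HeightOneSpectrum (𝓞 E), ((p : ℕ) : 𝓞 E) ∈ P.asIdeal → P.valuation E α = 1) →
  ∃ β : E, ∏ t ∈ Finset.univ.filter (fun t : (ZMod p)ˣ => t ^ (2 * q) = 1), c.σ t α = β ^ 2

/-- NSQ: the norm of an ideal square is an ideal square -/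
def S_NSQ : Prop := ∀ (E K N : Type) [Field E] [NumberField E] [Field K] [NumberField K]
  [Field N] [NumberField N] (_i : E →+* N), Nat.card (K →+* N) = Module.finrank ℚ K →
  ∀ (X Y : 𝓞 K) (w : 𝓞 E) (f : Polynomial ℤ),
  f.map (Int.castRingHom (𝓞 N)) = nrmP K N X Y →
  (∀ (L : Type) [Field L] [NumberField L] (j : E →+* L) (τ : K →+* L),
    ∃ A : Ideal (𝓞 L), A ≠ ⊥ ∧ Ideal.span {RingOfIntegers.mapRingHom τ X +
      RingOfIntegers.mapRingHom j w * RingOfIntegers.mapRingHom τ Y} = A ^ 2) →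
  ∃ A : Ideal (𝓞 E), A ≠ ⊥ ∧ Ideal.span {aeval w f} = A ^ 2

/-- IDES: the factor `z ^ 2 - w y ^ 2` of `z ^ (2 p) - y ^ (2 p) = x ^ (2 p)` -/
def S_IDES : Prop := ∀ (p : ℕ) [Fact p.Prime], p ≠ 2 → ∀ (R : Type) [CommRing R]
  [IsDedekindDomain R] (w : R), IsPrimitiveRoot w p → ∀ x y z : R, x ≠ 0 → y ≠ 0 → z ≠ 0 →
  x ^ (2 * p) + y ^ (2 * p) = z ^ (2 * p) →
  (∀ P : Ideal R, P.IsPrime → ((p : ℕ) : R) ∈ P → x ∉ P) →
  ∃ A : Ideal R, A ≠ ⊥ ∧ Ideal.span {z ^ 2 - w * y ^ 2} = A ^ 2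

/-- POL4: from a congruence modulo two to a congruence modulo four -/
def S_POL4 : Prop := ∀ (m a b : ℕ) (B f : Polynomial ℤ), B.natDegree ≤ m → f.natDegree ≤ m →
  f.comp (X ^ 2) = B * B.comp (-X) →
  (∃ R : Polynomial ℤ, X ^ b * B = X ^ a * B.reflect m + 2 * R) →
  ∃ S : Polynomial ℤ, X ^ b * f = (-1) ^ (a + b + m) * (X ^ a * f.reflect m) + 4 * S

/-- the possible residues of a solution of `x ^ (2 p) + y ^ (2 p) = z ^ (2 p)` at the primes above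
two, if these have norm two or four and `z` is prime to two -/
def Typ (K : Type) [Field K] [NumberField K] (x y z : 𝓞 K) : Prop :=
  ∀ P : Ideal (𝓞 K), P.IsPrime → (2 : 𝓞 K) ∈ P → z ∉ P ∧
    ((x ∈ P ∧ y ∉ P ∧ z - y ∈ P) ∨ (y ∈ P ∧ x ∉ P) ∨
      (x ∉ P ∧ y ∉ P ∧ z ^ 2 + z * y + y ^ 2 ∈ P))

/-- LOC4: the norm polynomial `N (z - T y)` modulo two -/
def S_LOC4 : Prop := ∀ (K N : Type) [Field K] [NumberField K] [Field N] [NumberField N],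
  Nat.card (K →+* N) = Module.finrank ℚ K →
  ∀ Q : Ideal (𝓞 N), Q.IsPrime → (2 : 𝓞 N) ∈ Q → ∀ x y z : 𝓞 K, Typ K x y z →
  ∀ a b : ℕ, a = Nat.card {τ : K →+* N // RingOfIntegers.mapRingHom τ x ∈ Q} →
  b = Nat.card {τ : K →+* N // RingOfIntegers.mapRingHom τ y ∈ Q} →
  ∀ B : Polynomial ℤ, B.natDegree ≤ Module.finrank ℚ K →
  B.map (Int.castRingHom (𝓞 N)) = nrmP K N z (-y) →
  (∃ k : ℕ, a + b + 2 * k = Module.finrank ℚ K) ∧
  ∃ R : Polynomial ℤ, X ^ b * B = B.reflect (Module.finrank ℚ K) + 2 * R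

/-- COP4: the norm of `z ^ 2 - ζ y ^ 2` is prime to two -/
def S_COP4 : Prop := ∀ (p : ℕ) [Fact p.Prime], 5 ≤ p → ∀ (E : Type) [Field E] [NumberField E]
  (c : Cyc p E) (K N : Type) [Field K] [NumberField K] [Field N] [NumberField N]
  (_i : E →+* N), Nat.card (K →+* N) = Module.finrank ℚ K →
  ∀ x y z : 𝓞 K, Typ K x y z →
  ∀ f : Polynomial ℤ, f.map (Int.castRingHom (𝓞 N)) = nrmP K N (z ^ 2) (-y ^ 2) →
  ∀ P : Ideal (𝓞 E), P.IsPrime → (2 : 𝓞 E) ∈ P → ∀ w : 𝓞 E, (w : E) = aeval c.z f → w ∉ P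

/-- NOZ: a prime above two of odd ramification index does not contain `z` -/
def S_NOZ : Prop := ∀ (R : Type) [CommRing R] [IsDedekindDomain R] (P : Ideal R), P.IsPrime →
  P ≠ ⊥ → ∀ (p e : ℕ), Odd e → e < 2 * p → (2 : R) ∈ P ^ e → (2 : R) ∉ P ^ (e + 1) →
  ∀ x y z : R, x ^ (2 * p) + y ^ (2 * p) = z ^ (2 * p) → z ∈ P → x ∉ P → y ∉ P → False

/-- FIN4: the contradiction modulo four -/
def S_FIN4 : Prop := ∀ (p : ℕ) [Fact p.Prime], p ≠ 2 → ∀ (s q : ℕ), Odd q → p - 1 = 2 ^ s * q →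
  ∀ (E : Type) [Field E] [NumberField E] (c : Cyc p E) (f S : Polynomial ℤ) (m b : ℕ),
  f.natDegree ≤ m → X ^ b * f = -f.reflect m + 4 * S →
  (∀ P : Ideal (𝓞 E), P.IsPrime → (2 : 𝓞 E) ∈ P → ∀ w : 𝓞 E, (w : E) = aeval c.z f → w ∉ P) →
  ∀ β : E, ∏ t ∈ Finset.univ.filter (fun t : (ZMod p)ˣ => t ^ (2 * q) = 1),
    c.σ t (aeval c.z f) = β ^ 2 → False

end Pool.Agent.Y546.WQ
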