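import Pool.Agent.Y546.WQ.EvnQ
import Pool.Agent.Y546.WQ.Stm5

/-!
# Project TJ: Terjanian's theorem over number fields of odd degree
-/

set_option autoImplicit false

namespace Pool.Agent.Y546.WQ

open NumberField IsDedekindDomain Polynomial

section

variable {K : Type} [Field K] [NumberField K]

/-- in a field with two or four elements `w ^ 4 = w` -/
theorem pow4_mem (P : Ideal (𝓞 K)) (hP : P.IsPrime) (h2 : (2 : 𝓞 K) ∈ P)
    (hc : Nat.card (𝓞 K ⧸ P) = 2 ∨ Nat.card (𝓞 K ⧸ P) = 4) (w : 𝓞 K) : w ^ 4 - w ∈ P := by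
  have hP0 : P ≠ ⊥ := by
    rintro rfl
    rw [Ideal.mem_bot] at h2
    norm_num at h2
  have hM : P.IsMaximal := hP.isMaximal hP0
  let _ := Ideal.Quotient.field P
  have hfin : Finite (𝓞 K ⧸ P) := Nat.finite_of_card_ne_zero (by omega)
  let _ := Fintype.ofFinite (𝓞 K ⧸ P)
  have h3 := FiniteField.pow_card (Ideal.Quotient.mk P w)
  rw [← Nat.card_eq_fintype_card] at h3
  rw [← Ideal.Quotient.eq_zero_iff_mem, map_sub, map_pow, sub_eq_zero]
  rcases hc with hc | hc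
  · rw [hc] at h3
    calc (Ideal.Quotient.mk P w) ^ 4 = ((Ideal.Quotient.mk P w) ^ 2) ^ 2 := by ring
      _ = _ := by rw [h3, h3]
  · rw [hc] at h3
    exact h3

/-- the possible residues of a solution at the primes above two -/
theorem typ_of (hNOZ : S_NOZ) {p : ℕ} (hp : p.Prime) (h5 : 5 ≤ p)
    (h2 : ∀ P : Ideal (𝓞 K), P.IsPrime → (2 : 𝓞 K) ∈ P →
      (Nat.card (𝓞 K ⧸ P) = 2 ∨ Nat.card (𝓞 K ⧸ P) = 4) ∧
      ∃ e : ℕ, Odd e ∧ e < 2 * p ∧ (2 : 𝓞 K) ∈ P ^ e ∧ (2 : 𝓞 K) ∉ P ^ (e + 1))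
    {x y z : 𝓞 K} (s : SolE p K x y z) : Typ K x y z := by
  intro P hP h2P
  obtain ⟨hc, e, he, hep, h2e, h2e'⟩ := h2 P hP h2P
  have hP0 : P ≠ ⊥ := by
    rintro rfl
    rw [Ideal.mem_bot] at h2P
    norm_num at h2P
  have hp0 : 2 * p ≠ 0 := by omega
  have hsolve : ∀ a b c : 𝓞 K, a ^ (2 * p) = b ^ (2 * p) - c ^ (2 * p) → b ∈ P → c ∈ P → a ∈ P := by
    intro a b c h hb hc
    apply hP.mem_of_pow_mem (2 * p)
    rw [h]
    exact P.sub_mem (Ideal.pow_mem_of_mem _ hb _ (by omega)) (Ideal.pow_mem_of_mem _ hc _ (by omega))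
  have hsolve' : ∀ a b c : 𝓞 K, a ^ (2 * p) = b ^ (2 * p) + c ^ (2 * p) → b ∈ P → c ∈ P → a ∈ P := by
    intro a b c h hb hc
    apply hP.mem_of_pow_mem (2 * p)
    rw [h]
    exact P.add_mem (Ideal.pow_mem_of_mem _ hb _ (by omega)) (Ideal.pow_mem_of_mem _ hc _ (by omega))
  have hz : z ∉ P := by
    intro hz
    by_cases hx : x ∈ P
    · exact s.two P hP h2P ⟨hx, hsolve y z x (by rw [← s.eq]; ring) hz hx, hz⟩
    · by_cases hy : y ∈ P
      · exact s.two P hP h2P ⟨hsolve x z y (by rw [← s.eq]; ring) hz hy, hy, hz⟩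
      · exact hNOZ (𝓞 K) P hP hP0 p e he hep h2e h2e' x y z s.eq hz hx hy
  refine ⟨hz, ?_⟩
  have := hP
  have key : ∀ w : 𝓞 K, w ∉ P → (Ideal.Quotient.mk P w) ^ 3 = 1 := by
    intro w hw
    have h1 : w * (w ^ 3 - 1) ∈ P := by
      have e : w * (w ^ 3 - 1) = w ^ 4 - w := by ring
      rw [e]
      exact pow4_mem P hP h2P hc w
    have h2 : w ^ 3 - 1 ∈ P := (hP.mem_or_mem h1).resolve_left hw
    rw [← Ideal.Quotient.eq_zero_iff_mem] at h2
    simp only [map_sub, map_pow, map_one] at h2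
    exact sub_eq_zero.1 h2
  have heq := congrArg (Ideal.Quotient.mk P) s.eq
  simp only [map_add, map_pow] at heq
  have hpm : p % 3 = 1 ∨ p % 3 = 2 := by
    have : p % 3 ≠ 0 := by
      intro h
      have := (Nat.prime_dvd_prime_iff_eq Nat.prime_three hp).1 (Nat.dvd_of_mod_eq_zero h)
      omega
    omega
  by_cases hx : x ∈ P
  · have hy : y ∉ P := fun hy => hz (hsolve' z x y s.eq.symm hx hy)
    refine Or.inl ⟨hx, hy, ?_⟩
    have hx' : Ideal.Quotient.mk P x = 0 := Ideal.Quotient.eq_zero_iff_mem.2 hx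
    rw [hx', zero_pow hp0, zero_add] at heq
    have ey := key y hy
    have ez := key z hz
    rw [← Ideal.Quotient.eq_zero_iff_mem, map_sub, sub_eq_zero]
    have hred : ∀ u : 𝓞 K ⧸ P, u ^ 3 = 1 → ∀ k j : ℕ, u ^ (3 * k + j) = u ^ j := by
      intro u hu k j
      rw [pow_add, pow_mul, hu, one_pow, one_mul]
    rcases hpm with h | h
    · have e1 : 2 * p = 3 * (2 * (p / 3)) + 2 := by omega
      rw [e1, hred _ ey, hred _ ez] at heq
      calc Ideal.Quotient.mk P z = (Ideal.Quotient.mk P z) ^ 3 * Ideal.Quotient.mk P z := by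
            rw [ez, one_mul]
        _ = ((Ideal.Quotient.mk P z) ^ 2) ^ 2 := by ring
        _ = ((Ideal.Quotient.mk P y) ^ 2) ^ 2 := by rw [heq]
        _ = (Ideal.Quotient.mk P y) ^ 3 * Ideal.Quotient.mk P y := by ring
        _ = Ideal.Quotient.mk P y := by rw [ey, one_mul]
    · have e1 : 2 * p = 3 * (2 * (p / 3) + 1) + 1 := by omega
      rw [e1, hred _ ey, hred _ ez, pow_one, pow_one] at heq
      exact heq.symm
  · by_cases hy : y ∈ P
    · exact Or.inr (Or.inl ⟨hy, hx⟩)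
    · refine Or.inr (Or.inr ⟨hx, hy, ?_⟩)
      have ey := key y hy
      have ez := key z hz
      have hne : Ideal.Quotient.mk P z - Ideal.Quotient.mk P y ≠ 0 := by
        intro h0
        rw [sub_eq_zero.1 h0] at heq
        have h1 : (Ideal.Quotient.mk P x) ^ (2 * p) = 0 := by linear_combination heq
        rw [← map_pow, Ideal.Quotient.eq_zero_iff_mem] at h1
        exact hx (hP.mem_of_pow_mem _ h1)
      rw [← Ideal.Quotient.eq_zero_iff_mem]
      simp only [map_add, map_mul, map_pow]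
      refine (mul_eq_zero.1 ?_).resolve_left hne
      linear_combination ez - ey

/-- the norm polynomial of `z ^ 2 - T y ^ 2` -/
theorem nrm_comp {N : Type} [Field N] [NumberField N] (y z : 𝓞 K) (B f : Polynomial ℤ)
    (hB : B.map (Int.castRingHom (𝓞 N)) = nrmP K N z (-y))
    (hf : f.map (Int.castRingHom (𝓞 N)) = nrmP K N (z ^ 2) (-y ^ 2)) :
    f.comp (X ^ 2) = B * B.comp (-X) := by
  apply Polynomial.map_injective (Int.castRingHom (𝓞 N)) (RingHom.injective_int _)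
  rw [Polynomial.map_comp, Polynomial.map_mul, Polynomial.map_comp, hf, hB]
  simp only [Polynomial.map_pow, Polynomial.map_neg, map_X]
  unfold nrmP
  rw [Polynomial.prod_comp, Polynomial.prod_comp, ← Finset.prod_mul_distrib]
  apply Finset.prod_congr rfl
  intro τ _
  simp only [add_comp, mul_comp, neg_comp, pow_comp, C_comp, X_comp, map_pow, map_neg]
  ring

/-- a square of an ideal has even valuations -/
theorem val_sq {E : Type} [Field E] [NumberField E] (w : 𝓞 E) (A : Ideal (𝓞 E)) (hA : A ≠ ⊥)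
    (h : Ideal.span {w} = A ^ 2) (P : HeightOneSpectrum (𝓞 E)) :
    ∃ m : ℤ, P.valuation E (w : E) = WithZero.exp (2 * m) := by
  have hw : w ≠ 0 := by
    rintro rfl
    apply hA
    have h1 : A ^ 2 = 0 := by
      rw [← h]
      simp
    exact (pow_eq_zero_iff two_ne_zero).1 h1
  have h1 : P.valuation E (w : E) = P.intValuation w := P.valuation_of_algebraMap w
  rw [h1, HeightOneSpectrum.intValuation_if_neg P hw, h, Associates.mk_pow,
    Associates.count_pow (Associates.mk_ne_zero.2 hA) P.associates_irreducible]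
  refine ⟨-((Associates.mk P.asIdeal).count (Associates.mk A).factors : ℤ), ?_⟩
  congr 1
  push_cast
  ring

/-- the statements which are used -/
structure Ters : Prop where
  nsq : S_NSQ
  tow : S_TOW
  ides : S_IDES
  pol4 : S_POL4
  loc4 : S_LOC4
  cop4 : S_COP4
  noz : S_NOZ
  fin4 : S_FIN4

/-- the case in which the number of embeddings with `y` divisible by `Q` is even -/
theorem ter_core (T : Ters) {p : ℕ} [Fact p.Prime] (h5 : 5 ≤ p)
    (hm : Odd (Module.finrank ℚ K))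
    {E N : Type} [Field E] [NumberField E] [Field N] [NumberField N] (c : Cyc p E) (i : E →+* N)
    (hcard : Nat.card (K →+* N) = Module.finrank ℚ K) (Q : Ideal (𝓞 N)) (hQ : Q.IsPrime)
    (h2Q : (2 : 𝓞 N) ∈ Q) {x y z : 𝓞 K} (s : SolE p K x y z) (ht : Typ K x y z)
    (hb : Even (Nat.card {τ : K →+* N // RingOfIntegers.mapRingHom τ y ∈ Q})) : False := by
  have hpp : p.Prime := Fact.out
  have hp2 : p ≠ 2 := by omega
  obtain ⟨B, hBdeg, -, -, -, hB'⟩ := Y290.WQ.mainNORM K z (-y)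
  obtain ⟨f, hdeg, -, -, hev, hf'⟩ := Y290.WQ.mainNORM K (z ^ 2) (-y ^ 2)
  have hB := hB' N hcard
  have hf := hf' N hcard
  obtain ⟨b, hbdef⟩ : ∃ b, b = Nat.card {τ : K →+* N // RingOfIntegers.mapRingHom τ y ∈ Q} :=
    ⟨_, rfl⟩
  rw [← hbdef] at hb
  obtain ⟨-, R, hR⟩ := T.loc4 K N hcard Q hQ h2Q x y z ht _ b rfl hbdef B hBdeg hB
  obtain ⟨S, hS⟩ := T.pol4 (Module.finrank ℚ K) 0 b B f hBdeg hdeg (nrm_comp y z B f hB hf)
    ⟨R, by rw [pow_zero, one_mul]; exact hR⟩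
  have hodd : Odd (0 + b + Module.finrank ℚ K) := by
    rw [zero_add]
    exact hb.add_odd hm
  rw [hodd.neg_one_pow, pow_zero, one_mul] at hS
  have hS' : X ^ b * f = -f.reflect (Module.finrank ℚ K) + 4 * S := by
    rw [hS]
    ring
  have hcop := T.cop4 p h5 E c K N i hcard x y z ht f hf
  obtain ⟨u, hu, hup⟩ := exists_zint c
  have hΛ : algebraMap (𝓞 E) E (aeval u f) = aeval c.z f := by
    have hu' : algebraMap (𝓞 E) E u = c.z := hu
    rw [← hu']
    exact (aeval_algebraMap_apply E u f).symm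
  obtain ⟨A, hA, hspan⟩ := T.nsq E K N i hcard (z ^ 2) (-y ^ 2) u f hf (by
    intro L _ _ j τ
    have hτ := mapRingHom_inj τ
    have h1 := T.ides p hp2 (𝓞 L) (RingOfIntegers.mapRingHom j u)
      (hup.map_of_injective (mapRingHom_inj j)) (RingOfIntegers.mapRingHom τ x)
      (RingOfIntegers.mapRingHom τ y) (RingOfIntegers.mapRingHom τ z)
      ((map_ne_zero_iff _ hτ).2 s.x0) ((map_ne_zero_iff _ hτ).2 s.y0)
      ((map_ne_zero_iff _ hτ).2 s.z0)
      (by rw [← map_pow, ← map_pow, ← map_pow, ← map_add, s.eq])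
      (fun P hP hpP hx => (s.cp (P.comap (RingOfIntegers.mapRingHom τ)) (hP.comap _)
        (by rw [Ideal.mem_comap, map_natCast]; exact hpP)).1 hx)
    obtain ⟨A, hA, h2⟩ := h1
    refine ⟨A, hA, ?_⟩
    rw [← h2]
    congr 2
    rw [map_neg, map_pow, map_pow]
    ring)
  have hα0 : aeval c.z f ≠ 0 := by
    intro h0
    rw [← hΛ] at h0
    have h1 : aeval u f = 0 := RingOfIntegers.coe_injective (by rw [map_zero]; exact h0)
    rw [h1] at hspan
    apply hA
    have h2 : A ^ 2 = 0 := by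
      rw [← hspan]
      simp
    exact (pow_eq_zero_iff two_ne_zero).1 h2
  have hpg : ¬ (p : ℤ) ∣ f.eval 1 := by
    rw [hev]
    apply norm_coprime hcard Y290.WQ.mainNORM p hpp
    intro P hP hpP h'
    apply (s.sub_notMem hpp hp2 P hP hpP).1
    have e : z ^ 2 - y ^ 2 = z ^ 2 + ((1 : ℤ) : 𝓞 K) * -y ^ 2 := by push_cast; ring
    rw [e]
    exact h'
  obtain ⟨n, q, hq, hpq⟩ := Nat.exists_eq_two_pow_mul_odd (n := p - 1) (by omega)
  obtain ⟨β, hβ⟩ := T.tow p hp2 n q hq hpq E c (aeval c.z f) hα0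
    (fun P => by
      obtain ⟨m, hm⟩ := val_sq (aeval u f) A hA hspan P
      exact ⟨m, by rw [← hΛ]; exact hm⟩)
    (fun P hpP => by
      rw [← hΛ]
      refine val_one P _ fun hmem => ?_
      have h1 : 1 - u ∈ P.asIdeal := one_sub_mem u hup.pow_eq_one P.asIdeal P.isPrime hpP
      have h2 : (u - 1) ∣ (f.map (algebraMap ℤ (𝓞 E))).eval u -
        (f.map (algebraMap ℤ (𝓞 E))).eval 1 := sub_dvd_eval_sub u 1 _
      have h3 : (f.map (algebraMap ℤ (𝓞 E))).eval u = aeval u f := by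
        rw [eval_map_algebraMap]
      have h4 : (f.map (algebraMap ℤ (𝓞 E))).eval 1 = ((f.eval 1 : ℤ) : 𝓞 E) := by
        rw [eval_map_algebraMap]
        have := aeval_algebraMap_apply (𝓞 E) (1 : ℤ) f
        rw [map_one] at this
        rw [this]
        simp
      rw [h3, h4] at h2
      have h5 : aeval u f - ((f.eval 1 : ℤ) : 𝓞 E) ∈ P.asIdeal := by
        obtain ⟨v, hv⟩ := h2
        rw [hv, ← neg_sub, neg_mul]
        exact neg_mem (P.asIdeal.mul_mem_right _ h1)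
      have h6 : ((f.eval 1 : ℤ) : 𝓞 E) ∈ P.asIdeal := by
        have := P.asIdeal.sub_mem hmem h5
        rwa [sub_sub_cancel] at this
      exact int_notMem P.asIdeal P.isPrime p hpp hpP _ hpg h6)
  exact T.fin4 p hp2 n q hq hpq E c f S (Module.finrank ℚ K) b hdeg hS' hcop β hβ

/-- Terjanian's theorem over number fields of odd degree -/
theorem mainTer (T : Ters) {p : ℕ} (hp : p.Prime) (h5 : 5 ≤ p)
    (hm : Odd (Module.finrank ℚ K))
    (h2 : ∀ P : Ideal (𝓞 K), P.IsPrime → (2 : 𝓞 K) ∈ P →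
      (Nat.card (𝓞 K ⧸ P) = 2 ∨ Nat.card (𝓞 K ⧸ P) = 4) ∧
      ∃ e : ℕ, Odd e ∧ e < 2 * p ∧ (2 : 𝓞 K) ∈ P ^ e ∧ (2 : 𝓞 K) ∉ P ^ (e + 1))
    {x y z : K} (hx : x ≠ 0) (hy : y ≠ 0) (hz : z ≠ 0)
    (h : x ^ (2 * p) + y ^ (2 * p) = z ^ (2 * p))
    (hv : ∀ v : HeightOneSpectrum (𝓞 K), ((p : ℕ) : 𝓞 K) ∈ v.asIdeal →
      v.valuation K x = v.valuation K y ∧ v.valuation K y = v.valuation K z) : False := by
  have hfact : Fact p.Prime := ⟨hp⟩
  obtain ⟨X', Y', Z', hX, hY, hZ, hXYZ, hcp, h22⟩ := prepE hp hx hy hz h hv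
  have s : SolE p K X' Y' Z' := ⟨hX, hY, hZ, hXYZ, hcp, h22⟩
  have ht := typ_of T.noz hp h5 h2 s
  obtain ⟨E, _, _, ⟨c⟩⟩ := Y978.WQ.main p (by omega)
  obtain ⟨N, _, _, _, -, hcard, -⟩ := Y258.WQ.exists_field E K
  obtain ⟨Q, hQ, hQ2⟩ := exists_above (K := N) 2 Nat.prime_two
  have h2Q : (2 : 𝓞 N) ∈ Q := by exact_mod_cast hQ2
  obtain ⟨B, hBdeg, -, -, -, hB'⟩ := Y290.WQ.mainNORM K Z' (-Y')
  obtain ⟨⟨k, hk⟩, -⟩ := T.loc4 K N hcard Q hQ h2Q X' Y' Z' ht _ _ rfl rfl B hBdeg (hB' N hcard)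
  rcases Nat.even_or_odd (Nat.card {τ : K →+* N // RingOfIntegers.mapRingHom τ Y' ∈ Q}) with
    hb | hb
  · exact ter_core T h5 hm c (algebraMap E N) hcard Q hQ h2Q s ht hb
  · refine ter_core T h5 hm c (algebraMap E N) hcard Q hQ h2Q s.swap
      (typ_of T.noz hp h5 h2 s.swap) ?_
    rw [← Nat.not_odd_iff_even]
    intro ha
    have h1 : Even (Module.finrank ℚ K) := by
      rw [← hk]
      exact (ha.add_odd hb).add (even_two_mul k)
    exact (Nat.not_even_iff_odd.2 hm) h1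

end

end Pool.Agent.Y546.WQ
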