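import Pool.Agent.Y546.WQ.Ter
import Pool.Agent.Y546.WQ.Stm6

/-!
# Project RT: Terjanian's theorem over totally real fields of odd narrow class number
-/

set_option autoImplicit false

namespace Pool.Agent.Y546.WQ

open NumberField IsDedekindDomain Polynomial

section

variable {K : Type} [Field K] [NumberField K]

/-- the statements which are used -/
structure RTs : Prop where
  ka : S_KA
  kb : S_KB
  kc : S_KC
  tow : S_KTOW
  fin : S_KFIN
  two : S_KTWO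
  ides : S_IDES
  noz : S_NOZ

theorem exists_cycK (T : RTs) {p : ℕ} [Fact p.Prime] (hp2 : p ≠ 2)
    (hin : (Ideal.span {((p : ℕ) : 𝓞 K)}).IsPrime) :
    ∃ (M : Type) (_ : Field M) (_ : NumberField M) (_ : Algebra K M), Nonempty (CycK p K M) := by
  obtain ⟨M, _, _, _, z, σ, hz, hσ, hgen, hfix, hfr⟩ := T.ka p hp2 K hin
  obtain ⟨P0, h1, h2, h3, h4, h5⟩ := T.kb p hp2 K M z hz hfr hin
  exact ⟨M, _, _, _, ⟨⟨z, hz, σ, hσ, hgen, hfix, P0, h1, h2, h3, h4, h5, T.kc p K M z hz hgen⟩⟩⟩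

theorem coe_alg {M : Type} [Field M] [NumberField M] [Algebra K M] (a : 𝓞 K) :
    algebraMap (𝓞 M) M (algebraMap (𝓞 K) (𝓞 M) a) = algebraMap K M (a : K) := by
  rw [← IsScalarTower.algebraMap_apply (𝓞 K) (𝓞 M) M, IsScalarTower.algebraMap_apply (𝓞 K) K M]

theorem rt_core (T : RTs) {p : ℕ} [Fact p.Prime] (hp2 : p ≠ 2) (hreal : Real' K) (hnar : Nar K)
    (hin : (Ideal.span {((p : ℕ) : 𝓞 K)}).IsPrime) (v : HeightOneSpectrum (𝓞 K))
    (hv2 : Nat.card (𝓞 K ⧸ v.asIdeal) = 2) (e : ℕ) (he : Odd e) (hep : e ≤ p)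
    (h2e : (2 : 𝓞 K) ∈ v.asIdeal ^ e) (h2e' : (2 : 𝓞 K) ∉ v.asIdeal ^ (e + 1))
    {x y z : 𝓞 K} (s : SolE p K x y z) (hx : x ∈ v.asIdeal) (hy : y ∉ v.asIdeal) : False := by
  have hpp : p.Prime := Fact.out
  obtain ⟨M, _, _, _, ⟨c⟩⟩ := exists_cycK T hp2 hin
  have h1 := T.two (𝓞 K) v.asIdeal v.isPrime v.ne_bot hv2 p (hpp.odd_of_ne_two hp2) x y z hx hy s.eq
  have h2 : z ^ 2 - y ^ 2 ∈ v.asIdeal ^ (2 * e) := Ideal.pow_le_pow_right (by omega) h1
  -- the root of unity as an integer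
  have hzint : IsIntegral ℤ c.z :=
    ⟨Polynomial.X ^ p - 1, Polynomial.monic_X_pow_sub_C 1 hpp.ne_zero, by
      simp [c.prim.pow_eq_one]⟩
  obtain ⟨u, hu⟩ : ∃ u : 𝓞 M, algebraMap (𝓞 M) M u = c.z := ⟨⟨c.z, hzint⟩, rfl⟩
  have hup : IsPrimitiveRoot u p := by
    apply IsPrimitiveRoot.of_map_of_injective (f := algebraMap (𝓞 M) M) _
      RingOfIntegers.coe_injective
    rw [hu]
    exact c.prim
  have hinj : Function.Injective (algebraMap (𝓞 K) (𝓞 M)) := by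
    intro a b hab
    apply RingOfIntegers.coe_injective
    apply (algebraMap K M).injective
    rw [← coe_alg, ← coe_alg, hab]
  have hcomap : ∀ P : Ideal (𝓞 M), P.IsPrime → ((p : ℕ) : 𝓞 M) ∈ P →
      (P.comap (algebraMap (𝓞 K) (𝓞 M))).IsPrime ∧
        ((p : ℕ) : 𝓞 K) ∈ P.comap (algebraMap (𝓞 K) (𝓞 M)) := by
    intro P hP hpP
    refine ⟨hP.comap _, ?_⟩
    rw [Ideal.mem_comap, map_natCast]
    exact hpP
  obtain ⟨A, hA, hspan⟩ := T.ides p hp2 (𝓞 M) u hup (algebraMap (𝓞 K) (𝓞 M) x)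
    (algebraMap (𝓞 K) (𝓞 M) y) (algebraMap (𝓞 K) (𝓞 M) z)
    ((map_ne_zero_iff _ hinj).2 s.x0) ((map_ne_zero_iff _ hinj).2 s.y0)
    ((map_ne_zero_iff _ hinj).2 s.z0)
    (by rw [← map_pow, ← map_pow, ← map_pow, ← map_add, s.eq])
    (fun P hP hpP hxP => (s.cp _ (hcomap P hP hpP).1 (hcomap P hP hpP).2).1 hxP)
  set w : 𝓞 M := algebraMap (𝓞 K) (𝓞 M) z ^ 2 - u * algebraMap (𝓞 K) (𝓞 M) y ^ 2 with hw
  have hα : algebraMap (𝓞 M) M w = algebraMap K M (z : K) ^ 2 - c.z * algebraMap K M (y : K) ^ 2 := by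
    rw [hw, map_sub, map_mul, map_pow, map_pow, coe_alg, coe_alg, hu]
  have hw0 : w ≠ 0 := by
    intro h0
    rw [h0] at hspan
    apply hA
    have h3 : A ^ 2 = 0 := by
      rw [← hspan]
      simp
    exact (pow_eq_zero_iff two_ne_zero).1 h3
  have hα0 : algebraMap K M (z : K) ^ 2 - c.z * algebraMap K M (y : K) ^ 2 ≠ 0 := by
    rw [← hα]
    intro h0
    exact hw0 (RingOfIntegers.coe_injective (by rw [map_zero]; exact h0))
  obtain ⟨n, q, hq, hpq⟩ := Nat.exists_eq_two_pow_mul_odd (n := p - 1) (by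
    have := hpp.two_le
    omega)
  have hval0 : c.P0.valuation M (algebraMap K M (z : K) ^ 2 - c.z * algebraMap K M (y : K) ^ 2) = 1 := by
    rw [← hα]
    refine val_one c.P0 _ fun hmem => ?_
    have h3 : 1 - u ∈ c.P0.asIdeal := one_sub_mem u hup.pow_eq_one c.P0.asIdeal c.P0.isPrime c.mem
    have h4 : algebraMap (𝓞 K) (𝓞 M) (z ^ 2 - y ^ 2) ∈ c.P0.asIdeal := by
      have e1 : algebraMap (𝓞 K) (𝓞 M) (z ^ 2 - y ^ 2) =
          w - (1 - u) * algebraMap (𝓞 K) (𝓞 M) y ^ 2 := by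
        rw [hw, map_sub, map_pow, map_pow]
        ring
      rw [e1]
      exact c.P0.asIdeal.sub_mem hmem (c.P0.asIdeal.mul_mem_right _ h3)
    obtain ⟨h5, h6⟩ := hcomap c.P0.asIdeal c.P0.isPrime c.mem
    exact (s.sub_notMem hpp hp2 _ h5 h6).1 h4
  obtain ⟨β, hβ⟩ := T.tow p hp2 n q hq hpq K M c hreal hnar _ hα0 (fun P => by
    obtain ⟨m, hm⟩ := val_sq w A hA hspan P
    exact ⟨m, by rw [← hα]; exact hm⟩) hval0
  exact T.fin p hp2 n q hq hpq K M c v e he h2e h2e' y z hy h2 β hβ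

/-- Terjanian's theorem over totally real fields of odd narrow class number -/
theorem mainRT (T : RTs) {p : ℕ} (hp : p.Prime) (hp2 : p ≠ 2) (hreal : Real' K) (hnar : Nar K)
    (hin : (Ideal.span {((p : ℕ) : 𝓞 K)}).IsPrime) (v : HeightOneSpectrum (𝓞 K))
    (hv2 : Nat.card (𝓞 K ⧸ v.asIdeal) = 2) (e : ℕ) (he : Odd e) (hep : e ≤ p)
    (h2e : (2 : 𝓞 K) ∈ v.asIdeal ^ e) (h2e' : (2 : 𝓞 K) ∉ v.asIdeal ^ (e + 1))
    {x y z : K} (hx : x ≠ 0) (hy : y ≠ 0) (hz : z ≠ 0)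
    (h : x ^ (2 * p) + y ^ (2 * p) = z ^ (2 * p))
    (hv : ∀ v : HeightOneSpectrum (𝓞 K), ((p : ℕ) : 𝓞 K) ∈ v.asIdeal →
      v.valuation K x = v.valuation K y ∧ v.valuation K y = v.valuation K z) : False := by
  have hfact : Fact p.Prime := ⟨hp⟩
  obtain ⟨X', Y', Z', hX, hY, hZ, hXYZ, hcp, h22⟩ := prepE hp hx hy hz h hv
  have s : SolE p K X' Y' Z' := ⟨hX, hY, hZ, hXYZ, hcp, h22⟩
  set P : Ideal (𝓞 K) := v.asIdeal with hPdef
  have hP : P.IsPrime := v.isPrime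
  have h2P : (2 : 𝓞 K) ∈ P := by
    have h1 : P ^ e ≤ P := Ideal.pow_le_self (by rcases he with ⟨k, hk⟩; omega)
    exact h1 h2e
  have hp0 : 2 * p ≠ 0 := by have := hp.pos; omega
  have hsolve : ∀ a b c : 𝓞 K, a ^ (2 * p) = b ^ (2 * p) - c ^ (2 * p) → b ∈ P → c ∈ P → a ∈ P := by
    intro a b c h hb hc
    apply hP.mem_of_pow_mem (2 * p)
    rw [h]
    exact P.sub_mem (Ideal.pow_mem_of_mem _ hb _ (by omega)) (Ideal.pow_mem_of_mem _ hc _ (by omega))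
  have hsolve' : ∀ a b c : 𝓞 K, a ^ (2 * p) = b ^ (2 * p) + c ^ (2 * p) → b ∈ P → c ∈ P → a ∈ P := by
    intro a b c h hb hc
    apply hP.mem_of_pow_mem (2 * p)
    rw [h]
    exact P.add_mem (Ideal.pow_mem_of_mem _ hb _ (by omega)) (Ideal.pow_mem_of_mem _ hc _ (by omega))
  have hZP : Z' ∉ P := by
    intro hz
    by_cases hx : X' ∈ P
    · exact s.two P hP h2P ⟨hx, hsolve Y' Z' X' (by rw [← s.eq]; ring) hz hx, hz⟩
    · by_cases hy : Y' ∈ P
      · exact s.two P hP h2P ⟨hsolve X' Z' Y' (by rw [← s.eq]; ring) hz hy, hy, hz⟩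
      · exact T.noz (𝓞 K) P hP v.ne_bot p e he (by have := hp.pos; omega) h2e h2e' X' Y' Z' s.eq hz
          hx hy
  have hunit : ∀ a : 𝓞 K, a ∉ P → Ideal.Quotient.mk P a = 1 := by
    intro a ha
    have h1 := pow4_mem P hP h2P (Or.inl hv2) a
    have hM : P.IsMaximal := hP.isMaximal v.ne_bot
    let _ := Ideal.Quotient.field P
    have hfin : Finite (𝓞 K ⧸ P) := Nat.finite_of_card_ne_zero (by omega)
    let _ := Fintype.ofFinite (𝓞 K ⧸ P)
    have h3 := FiniteField.pow_card (Ideal.Quotient.mk P a)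
    rw [← Nat.card_eq_fintype_card, hv2] at h3
    have h4 : Ideal.Quotient.mk P a ≠ 0 := fun h => ha (Ideal.Quotient.eq_zero_iff_mem.1 h)
    have h5 : Ideal.Quotient.mk P a * (Ideal.Quotient.mk P a - 1) = 0 := by
      linear_combination h3
    exact sub_eq_zero.1 ((mul_eq_zero.1 h5).resolve_left h4)
  by_cases hxP : X' ∈ P
  · have hyP : Y' ∉ P := fun hy => hZP (hsolve' Z' X' Y' s.eq.symm hxP hy)
    exact rt_core T hp2 hreal hnar hin v hv2 e he hep h2e h2e' s hxP hyP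
  · by_cases hyP : Y' ∈ P
    · exact rt_core T hp2 hreal hnar hin v hv2 e he hep h2e h2e' s.swap hyP hxP
    · have heq := congrArg (Ideal.Quotient.mk P) s.eq
      simp only [map_add, map_pow] at heq
      rw [hunit _ hxP, hunit _ hyP, hunit _ hZP, one_pow] at heq
      have h1 : (1 : 𝓞 K ⧸ P) = 0 := by linear_combination heq
      have h2 : Ideal.Quotient.mk P 1 = 0 := by rw [map_one]; exact h1
      exact one_notMem P hP (Ideal.Quotient.eq_zero_iff_mem.1 h2)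

end

end Pool.Agent.Y546.WQ
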