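import Pool.Agent.Y546.WQ.PolAA
import Pool.Agent.Y546.WQ.Num

/-!
# Project WQ: quadratic norm polynomials
-/

set_option autoImplicit false

namespace Pool.Agent.Y546.WQ

open NumberField IsDedekindDomain

section

variable {p : ℕ} [Fact p.Prime] {C : Type} [Field C] [NumberField C]

/-- an odd denominator -/
theorem oddn (h5 : 5 ≤ p) (c : Cyc p C) (a b e : ℤ)
    (hpu : ¬ (p : ℤ) ∣ a + b + e) (k : ℕ) (hk : Par a b e k)
    (hv : ∀ P : HeightOneSpectrum (𝓞 C), ∃ m : ℤ,
      P.valuation C ((a : C) + b * c.z + e * c.z ^ 2) =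
        P.valuation C ((a + b + e : ℤ) : C) * WithZero.exp ((p : ℤ) * m)) :
    ∃ n : ℤ, Odd n ∧ ¬ (p : ℤ) ∣ n ∧ ∀ P : HeightOneSpectrum (𝓞 C), ∃ m : ℤ,
      P.valuation C ((a : C) + b * c.z + e * c.z ^ 2) =
        P.valuation C ((n : ℤ) : C) * WithZero.exp ((p : ℤ) * m) := by
  have hpp : p.Prime := Fact.out
  have hp2 : p ≠ 2 := by omega
  by_cases hodd : Odd (a + b + e)
  · exact ⟨a + b + e, hodd, hpu, hv⟩
  · -- then we are in the third case
    have hc : Even a ∧ Odd b ∧ Odd e ∧ k = 3 := by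
      rcases hk with h | h | h | h
      · exact absurd ((h.1.add h.2.1).add_odd h.2.2.1) hodd
      · exact absurd ((h.1.add_odd h.2.1).add_even h.2.2.1) hodd
      · exact h
      · exact absurd ((h.1.add_odd h.2.1).add_odd h.2.2.1) hodd
    have hu0 : a + b + e ≠ 0 := fun h => hpu (h ▸ dvd_zero _)
    obtain ⟨r, n, hn, hrn⟩ := exists_odd_part (a + b + e) hu0
    have hpn : ¬ (p : ℤ) ∣ n := fun h => hpu (hrn ▸ dvd_mul_of_dvd_right h _)
    obtain ⟨w, hwz, hw⟩ := exists_zint c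
    have hΛ : (((a : 𝓞 C) + b * w + e * w ^ 2 : 𝓞 C) : C) = (a : C) + b * c.z + e * c.z ^ 2 := by
      have hwz' : algebraMap (𝓞 C) C w = c.z := hwz
      simp only [map_add, map_mul, map_pow, map_intCast, hwz']
    refine ⟨n, hn, hpn, ?_⟩
    intro P
    by_cases h2 : ((2 : ℕ) : 𝓞 C) ∈ P.asIdeal
    · refine ⟨0, ?_⟩
      have h2' : (2 : 𝓞 C) ∈ P.asIdeal := by exact_mod_cast h2
      have hn1 : P.valuation C ((n : ℤ) : C) = 1 := by
        have := val_one P ((n : ℤ) : 𝓞 C) (int_notMem P.asIdeal P.isPrime 2 Nat.prime_two h2 n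
          (by
            rw [Int.odd_iff] at hn
            intro h
            push_cast at h
            omega))
        simpa using this
      rw [hn1, mul_zero, WithZero.exp_zero, mul_one, ← hΛ]
      apply val_one
      intro h3
      -- modulo P the element is w (1 + w)
      obtain ⟨a', ha'⟩ := hc.1
      obtain ⟨b', hb'⟩ := hc.2.1
      obtain ⟨e', he'⟩ := hc.2.2.1
      have h4 : w * (1 - w) ∈ P.asIdeal := by
        have h5 : w * (1 - w) = ((a : 𝓞 C) + b * w + e * w ^ 2) -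
            (a' + b' * w + (e' + 1) * w ^ 2) * 2 := by
          rw [ha', hb', he']
          push_cast
          ring
        rw [h5]
        exact P.asIdeal.sub_mem h3 (P.asIdeal.mul_mem_left _ h2')
      rcases P.isPrime.mem_or_mem h4 with h6 | h6
      · apply one_notMem P.asIdeal P.isPrime
        rw [← hw.pow_eq_one]
        exact P.asIdeal.pow_mem_of_mem h6 p hpp.pos
      · have h7 := p_mem_of_one_sub_mem w hw P.asIdeal h6
        have h8 := int_notMem P.asIdeal P.isPrime 2 Nat.prime_two h2 (p : ℤ) (by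
          intro h
          have h9 : 2 ∣ p := by exact_mod_cast h
          exact hp2 ((Nat.prime_dvd_prime_iff_eq Nat.prime_two hpp).1 h9).symm)
        exact h8 (by exact_mod_cast h7)
    · obtain ⟨m, hm⟩ := hv P
      refine ⟨m, ?_⟩
      rw [hm, hrn]
      congr 1
      push_cast
      rw [map_mul, map_pow]
      have h3 : P.valuation C (2 : C) = 1 := by
        have h10 : (((2 : ℕ) : 𝓞 C) : C) = 2 := map_natCast (algebraMap (𝓞 C) C) 2
        have := val_one P ((2 : ℕ) : 𝓞 C) h2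
        rwa [h10] at this
      rw [h3, one_pow, one_mul]

open Polynomial in
/-- the exponent is two if the index `3` is regular -/
theorem wieP (hU : S_UNIT) (hL : S_LAMG) (hT : S_TWO) (hH : S_HAR) (hUA : S_UNITA)
    (hLA : S_LAMA) (hCo : S_CORE) (hCA : S_COREA) (h7 : 7 ≤ p)
    (hW : ¬ p ^ 2 ∣ 2 ^ (p - 1) - 1) (hreg : Reg p 3) (c : Cyc p C) (a b e : ℤ)
    (hpa : ¬ (p : ℤ) ∣ a) (hpe : ¬ (p : ℤ) ∣ e)
    (hpu : ¬ (p : ℤ) ∣ a + b + e) (k : ℕ) (hk : Par a b e k)
    (h0 : (a : C) + b * c.z + e * c.z ^ 2 ≠ 0)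
    (hv : ∀ P : HeightOneSpectrum (𝓞 C), ∃ m : ℤ,
      P.valuation C ((a : C) + b * c.z + e * c.z ^ 2) =
        P.valuation C ((a + b + e : ℤ) : C) * WithZero.exp ((p : ℤ) * m)) : k = 2 := by
  have hpp : p.Prime := Fact.out
  have hp2 : p ≠ 2 := by omega
  obtain ⟨n, hn, hpn, hvn⟩ := oddn (by omega) c a b e hpu k hk hv
  obtain ⟨f, hfd⟩ : ∃ f : Polynomial ℤ, f = Polynomial.C a + Polynomial.C b * X +
      Polynomial.C e * X ^ 2 := ⟨_, rfl⟩
  have haev : aeval c.z f = (a : C) + b * c.z + e * c.z ^ 2 := by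
    rw [hfd]
    simp
  have hev1 : f.eval 1 = a + b + e := by
    rw [hfd]
    simp
  have hp1 : ¬ (p : ℤ) ∣ f.eval 1 := by rw [hev1]; exact hpu
  rw [← haev] at h0 hvn
  obtain ⟨g, hg, i, hi⟩ := relG hU hp2 c f n hpn hp1 h0 hvn
  have e2 := hT p (by omega) C c a b e n hn k hk g hg i (by rw [← haev]; exact hi)
  have e3 : 2 * (i : ZMod p) = k * hs p := e2.resolve_right hW
  obtain ⟨r, hr, hdv⟩ := hL p hp2 C c f n hpn hp1 g hg i hi
  have hs0 : hs p ≠ 0 := fun h => hW (hH p hp2 h)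
  have hrel : Rel p (f.map (Int.castRingHom (ZMod p))) := by
    intro a' ha' hap'
    obtain ⟨g', hg', k', hk'⟩ := relGA hUA hp2 a' ha' hap' c f n hpn hp1 h0 hvn
    obtain ⟨r', hr', hdv'⟩ := hLA p hp2 a' ha' hap' C c f n hpn hp1 g' hg' k' hk'
    exact ⟨k', r', hr', hdv'⟩
  have hz : ∀ k : ℤ, ¬ (p : ℤ) ∣ k → (k : ZMod p) ≠ 0 := by
    intro k hk h0
    exact hk ((ZMod.intCast_zmod_eq_zero_iff_dvd k p).1 h0)
  have hmap : f.map (Int.castRingHom (ZMod p)) = Polynomial.C (a : ZMod p) +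
      Polynomial.C (b : ZMod p) * X + Polynomial.C (e : ZMod p) * X ^ 2 := by
    rw [hfd]
    simp
  have hk4 : k ≤ 2 * 2 := by
    rcases hk with h | h | h | h
    · omega
    · omega
    · omega
    · omega
  refine (polAA hCo hCA p 2 k i _ r (by omega) hk4 ?_ ?_ ?_ ?_ hr hdv e3 hs0 hrel ?_).1
  · rw [hmap]
    compute_degree
  · rw [hmap]
    simp only [coeff_add, coeff_C_zero, coeff_C_mul, coeff_X_zero, mul_zero, coeff_X_pow]
    simpa using hz a hpa
  · rw [hmap]
    simp only [coeff_add, coeff_C_mul, coeff_X_pow, coeff_C, coeff_X]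
    simpa using hz e hpe
  · rw [hmap]
    simp only [eval_add, eval_mul, eval_C, eval_X, eval_pow, one_pow, mul_one]
    have := hz _ hpu
    push_cast at this
    exact this
  · intro j hj h3 hj4
    have : j = 3 := by omega
    subst this
    exact hreg

end

end Pool.Agent.Y546.WQ
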